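import Mathlib

/-!
# Definitions used in the statement

Structures with finitely many binary relations, homomorphisms, embeddings, finitely bounded
structures, the constraint satisfaction problem as a language of binary words; the complexity
classes P and NP, polynomial-time computable functions, NP-completeness and NP-intermediate
problems, in terms of Mathlib's `Turing.TM2ComputableInPolyTime`.
-/

set_option autoImplicit false
set_option linter.all false

namespace Pool.Agent.Helper96

/-! ### Structures with `k` binary relations -/

/-- a structure with `k` binary relations on the type `A` -/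
structure BinStr (k : ℕ) (A : Type) where
  rel : Fin k → A → A → Prop

/-- homomorphisms -/
def IsHom {k : ℕ} {A B : Type} (S : BinStr k A) (S' : BinStr k B) (h : A → B) : Prop :=
  ∀ r x y, S.rel r x y → S'.rel r (h x) (h y)

/-- embeddings -/
def IsEmb {k : ℕ} {A B : Type} (S : BinStr k A) (S' : BinStr k B) (h : A → B) : Prop :=
  Function.Injective h ∧ ∀ r x y, S.rel r x y ↔ S'.rel r (h x) (h y)

/-- finitely bounded structures: the finite structures that embed are exactly those omitting a
finite set of finite structures -/
def FinitelyBounded {k : ℕ} {A : Type} (S : BinStr k A) : Prop :=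
  ∃ F : Set (Σ n : ℕ, BinStr k (Fin n)), F.Finite ∧
    ∀ (n : ℕ) (B : BinStr k (Fin n)),
      (∃ h, IsEmb B S h) ↔ ∀ X ∈ F, ¬ ∃ h, IsEmb X.2 B h

open Classical in
/-- the encoding of a finite structure by a word: the size of the domain in unary, followed by
the tables of the relations -/
noncomputable def encStr {k n : ℕ} (B : BinStr k (Fin n)) : List Bool :=
  List.replicate n true ++ false ::
    (List.finRange k).flatMap fun r => (List.finRange n).flatMap fun i =>
      (List.finRange n).map fun j => decide (B.rel r i j)

/-- the constraint satisfaction problem of a structure, as a language: the set of the encodings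
of the finite structures that have a homomorphism to it -/
def CSP {k : ℕ} {A : Type} (S : BinStr k A) : Set (List Bool) :=
  {w | ∃ (n : ℕ) (B : BinStr k (Fin n)), (∃ h, IsHom B S h) ∧ w = encStr B}

/-! ### Complexity classes -/

open Turing Computability

/-- polynomial time computable functions on binary words -/
def PolyTimeFun (f : List Bool → List Bool) : Prop :=
  Nonempty (TM2ComputableInPolyTime (id : List Bool → List Bool) (id : List Bool → List Bool) f)

/-- the class P -/
def InP (L : Set (List Bool)) : Prop :=
  ∃ f : List Bool → Bool,
    Nonempty (TM2ComputableInPolyTime (id : List Bool → List Bool) encodeBool f) ∧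
    ∀ w, f w = true ↔ w ∈ L

/-- the class NP: polynomially bounded certificates with a polynomial time verifier -/
def InNP (L : Set (List Bool)) : Prop :=
  ∃ (R : List Bool × List Bool → Bool) (p : Polynomial ℕ),
    Nonempty (TM2ComputableInPolyTime
      (encodingProd (encodingList Bool) (encodingList Bool)).encode encodeBool R) ∧
    ∀ w, w ∈ L ↔ ∃ y : List Bool, y.length ≤ p.eval w.length ∧ R (w, y) = true

/-- NP-completeness under polynomial time many-one reductions -/
def NPComplete (L : Set (List Bool)) : Prop :=
  InNP L ∧ ∀ L', InNP L' → ∃ f, PolyTimeFun f ∧ ∀ w, w ∈ L' ↔ f w ∈ L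

/-- NP-intermediate languages: in NP, not in P and not NP-complete -/
def NPIntermediate (L : Set (List Bool)) : Prop :=
  InNP L ∧ ¬ InP L ∧ ¬ NPComplete L

end Pool.Agent.Helper96
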