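import Pool.Agent.Helper96.Poly
import Pool.Agent.Helper96.Statement

/-!
# P, NP, NP-completeness in terms of Mathlib's `Turing.TM2ComputableInPolyTime`

The definitions are in `Pool.Agent.Helper96.Statement`.
-/
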