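import Pool.Agent.Helper96.PolyList

/-!
# The universal clocked simulation
-/

set_option autoImplicit false
set_option linter.all false

namespace Pool.Agent.Helper96

open T Function

/-! ### trees as numbers, codes, parsing -/

/-- the number coded by a tree -/
def natOf (t : T) : ℕ := (spine t).length

theorem natOf_enc (n : ℕ) : natOf (enc n) = n := by
  show (spine (ofList (List.replicate n L))).length = n
  simp

/-- parse a word from right to left, producing a forest -/
def parseAll (w : List ℕ) : List T :=
  w.foldr (fun a st => if a = 0 then L :: st else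
    (match st with
    | a :: b :: st' => N a b :: st'
    | st' => st')) []

theorem parseAll_code (t : T) (w : List ℕ) : parseAll (code t ++ w) = t :: parseAll w := by
  induction t generalizing w with
  | L => rfl
  | N a b iha ihb =>
    have : code (N a b) ++ w = 1 :: (code a ++ (code b ++ w)) := by simp [code]
    rw [this]
    have h2 : parseAll (1 :: (code a ++ (code b ++ w))) =
      (match parseAll (code a ++ (code b ++ w)) with
        | a :: b :: st' => N a b :: st'
        | st' => st') := rfl
    rw [h2, iha, ihb]

/-- parse the tree at the beginning of a word -/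
def parse (w : List ℕ) : Option T := (parseAll w).head?

theorem parse_code (t : T) (w : List ℕ) : parse (code t ++ w) = some t := by
  rw [parse, parseAll_code]; rfl

section
variable {α β γ : Type} [Enc α] [Enc β] [Enc γ]

@[fun_prop]
theorem Poly.treeFst {f : α → T} (hf : Poly f) : Poly (fun a => T.fstD (f a)) :=
  Poly.fstD₀.comp hf

@[fun_prop]
theorem Poly.treeSnd {f : α → T} (hf : Poly f) : Poly (fun a => T.sndD (f a)) :=
  Poly.sndD₀.comp hf

theorem enc_spine (t : T) : enc (spine t) = t := by
  show ofList ((spine t).map id) = t
  simp

@[fun_prop]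
theorem Poly.spine {f : α → T} (hf : Poly f) : Poly (fun a => spine (f a)) :=
  hf.recast fun a => enc_spine _

@[fun_prop]
theorem Poly.natOf {f : α → T} (hf : Poly f) : Poly (fun a => natOf (f a)) := by
  unfold Helper96.natOf; fun_prop

@[fun_prop]
theorem Poly.node {f g : α → T} (hf : Poly f) (hg : Poly g) : Poly (fun a => N (f a) (g a)) :=
  (hf.prodMk hg).recast fun a => rfl

@[fun_prop]
theorem Poly.code {f : α → T} (hf : Poly f) : Poly (fun a => code (f a)) := by
  have h : Poly (fun a => (T.bits (f a)).map (fun b => bif b then 1 else 0)) :=
    Poly.map (Poly.bits₀.comp hf) (by fun_prop)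
  refine h.recast fun a => ?_
  congr 1
  unfold T.bits
  rw [List.map_map]
  conv_lhs => rw [← List.map_id (T.code (f a))]
  apply List.map_congr_left
  intro b hb
  rcases code_mem _ b hb with rfl | rfl <;> simp

@[fun_prop]
theorem Poly.size {f : α → T} (hf : Poly f) : Poly (fun a => size (f a)) := by
  have h : Poly (fun a => (T.code (f a)).length) := by fun_prop
  refine h.recast fun a => ?_
  rw [length_code]

/-- one step of the parser -/
def parseStep (st : List T) (a : ℕ) : List T :=
  bif decide (a = 0) then L :: st else
    bif st.isEmpty || st.tail.isEmpty then st else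
      N (st.headD L) (st.tail.headD L) :: st.tail.tail

theorem parseAll_eq (w : List ℕ) : parseAll w = w.reverse.foldl parseStep [] := by
  rw [List.foldl_reverse, parseAll]
  congr 1
  funext a st
  by_cases h : a = 0
  · subst h; simp [parseStep]
  · cases st with
    | nil => simp [parseStep, h]
    | cons x st =>
      cases st with
      | nil => simp [parseStep, h]
      | cons y st => simp [parseStep, h]

theorem parseStep_sz (st : List T) (a : ℕ) : sz (parseStep st a) ≤ sz st + 2 := by
  by_cases h : a = 0
  · subst h
    simp only [parseStep, decide_true, cond_true]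
    rw [sz_cons]
    have : sz L = 1 := rfl
    omega
  · cases st with
    | nil => simp [parseStep, h]
    | cons x st =>
      cases st with
      | nil => simp [parseStep, h]
      | cons y st =>
        simp only [parseStep, h, decide_false, cond_false, List.isEmpty_cons, List.tail_cons,
          Bool.or_self, List.headD_cons]
        rw [sz_cons, sz_cons, sz_cons]
        have : sz (N x y) = sz x + sz y + 1 := rfl
        omega

@[fun_prop]
theorem Poly.parseAll {f : α → List ℕ} (hf : Poly f) : Poly (fun a => parseAll (f a)) := by
  obtain ⟨B, hB, hm, hs⟩ := hf.szPB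
  have h := Poly.foldl' (f := fun a => (f a).reverse) (g := fun _ => ([] : List T))
    (h := fun _ => parseStep) (by fun_prop) (by fun_prop)
    (by unfold parseStep; fun_prop) (fun n => 2 * B n + 1) (by fun_prop) (by
      intro a l' hl'
      have key : ∀ (l : List ℕ) (st : List T), sz (l.foldl parseStep st) ≤ sz st + 2 * l.length := by
        intro l
        induction l with
        | nil => intro st; simp
        | cons b l ih =>
          intro st
          have h1 := ih (parseStep st b)
          have h2 := parseStep_sz st b
          rw [List.foldl_cons, List.length_cons]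
          omega
      have h1 := key l' []
      have h2 := hl'.length_le
      rw [List.length_reverse] at h2
      have h3 := length_lt_sz (f a)
      have h4 := hs a
      rw [sz_nil] at h1
      beta_reduce
      omega)
  refine h.recast fun a => ?_
  rw [parseAll_eq]

@[fun_prop]
theorem Poly.parse {f : α → List ℕ} (hf : Poly f) : Poly (fun a => parse (f a)) := by
  unfold Helper96.parse; fun_prop

end

/-! ### programs as trees -/

/-- programs as trees -/
def encC : Cmd → T
  | Cmd.push k a => enc ((0 : ℕ), k, a, L, L)
  | Cmd.pop k => enc ((1 : ℕ), k, (0 : ℕ), L, L)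
  | Cmd.seq p q => enc ((2 : ℕ), (0 : ℕ), (0 : ℕ), encC p, encC q)
  | Cmd.ite k a p q => enc ((3 : ℕ), k, a, encC p, encC q)
  | Cmd.wh k a p => enc ((4 : ℕ), k, a, encC p, L)

/-- stacks as lists of lists -/
def toStk (S : List (List ℕ)) : Stk := fun k => S.getD k []

/-- replace stack `k` -/
def setS (S : List (List ℕ)) (k : ℕ) (v : List ℕ) : List (List ℕ) :=
  (S.take k ++ List.replicate (k - S.length) []) ++ v :: S.drop (k + 1)

theorem toStk_setS (S : List (List ℕ)) (k : ℕ) (v : List ℕ) :
    toStk (setS S k v) = update (toStk S) k v := by
  have hlen : (S.take k ++ List.replicate (k - S.length) ([] : List ℕ)).length = k := by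
    simp; omega
  funext j
  simp only [toStk, setS, List.getD_eq_getElem?_getD]
  by_cases h : j = k
  · subst h
    rw [List.getElem?_append_right (by omega), hlen]
    simp
  · rw [update_of_ne h]
    rcases Nat.lt_or_gt_of_ne h with h1 | h1
    · rw [List.getElem?_append_left (by omega)]
      by_cases h2 : j < S.length
      · rw [List.getElem?_append_left (by simp; omega), List.getElem?_take_of_lt h1]
        rfl
      · rw [List.getElem?_append_right (by simp; omega)]
        have e0 : toStk S j = [] := by
          unfold toStk
          exact List.getD_eq_default _ _ (by omega)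
        rw [e0]
        simp only [List.getElem?_replicate]
        split_ifs <;> rfl
    · rw [List.getElem?_append_right (by omega), hlen]
      have : j - k = (j - k - 1) + 1 := by omega
      rw [this, List.getElem?_cons_succ, List.getElem?_drop]
      congr 3
      omega

/-- one step of the interpreter -/
def stepT (x : List T × List (List ℕ)) : List T × List (List ℕ) :=
  bif x.1.isEmpty then x else
    let c := x.1.headD L
    let K := x.1.tail
    let tag := natOf c.fstD
    let k := natOf c.sndD.fstD
    let a := natOf c.sndD.sndD.fstD
    let p := c.sndD.sndD.sndD.fstD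
    let q := c.sndD.sndD.sndD.sndD
    let st := x.2.getD k []
    bif decide (tag = 0) then (K, setS x.2 k (a :: st)) else
    bif decide (tag = 1) then (K, setS x.2 k st.tail) else
    bif decide (tag = 2) then (p :: q :: K, x.2) else
    bif decide (tag = 3) then
      (bif decide (st.head? = some a) then (p :: K, x.2) else (q :: K, x.2)) else
      (bif decide (st.head? = some a) then (K, x.2) else (p :: c :: K, x.2))

theorem stepT_spec (K : List Cmd) (S : List (List ℕ)) :
    (stepT (K.map encC, S)).1 = (step (K, toStk S)).1.map encC ∧
      toStk (stepT (K.map encC, S)).2 = (step (K, toStk S)).2 := by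
  cases K with
  | nil => simp [stepT, step]
  | cons c K =>
    cases c with
    | push k a =>
      have e1 : natOf (enc (0 : ℕ)) = 0 := natOf_enc 0
      simp only [stepT, List.map_cons, List.isEmpty_cons, cond_false, List.headD_cons,
        List.tail_cons, encC, enc_prod, T.fstD, T.sndD, natOf_enc, step, decide_true, cond_true,
        toStk_setS]
      refine ⟨trivial, ?_⟩
      rfl
    | pop k =>
      simp only [stepT, List.map_cons, List.isEmpty_cons, cond_false, List.headD_cons,
        List.tail_cons, encC, enc_prod, T.fstD, T.sndD, natOf_enc, step, decide_true, cond_true,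
        Nat.one_ne_zero, decide_false, toStk_setS]
      refine ⟨trivial, ?_⟩
      rfl
    | seq p q =>
      simp only [stepT, List.map_cons, List.isEmpty_cons, cond_false, List.headD_cons,
        List.tail_cons, encC, enc_prod, T.fstD, T.sndD, natOf_enc, step]
      exact ⟨rfl, rfl⟩
    | ite k a p q =>
      simp only [stepT, List.map_cons, List.isEmpty_cons, cond_false, List.headD_cons,
        List.tail_cons, encC, enc_prod, T.fstD, T.sndD, natOf_enc, step]
      by_cases h : (toStk S k).head? = some a
      · have h' : (S.getD k []).head? = some a := h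
        simp only [h, h', if_true, decide_true, cond_true]
        exact ⟨rfl, rfl⟩
      · have h' : ¬ (S.getD k []).head? = some a := h
        simp only [h, h', if_false, decide_false, cond_false]
        exact ⟨rfl, rfl⟩
    | wh k a p =>
      simp only [stepT, List.map_cons, List.isEmpty_cons, cond_false, List.headD_cons,
        List.tail_cons, encC, enc_prod, T.fstD, T.sndD, natOf_enc, step]
      by_cases h : (toStk S k).head? = some a
      · have h' : (S.getD k []).head? = some a := h
        simp only [h, h', if_true, decide_true, cond_true]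
        exact ⟨rfl, rfl⟩
      · have h' : ¬ (S.getD k []).head? = some a := h
        simp only [h, h', if_false, decide_false, cond_false]
        exact ⟨rfl, rfl⟩

theorem stepT_iter (n : ℕ) (K : List Cmd) (S : List (List ℕ)) :
    (stepT^[n] (K.map encC, S)).1 = (step^[n] (K, toStk S)).1.map encC ∧
      toStk (stepT^[n] (K.map encC, S)).2 = (step^[n] (K, toStk S)).2 := by
  induction n with
  | zero => exact ⟨rfl, rfl⟩
  | succ n ih =>
    rw [iterate_succ_apply', iterate_succ_apply']
    obtain ⟨h1, h2⟩ := ih
    have e : stepT^[n] (K.map encC, S) = ((step^[n] (K, toStk S)).1.map encC,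
        (stepT^[n] (K.map encC, S)).2) := by rw [← h1]
    have h3 := stepT_spec (step^[n] (K, toStk S)).1 (stepT^[n] (K.map encC, S)).2
    rw [← e] at h3
    rw [h2] at h3
    exact h3

/-- run `c` on `x` for `n` steps and read off the result -/
def runT (c x : T) (n : ℕ) : Option T :=
  let y := stepT^[n] ([c], [code x])
  bif y.1.isEmpty then parse (y.2.headD []) else none

/-- the clocked function with program `c` and exponent `k` -/
def clocked (c : T) (k : ℕ) (x : T) : Option T := runT c x ((size x + 2) ^ k)

theorem clocked_of_rz {α β : Type} [Enc α] [Enc β] {f : α → β} {c : Cmd} {k : ℕ}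
    (h : Rz c (fun n => (n + 2) ^ k) f) (a : α) :
    clocked (encC c) k (enc a) = some (enc (f a)) := by
  obtain ⟨t, ht, h1⟩ := h a (toStk [code (enc a)]) [] (by simp [toStk])
  have h2 := step_iter_of_exec h1 ((size (enc a) + 2) ^ k) ht
  obtain ⟨h3, h4⟩ := stepT_iter ((size (enc a) + 2) ^ k) [c] [code (enc a)]
  rw [h2] at h3 h4
  simp only [List.map_cons, List.map_nil] at h3 h4
  show (bif (stepT^[(size (enc a) + 2) ^ k] ([encC c], [code (enc a)])).1.isEmpty then
    parse ((stepT^[(size (enc a) + 2) ^ k] ([encC c], [code (enc a)])).2.headD []) else none) = _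
  rw [h3]
  simp only [List.isEmpty_nil, cond_true]
  have h5 : (stepT^[(size (enc a) + 2) ^ k] ([encC c], [code (enc a)])).2.headD []
      = toStk (stepT^[(size (enc a) + 2) ^ k] ([encC c], [code (enc a)])).2 0 := by
    cases (stepT^[(size (enc a) + 2) ^ k] ([encC c], [code (enc a)])).2 <;> rfl
  rw [h5, h4]
  simp only [update_self, List.append_nil]
  have := parse_code (enc (f a)) []
  simpa using this

/-! ### sizes -/

theorem sz_setS (S : List (List ℕ)) (k : ℕ) (v : List ℕ) :
    sz (setS S k v) ≤ sz S + 2 * k + sz v + 3 := by
  unfold setS
  have h1 := sz_list_append (S.take k ++ List.replicate (k - S.length) ([] : List ℕ))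
    (v :: S.drop (k + 1))
  have h2 := sz_list_append (S.take k) (List.replicate (k - S.length) ([] : List ℕ))
  have h3 := sz_list_le (List.replicate (k - S.length) ([] : List ℕ)) 1 (by
    intro a ha
    rw [(List.mem_replicate.1 ha).2, sz_nil])
  rw [List.length_replicate] at h3
  have h4 : sz (v :: S.drop (k + 1)) = sz v + sz (S.drop (k + 1)) + 1 := rfl
  have h5 : sz (S.take k) + sz (S.drop (k + 1)) ≤ sz S + 1 := by
    have e := sz_list_append (S.take k) (S.drop k)
    rw [List.take_append_drop] at e
    have : sz (S.drop (k + 1)) ≤ sz (S.drop k) := by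
      rw [← List.drop_drop]
      exact sz_sublist_le (List.drop_sublist _ _)
    omega
  omega

theorem sz_getD_le (S : List (List ℕ)) (k : ℕ) : sz (S.getD k []) ≤ sz S := by
  by_cases h : k < S.length
  · rw [List.getD_eq_getElem _ _ h]
    exact (sz_mem_lt (List.getElem_mem h)).le
  · rw [List.getD_eq_default _ _ (by omega)]
    rw [sz_nil]; exact sz_pos S

theorem sz_setS_getD (S : List (List ℕ)) (k : ℕ) (v : List ℕ) (d : ℕ)
    (hv : sz v ≤ sz (S.getD k []) + d) :
    sz (setS S k v) ≤ sz S + 2 * k + d + 4 := by
  unfold setS
  have h1 := sz_list_append (S.take k ++ List.replicate (k - S.length) ([] : List ℕ))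
    (v :: S.drop (k + 1))
  have h2 := sz_list_append (S.take k) (List.replicate (k - S.length) ([] : List ℕ))
  have h3 := sz_list_le (List.replicate (k - S.length) ([] : List ℕ)) 1 (by
    intro a ha
    rw [(List.mem_replicate.1 ha).2, sz_nil])
  rw [List.length_replicate] at h3
  have h4 : sz (v :: S.drop (k + 1)) = sz v + sz (S.drop (k + 1)) + 1 := rfl
  by_cases h : k < S.length
  · have e1 : S.drop k = S.getD k [] :: S.drop (k + 1) := by
      rw [List.getD_eq_getElem _ _ h]
      exact List.drop_eq_getElem_cons h
    have e := sz_list_append (S.take k) (S.drop k)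
    rw [List.take_append_drop, e1, sz_cons] at e
    omega
  · have e1 : S.getD k [] = [] := List.getD_eq_default _ _ (by omega)
    rw [e1, sz_nil] at hv
    have e2 : S.drop (k + 1) = [] := List.drop_eq_nil_of_le (by omega)
    have e3 : sz (S.take k) ≤ sz S := sz_sublist_le (List.take_sublist _ _)
    have e4 : sz (S.drop (k + 1)) = 1 := by rw [e2, sz_nil]
    omega

theorem natOf_le (t : T) : 2 * natOf t ≤ size t := by
  unfold natOf
  induction t with
  | L => simp [T.spine]
  | N a b _ ih =>
    have := size_pos a
    simp only [T.spine, List.length_cons, size]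
    omega

theorem size_fstD (t : T) : size t.fstD ≤ size t := by
  cases t with
  | L => exact le_rfl
  | N a b => simp [T.fstD, size]; omega

theorem size_sndD (t : T) : size t.sndD ≤ size t := by
  cases t with
  | L => exact le_rfl
  | N a b => simp [T.sndD, size]; omega

theorem sz_tail_le {α : Type} [Enc α] (l : List α) : sz l.tail ≤ sz l := by
  cases l with
  | nil => exact le_rfl
  | cons a l => rw [sz_cons]; simp; omega

theorem sz_T (t : T) : sz t = size t := rfl

/-- the invariant bounding sizes -/
theorem stepT_bound (m : ℕ) (x : List T × List (List ℕ)) (hx : ∀ c ∈ x.1, size c ≤ m) :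
    (∀ c ∈ (stepT x).1, size c ≤ m) ∧ (stepT x).1.length ≤ x.1.length + 1 ∧
      sz (stepT x).2 ≤ sz x.2 + 3 * m + 10 := by
  obtain ⟨K, S⟩ := x
  cases K with
  | nil => simp [stepT]; omega
  | cons c K =>
    have hc : size c ≤ m := hx c List.mem_cons_self
    have hK : ∀ d ∈ K, size d ≤ m := fun d hd => hx d (List.mem_cons_of_mem _ hd)
    have hp : size c.sndD.sndD.sndD.fstD ≤ m :=
      (size_fstD _).trans ((size_sndD _).trans ((size_sndD _).trans ((size_sndD _).trans hc)))
    have hq : size c.sndD.sndD.sndD.sndD ≤ m :=
      (size_sndD _).trans ((size_sndD _).trans ((size_sndD _).trans ((size_sndD _).trans hc)))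
    have hk : 2 * natOf c.sndD.fstD ≤ m :=
      (natOf_le _).trans ((size_fstD _).trans ((size_sndD _).trans hc))
    have ha : 2 * natOf c.sndD.sndD.fstD ≤ m :=
      (natOf_le _).trans ((size_fstD _).trans ((size_sndD _).trans ((size_sndD _).trans hc)))
    simp only [stepT, List.isEmpty_cons, cond_false, List.headD_cons, List.tail_cons]
    by_cases h0 : natOf c.fstD = 0
    · simp only [h0, decide_true, cond_true]
      refine ⟨hK, by simp; omega, ?_⟩
      have := sz_setS_getD S (natOf c.sndD.fstD) (natOf c.sndD.sndD.fstD ::
        S.getD (natOf c.sndD.fstD) []) (m + 2) (by rw [sz_cons, sz_nat]; omega)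
      omega
    · simp only [h0, decide_false, cond_false]
      by_cases h1 : natOf c.fstD = 1
      · simp only [h1, decide_true, cond_true]
        refine ⟨hK, by simp; omega, ?_⟩
        have := sz_setS_getD S (natOf c.sndD.fstD) 
          (S.getD (natOf c.sndD.fstD) []).tail 0 (by
            have := sz_tail_le (S.getD (natOf c.sndD.fstD) []); omega)
        omega
      · simp only [h1, decide_false, cond_false]
        by_cases h2 : natOf c.fstD = 2
        · simp only [h2, decide_true, cond_true]
          refine ⟨?_, by simp, by omega⟩
          intro d hd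
          simp only [List.mem_cons] at hd
          rcases hd with rfl | rfl | hd
          · exact hp
          · exact hq
          · exact hK d hd
        · simp only [h2, decide_false, cond_false]
          by_cases h3 : natOf c.fstD = 3
          · simp only [h3, decide_true, cond_true]
            by_cases h4 : (S.getD (natOf c.sndD.fstD) []).head? = some (natOf c.sndD.sndD.fstD)
            · simp only [h4, decide_true, cond_true]
              refine ⟨?_, by simp, by omega⟩
              intro d hd
              simp only [List.mem_cons] at hd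
              rcases hd with rfl | hd
              · exact hp
              · exact hK d hd
            · simp only [h4, decide_false, cond_false]
              refine ⟨?_, by simp, by omega⟩
              intro d hd
              simp only [List.mem_cons] at hd
              rcases hd with rfl | hd
              · exact hq
              · exact hK d hd
          · simp only [h3, decide_false, cond_false]
            by_cases h4 : (S.getD (natOf c.sndD.fstD) []).head? = some (natOf c.sndD.sndD.fstD)
            · simp only [h4, decide_true, cond_true]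
              exact ⟨hK, by simp; omega, by omega⟩
            · simp only [h4, decide_false, cond_false]
              refine ⟨?_, by simp, by omega⟩
              intro d hd
              simp only [List.mem_cons] at hd
              rcases hd with rfl | rfl | hd
              · exact hp
              · exact hc
              · exact hK d hd

theorem stepT_iter_bound (m : ℕ) (x : List T × List (List ℕ)) (hx : ∀ c ∈ x.1, size c ≤ m)
    (n : ℕ) :
    (∀ c ∈ (stepT^[n] x).1, size c ≤ m) ∧ (stepT^[n] x).1.length ≤ x.1.length + n ∧
      sz (stepT^[n] x).2 ≤ sz x.2 + n * (3 * m + 10) := by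
  induction n with
  | zero => simpa using hx
  | succ n ih =>
    obtain ⟨h1, h2, h3⟩ := ih
    obtain ⟨h4, h5, h6⟩ := stepT_bound m _ h1
    rw [iterate_succ_apply']
    refine ⟨h4, by omega, ?_⟩
    rw [Nat.succ_mul]
    omega

section
variable {α : Type} [Enc α]

@[fun_prop]
theorem Poly.setS {f : α → List (List ℕ)} {g : α → ℕ} {h : α → List ℕ} (hf : Poly f)
    (hg : Poly g) (hh : Poly h) : Poly (fun a => setS (f a) (g a) (h a)) := by
  unfold Helper96.setS; fun_prop

theorem Poly.stepT₀ : Poly stepT := by
  have hc : Poly (fun x : List T × List (List ℕ) => x.1.headD L) := by fun_prop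
  have hK : Poly (fun x : List T × List (List ℕ) => x.1.tail) := by fun_prop
  have htag : Poly (fun x : List T × List (List ℕ) => Helper96.natOf (x.1.headD L).fstD) := by
    fun_prop
  have hk : Poly (fun x : List T × List (List ℕ) => Helper96.natOf (x.1.headD L).sndD.fstD) := by
    fun_prop
  have ha : Poly (fun x : List T × List (List ℕ) =>
    Helper96.natOf (x.1.headD L).sndD.sndD.fstD) := by fun_prop
  have hp : Poly (fun x : List T × List (List ℕ) => (x.1.headD L).sndD.sndD.sndD.fstD) := by
    fun_prop
  have hq : Poly (fun x : List T × List (List ℕ) => (x.1.headD L).sndD.sndD.sndD.sndD) := by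
    fun_prop
  have hst : Poly (fun x : List T × List (List ℕ) =>
    x.2.getD (Helper96.natOf (x.1.headD L).sndD.fstD) []) :=
    Poly.listGetD hk (by fun_prop) (by fun_prop)
  have hS : Poly (fun x : List T × List (List ℕ) => x.2) := by fun_prop
  have hid : Poly (fun x : List T × List (List ℕ) => x) := Poly.id'
  have hhd := Poly.decide_eq (Poly.head? hst) (Poly.some' ha)
  unfold Helper96.stepT
  refine Poly.cond (Poly.isEmpty (by fun_prop)) hid ?_
  refine Poly.cond (Poly.decide_eq htag (Poly.const _))
    (Poly.prodMk hK (Poly.setS hS hk (Poly.cons ha hst))) ?_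
  refine Poly.cond (Poly.decide_eq htag (Poly.const _))
    (Poly.prodMk hK (Poly.setS hS hk (Poly.tail hst))) ?_
  refine Poly.cond (Poly.decide_eq htag (Poly.const _))
    (Poly.prodMk (Poly.cons hp (Poly.cons hq hK)) hS) ?_
  refine Poly.cond (Poly.decide_eq htag (Poly.const _)) ?_ ?_
  · exact Poly.cond hhd (Poly.prodMk (Poly.cons hp hK) hS) (Poly.prodMk (Poly.cons hq hK) hS)
  · exact Poly.cond hhd (Poly.prodMk hK hS) (Poly.prodMk (Poly.cons hp (Poly.cons hc hK)) hS)

@[fun_prop]
theorem Poly.runT {f g : α → T} {n : α → ℕ} (hf : Poly f) (hg : Poly g) (hn : Poly n) :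
    Poly (fun a => runT (f a) (g a) (n a)) := by
  obtain ⟨B1, hB1, _, hs1⟩ := hf.szPB
  have hstart : Poly (fun a => (([T.code (g a)] : List (List ℕ)))) := by fun_prop
  obtain ⟨B2, hB2, _, hs2⟩ := hstart.szPB
  obtain ⟨B3, hB3, _, hs3⟩ := hn.szPB
  have h := Poly.iterate (n := n) (g := fun a => ([f a], [T.code (g a)]))
    (h := fun _ x => stepT x) hn (by fun_prop)
    (Poly.comp (g := stepT) (f := fun q : α × (List T × List (List ℕ)) => q.2) Poly.stepT₀
      (by fun_prop))
    (fun m => ((1 + B3 m) * (B1 m + 1) + 1) + (B2 m + B3 m * (3 * B1 m + 10)) + 1)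
    (by fun_prop) (by
      intro a i hi
      have hx : ∀ c ∈ ([f a], [T.code (g a)]).1, T.size c ≤ B1 (sz a) := by
        intro c hc
        simp only [List.mem_singleton] at hc
        subst hc
        exact hs1 a
      obtain ⟨h1, h2, h3⟩ := stepT_iter_bound (B1 (sz a)) ([f a], [T.code (g a)]) hx i
      set y := stepT^[i] ([f a], [T.code (g a)]) with hy
      have e : sz y = sz y.1 + sz y.2 + 1 := rfl
      have h4 := sz_list_le y.1 (B1 (sz a)) (fun c hc => h1 c hc)
      have h5 : i ≤ B3 (sz a) := by
        have := hs3 a
        rw [sz_nat] at this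
        omega
      have h6 : y.1.length * (B1 (sz a) + 1) ≤ (1 + B3 (sz a)) * (B1 (sz a) + 1) :=
        Nat.mul_le_mul_right _ (h2.trans (by simp; omega))
      have h7 : i * (3 * B1 (sz a) + 10) ≤ B3 (sz a) * (3 * B1 (sz a) + 10) :=
        Nat.mul_le_mul_right _ h5
      have h8 := hs2 a
      beta_reduce
      rw [e]
      simp only at h3
      omega)
  unfold Helper96.runT
  refine Poly.cond (Poly.isEmpty (Poly.fst h)) ?_ (by fun_prop)
  exact Poly.parse (Poly.headD (Poly.snd h) (by fun_prop))

/-- for a fixed exponent the clocked functions are polynomial time, uniformly in the program -/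
@[fun_prop]
theorem Poly.clocked {f g : α → T} (hf : Poly f) (hg : Poly g) (k : ℕ) :
    Poly (fun a => clocked (f a) k (g a)) := by
  unfold Helper96.clocked; fun_prop

/-- truncated powers: `min (b ^ k) (m + 1)` -/
def powCut (b k m : ℕ) : ℕ := (fun acc => min (acc * b) (m + 1))^[k] 1

theorem powCut_eq (b k m : ℕ) (hb : 1 ≤ b) : powCut b k m = min (b ^ k) (m + 1) := by
  unfold powCut
  induction k with
  | zero => simp
  | succ k ih =>
    rw [iterate_succ_apply', ih, pow_succ]
    rcases Nat.le_total (b ^ k) (m + 1) with h | h
    · rw [min_eq_left h]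
    · rw [min_eq_right h]
      have h1 : m + 1 ≤ (m + 1) * b := Nat.le_mul_of_pos_right _ hb
      have h2 : m + 1 ≤ b ^ k * b := h.trans (Nat.le_mul_of_pos_right _ hb)
      rw [min_eq_right h1, min_eq_right h2]

@[fun_prop]
theorem Poly.powCut {b k m : α → ℕ} (hb : Poly b) (hk : Poly k) (hm : Poly m) :
    Poly (fun a => powCut (b a) (k a) (m a)) := by
  obtain ⟨B, hB, _, hs⟩ := hm.szPB
  unfold Helper96.powCut
  refine Poly.iterate (n := k) (g := fun _ => 1)
    (h := fun a acc => Min.min (acc * b a) (m a + 1)) hk (by fun_prop) (by fun_prop)
    (fun n => 2 * B n + 5) (by fun_prop) ?_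
  intro a i _
  rw [sz_nat]
  have h1 := hs a
  rw [sz_nat] at h1
  have h2 : (fun acc => Min.min (acc * b a) (m a + 1))^[i] 1 ≤ m a + 1 := by
    cases i with
    | zero => simp
    | succ i => rw [iterate_succ_apply']; exact min_le_right _ _
  beta_reduce
  omega

/-- the clocked function with budget `m`: `none` if the budget is insufficient -/
def clockedB (c : T) (k : ℕ) (x : T) (m : ℕ) : Option (Option T) :=
  bif decide (powCut (size x + 2) k m ≤ m) then some (runT c x (powCut (size x + 2) k m)) else none

theorem clockedB_eq (c : T) (k : ℕ) (x : T) (m : ℕ) :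
    clockedB c k x m = if (size x + 2) ^ k ≤ m then some (clocked c k x) else none := by
  unfold clockedB clocked
  rw [powCut_eq _ _ _ (by omega)]
  by_cases h : (size x + 2) ^ k ≤ m
  · rw [min_eq_left (by omega)]
    simp [h]
  · rw [min_eq_right (by omega)]
    simp [h]

@[fun_prop]
theorem Poly.clockedB {c : α → T} {k : α → ℕ} {x : α → T} {m : α → ℕ} (hc : Poly c) (hk : Poly k)
    (hx : Poly x) (hm : Poly m) : Poly (fun a => clockedB (c a) (k a) (x a) (m a)) := by
  unfold Helper96.clockedB
  refine Poly.cond (Poly.decide_le ?_ hm) (Poly.some' ?_) (by fun_prop)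
  · fun_prop
  · fun_prop

end

end Pool.Agent.Helper96
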