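import Mathlib
import Pool.Agent.Helper26.Maz.Defs

/-!
# Basic lemmas on holonomies (module MAZ-GEN)
-/

set_option autoImplicit false

namespace Pool.Agent.Helper26.Maz

section general

variable {X : Type*} [TopologicalSpace X] {Y : Type*} [TopologicalSpace Y] {Γ : Type*} [Group Γ]

theorem HolOn.hol_congr {S : Set X} (H : HolOn S Γ) {x y x' y' : X} (γ : Path x y)
    (γ' : Path x' y') (h : ∀ t, γ t = γ' t) : H.hol γ = H.hol γ' := by
  have hx : x = x' := by
    have := h 0
    simpa using this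
  have hy : y = y' := by
    have := h 1
    simpa using this
  subst hx
  subst hy
  have : γ = γ' := by
    ext t
    exact h t
  rw [this]

/-- Paths in a simply connected space mapped to the set. -/
theorem HolOn.hol_map_eq {S : Set X} (H : HolOn S Γ) {Z : Type*} [TopologicalSpace Z]
    [SimplyConnectedSpace Z] (f : C(Z, X)) (hf : ∀ z, f z ∈ S) {a b : Z} (σ τ : Path a b) :
    H.hol (σ.map f.continuous) = H.hol (τ.map f.continuous) := by
  obtain ⟨F⟩ := SimplyConnectedSpace.paths_homotopic σ τ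
  exact H.homot _ _ (F.map f) (fun p => hf (F p))

instance contractibleI : ContractibleSpace unitInterval :=
  (convex_Icc (0 : ℝ) 1).contractibleSpace ⟨0, by simp⟩

theorem HolOn.hol_refl {S : Set X} (H : HolOn S Γ) {x : X} (hx : x ∈ S) :
    H.hol (Path.refl x) = 1 := by
  have h := H.trans (Path.refl x) (Path.refl x) (fun _ => hx) (fun _ => hx)
  rw [Path.refl_trans_refl] at h
  exact left_eq_mul.1 h

theorem HolOn.hol_symm {S : Set X} (H : HolOn S Γ) {x y : X} (γ : Path x y)
    (hγ : ∀ t, γ t ∈ S) : H.hol γ.symm = (H.hol γ)⁻¹ := by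
  have h1 : H.hol (γ.trans γ.symm) = H.hol γ * H.hol γ.symm :=
    H.trans γ γ.symm hγ (fun t => hγ _)
  let id' : Path (0 : unitInterval) 1 := ⟨ContinuousMap.id _, rfl, rfl⟩
  have h2 : H.hol (γ.trans γ.symm) = H.hol ((id'.trans id'.symm).map γ.continuous) := by
    apply H.hol_congr
    intro t
    rw [Path.map_trans]
    rfl
  have h3 : H.hol ((id'.trans id'.symm).map γ.continuous)
      = H.hol ((Path.refl (0 : unitInterval)).map γ.continuous) :=
    H.hol_map_eq ⟨γ, γ.continuous⟩ hγ _ _
  have h4 : H.hol ((Path.refl (0 : unitInterval)).map γ.continuous) = H.hol (Path.refl x) := by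
    apply H.hol_congr
    intro t
    simp
  have hx : x ∈ S := by
    have := hγ 0
    simpa using this
  rw [h3, h4, H.hol_refl hx, h1] at h2
  exact (eq_inv_of_mul_eq_one_right h2)

/-- The holonomy of a subpath. -/
theorem HolOn.hol_subpath {S : Set X} (H : HolOn S Γ) {x y : X} (γ : Path x y)
    (hγ : ∀ t, γ t ∈ S) (a b c : unitInterval) :
    H.hol (γ.subpath a c) = H.hol (γ.subpath a b) * H.hol (γ.subpath b c) := by
  rw [← H.trans (γ.subpath a b) (γ.subpath b c) (fun t => hγ _) (fun t => hγ _)]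
  let seg : ∀ a b : unitInterval, Path a b := fun a b =>
    { toFun := Set.Icc.convexComb a b
      continuous_toFun := by fun_prop
      source' := by simp
      target' := by simp }
  have h := H.hol_map_eq ⟨γ, γ.continuous⟩ hγ (seg a c) ((seg a b).trans (seg b c))
  rw [H.hol_congr (γ.subpath a c) ((seg a c).map γ.continuous) (fun t => rfl)]
  refine h.trans ?_
  apply H.hol_congr
  intro t
  rw [Path.map_trans]
  rfl

theorem HolOn.hol_subpath_zero_one {S : Set X} (H : HolOn S Γ) {x y : X} (γ : Path x y) :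
    H.hol (γ.subpath 0 1) = H.hol γ := by
  apply H.hol_congr
  intro t
  rw [Path.subpath_zero_one]
  rfl

/-- Two holonomies which agree locally agree. -/
theorem HolOn.ext_local {ι : Type*} {S : Set X} (H H' : HolOn S Γ) (O : ι → Set X)
    (hO : ∀ i, IsOpen (O i)) (hS : S ⊆ ⋃ i, O i)
    (h : ∀ i {x y : X} (γ : Path x y), (∀ t, γ t ∈ O i ∩ S) → H.hol γ = H'.hol γ)
    {x y : X} (γ : Path x y) (hγ : ∀ t, γ t ∈ S) : H.hol γ = H'.hol γ := by
  obtain ⟨t, h0, hmono, ⟨n, hn⟩, ht⟩ := exists_monotone_Icc_subset_open_cover_unitInterval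
    (c := fun i => γ ⁻¹' O i) (fun i => (hO i).preimage γ.continuous) (by
      intro s _
      have := hS (hγ s)
      simpa using this)
  have key : ∀ m, H.hol (γ.subpath 0 (t m)) = H'.hol (γ.subpath 0 (t m)) := by
    intro m
    induction m with
    | zero =>
      rw [h0]
      have e1 := H.hol_congr (γ.subpath 0 0) (Path.refl x) (by intro s; simp)
      have e2 := H'.hol_congr (γ.subpath 0 0) (Path.refl x) (by intro s; simp)
      have hx : x ∈ S := by
        have := hγ 0
        simpa using this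
      rw [e1, e2, H.hol_refl hx, H'.hol_refl hx]
    | succ m ih =>
      rw [H.hol_subpath γ hγ 0 (t m) (t (m + 1)), H'.hol_subpath γ hγ 0 (t m) (t (m + 1)), ih]
      congr 1
      obtain ⟨i, hi⟩ := ht m
      apply h i
      intro s
      refine ⟨?_, hγ _⟩
      have hs : γ.subpath (t m) (t (m + 1)) s ∈ Set.range (γ.subpath (t m) (t (m + 1))) :=
        Set.mem_range_self s
      rw [Path.range_subpath_of_le _ _ _ (hmono (Nat.le_succ m))] at hs
      obtain ⟨r, hr, hr'⟩ := hs
      rw [← hr']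
      exact hi hr
  have := key n
  rw [hn n le_rfl, H.hol_subpath_zero_one, H'.hol_subpath_zero_one] at this
  exact this

/-- A potential which works locally works globally. -/
theorem HolOn.of_local {ι : Type*} {S : Set X} (H : HolOn S Γ) (O : ι → Set X)
    (hO : ∀ i, IsOpen (O i)) (hS : S ⊆ ⋃ i, O i) (p : X → Γ)
    (h : ∀ i {x y : X} (γ : Path x y), (∀ t, γ t ∈ O i ∩ S) → H.hol γ = (p x)⁻¹ * p y)
    {x y : X} (γ : Path x y) (hγ : ∀ t, γ t ∈ S) : H.hol γ = (p x)⁻¹ * p y := by
  let H' : HolOn S Γ :=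
    { hol := fun {x y} _ => (p x)⁻¹ * p y
      trans := by
        intro x y z γ δ _ _
        group
      homot := by
        intro x y γ γ' _ _
        rfl }
  exact HolOn.ext_local H H' O hO hS (fun i {x y} γ hγ => h i γ hγ) γ hγ

theorem HolOn.triv_of_two {S : Set X} (H : HolOn S Γ) (O₁ O₂ : Set X) (h₁ : IsOpen O₁)
    (h₂ : IsOpen O₂) (hS : S ⊆ O₁ ∪ O₂) (t₁ : (H.restrict (Set.inter_subset_right : O₁ ∩ S ⊆ S)).Triv)
    (t₂ : (H.restrict (Set.inter_subset_right : O₂ ∩ S ⊆ S)).Triv)
    (hc : IsPathConnected (O₁ ∩ O₂ ∩ S)) : H.Triv := by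
  classical
  obtain ⟨p1, hp1⟩ := t₁
  obtain ⟨p2, hp2⟩ := t₂
  obtain ⟨z, hz, hzp⟩ := hc
  have hp1' : ∀ {x y : X} (γ : Path x y), (∀ t, γ t ∈ O₁ ∩ S) → H.hol γ = (p1 x)⁻¹ * p1 y :=
    fun γ hγ => hp1 γ hγ
  have hp2' : ∀ {x y : X} (γ : Path x y), (∀ t, γ t ∈ O₂ ∩ S) → H.hol γ = (p2 x)⁻¹ * p2 y :=
    fun γ hγ => hp2 γ hγ
  have hc' : ∀ x ∈ O₁ ∩ O₂ ∩ S, p1 x = p1 z * (p2 z)⁻¹ * p2 x := by
    intro x hx
    obtain ⟨γ, hγ⟩ := hzp hx
    have e1 := hp1' γ (fun t => ⟨(hγ t).1.1, (hγ t).2⟩)
    have e2 := hp2' γ (fun t => ⟨(hγ t).1.2, (hγ t).2⟩)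
    rw [e1] at e2
    rw [mul_assoc, ← e2]
    group
  refine ⟨fun x => if x ∈ O₁ then p1 x else p1 z * (p2 z)⁻¹ * p2 x, ?_⟩
  intro x y γ hγ
  refine H.of_local (ι := Bool) (fun b => if b then O₁ else O₂) ?_ ?_
    (fun x => if x ∈ O₁ then p1 x else p1 z * (p2 z)⁻¹ * p2 x) ?_ γ hγ
  · intro b
    cases b
    · simpa using h₂
    · simpa using h₁
  · intro x hx
    rcases hS hx with hx | hx
    · exact Set.mem_iUnion.2 ⟨true, by simpa using hx⟩
    · exact Set.mem_iUnion.2 ⟨false, by simpa using hx⟩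
  · intro b x y γ hγ
    have hx0 := hγ 0
    have hy0 := hγ 1
    simp only [Path.source, Path.target] at hx0 hy0
    cases b
    · simp only [Bool.false_eq_true, if_false] at hγ hx0 hy0
      have e : ∀ w ∈ O₂ ∩ S, (if w ∈ O₁ then p1 w else p1 z * (p2 z)⁻¹ * p2 w)
          = p1 z * (p2 z)⁻¹ * p2 w := by
        intro w hw
        split_ifs with hw1
        · exact hc' w ⟨⟨hw1, hw.1⟩, hw.2⟩
        · rfl
      rw [e x hx0, e y hy0, hp2' γ hγ]
      group
    · simp only [if_true] at hγ hx0 hy0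
      rw [if_pos hx0.1, if_pos hy0.1, hp1' γ hγ]

/-- The lift of a path to a subset. -/
def liftP {S : Set X} {x y : X} (γ : Path x y) (h : ∀ t, γ t ∈ S) :
    Path (⟨x, by simpa using h 0⟩ : S) (⟨y, by simpa using h 1⟩ : S) where
  toFun t := ⟨γ t, h t⟩
  continuous_toFun := by fun_prop
  source' := by
    apply Subtype.ext
    simp
  target' := by
    apply Subtype.ext
    simp

/-- pull back -/
theorem HolOn.exists_pull {S : Set X} {T : Set Y} (f : X → Y) (hf : ContinuousOn f S)
    (hm : Set.MapsTo f S T) (H : HolOn T Γ) :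
    ∃ H' : HolOn S Γ, ∀ {x y : X} (γ : Path x y) (_ : ∀ t, γ t ∈ S)
      (γ' : Path (f x) (f y)), (∀ t, γ' t = f (γ t)) → H'.hol γ = H.hol γ' := by
  classical
  let fS : C(S, Y) := ⟨S.domRestrict f, hf.domRestrict⟩
  refine ⟨{ hol := fun {x y} γ => if h : ∀ t, γ t ∈ S then H.hol ((liftP γ h).map fS.continuous)
              else 1
            trans := ?_
            homot := ?_ }, ?_⟩
  · intro x y z γ δ hγ hδ
    have hγδ : ∀ t, (γ.trans δ) t ∈ S := by
      intro t
      rw [Path.trans_apply]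
      split_ifs
      · exact hγ _
      · exact hδ _
    rw [dif_pos hγδ, dif_pos hγ, dif_pos hδ, ← H.trans]
    · apply H.hol_congr
      intro t
      simp only [Path.map_coe, Function.comp_apply, Path.trans_apply]
      simp only [fS, ContinuousMap.coe_mk, liftP, Path.coe_mk', Path.trans_apply]
      split_ifs <;> rfl
    · intro t
      exact hm (hγ t)
    · intro t
      exact hm (hδ t)
  · intro x y γ γ' F hF
    have hγ : ∀ t, γ t ∈ S := by
      intro t
      have := hF (0, t)
      simpa using this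
    have hγ' : ∀ t, γ' t ∈ S := by
      intro t
      have := hF (1, t)
      simpa using this
    rw [dif_pos hγ, dif_pos hγ']
    let G : Path.Homotopy (liftP γ hγ) (liftP γ' hγ') :=
      { toFun := fun p => ⟨F p, hF p⟩
        continuous_toFun := by fun_prop
        map_zero_left := by
          intro t
          apply Subtype.ext
          simp [liftP]
        map_one_left := by
          intro t
          apply Subtype.ext
          simp [liftP]
        prop' := by
          intro s t ht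
          apply Subtype.ext
          have := F.prop' s t ht
          simpa [liftP] using this }
    exact H.homot _ _ (G.map fS) (fun p => hm (G p).2)
  · intro x y γ hγ γ' h
    have e : (if h : ∀ t, γ t ∈ S then H.hol ((liftP γ h).map fS.continuous) else 1)
        = H.hol ((liftP γ hγ).map fS.continuous) := dif_pos hγ
    refine e.trans ?_
    apply H.hol_congr
    intro t
    rw [h t]
    rfl

/-- Paths in a set homeomorphic to a convex set. -/
theorem HolOn.hol_eq_of_chart {S : Set X} (H : HolOn S Γ) {U : Set X} (hU : U ⊆ S)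
    {E : Type*} [NormedAddCommGroup E] [NormedSpace ℝ E] {C : Set E} (hC : Convex ℝ C)
    (e : U ≃ₜ C) {x y : X} (γ γ' : Path x y) (hγ : ∀ t, γ t ∈ U) (hγ' : ∀ t, γ' t ∈ U) :
    H.hol γ = H.hol γ' := by
  have hx : x ∈ U := by simpa using hγ 0
  have : ContractibleSpace C := hC.contractibleSpace ⟨_, (e ⟨x, hx⟩).2⟩
  have : ContractibleSpace U := e.contractibleSpace
  have h := H.hol_map_eq (Z := U) ⟨Subtype.val, continuous_subtype_val⟩ (fun z => hU z.2)
    (liftP γ hγ) (liftP γ' hγ')
  rw [H.hol_congr γ ((liftP γ hγ).map continuous_subtype_val) (fun t => rfl),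
    H.hol_congr γ' ((liftP γ' hγ').map continuous_subtype_val) (fun t => rfl)]
  exact h

/-- Freely homotopic loops. -/
theorem HolOn.loop_conj {S : Set X} (H : HolOn S Γ) (ℓ ℓ' : C(C26, X))
    (G : C26 × unitInterval → X) (hG : Continuous G) (h0 : ∀ t, G (t, 0) = ℓ t)
    (h1 : ∀ t, G (t, 1) = ℓ' t) (hS : ∀ p, G p ∈ S) :
    ∃ u : Γ, H.loop ℓ' = u⁻¹ * H.loop ℓ * u := by
  let Q : C(unitInterval × unitInterval, X) :=
    ⟨fun p => G (((26 * (p.1 : ℝ) : ℝ) : C26), p.2), by fun_prop⟩
  let idp : Path (0 : unitInterval) 1 := ⟨ContinuousMap.id _, rfl, rfl⟩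
  let b : Path ((0, 0) : unitInterval × unitInterval) (1, 0) := idp.prod (Path.refl 0)
  let r : Path ((1, 0) : unitInterval × unitInterval) (1, 1) := (Path.refl 1).prod idp
  let l : Path ((0, 0) : unitInterval × unitInterval) (0, 1) := (Path.refl 0).prod idp
  let tp : Path ((0, 1) : unitInterval × unitInterval) (1, 1) := idp.prod (Path.refl 1)
  have hQ : ∀ z, Q z ∈ S := fun z => hS _
  have key := H.hol_map_eq Q hQ (b.trans r) (l.trans tp)
  rw [Path.map_trans, Path.map_trans, H.trans _ _ (fun t => hQ _) (fun t => hQ _),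
    H.trans _ _ (fun t => hQ _) (fun t => hQ _)] at key
  have hb : H.hol (b.map Q.continuous) = H.loop ℓ := by
    apply H.hol_congr
    intro t
    exact h0 _
  have ht : H.hol (tp.map Q.continuous) = H.loop ℓ' := by
    apply H.hol_congr
    intro t
    exact h1 _
  have hrl : H.hol (r.map Q.continuous) = H.hol (l.map Q.continuous) := by
    apply H.hol_congr
    intro t
    show G (((26 * ((1 : unitInterval) : ℝ) : ℝ) : C26), t)
      = G (((26 * ((0 : unitInterval) : ℝ) : ℝ) : C26), t)
    have h26 : ((26 : ℝ) : C26) = 0 := AddCircle.coe_period 26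
    simp [h26]
  rw [hb, ht, hrl] at key
  refine ⟨H.hol (l.map Q.continuous), ?_⟩
  rw [mul_assoc, key]
  group

end general

end Pool.Agent.Helper26.Maz
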