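import Pool.Agent.Helper96.Poly

/-!
# A library of polynomial time functions on booleans, numbers and lists
-/

set_option autoImplicit false
set_option linter.all false

namespace Pool.Agent.Helper96

open T

section
variable {α β γ δ ε : Type} [Enc α] [Enc β] [Enc γ] [Enc δ] [Enc ε]

/-- folding, with an explicit bound -/
theorem Poly.foldl' {f : α → List β} {g : α → γ} {h : α → γ → β → γ} (hf : Poly f)
    (hg : Poly g) (hh : Poly (fun q : (α × β) × γ => h q.1.1 q.2 q.1.2)) (B : ℕ → ℕ)
    (hB : IsPB B) (hb : ∀ a l', l' <+: f a → sz (l'.foldl (h a) (g a)) ≤ B (sz a)) :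
    Poly (fun a => (f a).foldl (h a) (g a)) := by
  obtain ⟨k, hk⟩ := hB
  exact Poly.foldl hf hg hh ⟨k, fun a l' hl' => (hb a l' hl').trans (hk _)⟩

theorem Poly.szPB {f : α → β} (hf : Poly f) : ∃ B : ℕ → ℕ, IsPB B ∧ Monotone B ∧
    ∀ a, sz (f a) ≤ B (sz a) := by
  obtain ⟨k, hk⟩ := hf.sz_le
  exact ⟨fun n => (n + 2) ^ k, by fun_prop, monotone_pb k, hk⟩

/-! ### booleans -/

@[fun_prop]
theorem Poly.not {p : α → Bool} (hp : Poly p) : Poly (fun a => !(p a)) := by
  have : (fun a => !(p a)) = fun a => bif p a then false else true := by
    funext a; cases p a <;> rfl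
  rw [this]; fun_prop

@[fun_prop]
theorem Poly.and {p q : α → Bool} (hp : Poly p) (hq : Poly q) :
    Poly (fun a => p a && q a) := by
  have : (fun a => p a && q a) = fun a => bif p a then q a else false := by
    funext a; cases p a <;> rfl
  rw [this]; fun_prop

@[fun_prop]
theorem Poly.or {p q : α → Bool} (hp : Poly p) (hq : Poly q) :
    Poly (fun a => p a || q a) := by
  have : (fun a => p a || q a) = fun a => bif p a then true else q a := by
    funext a; cases p a <;> rfl
  rw [this]; fun_prop

@[fun_prop]
theorem Poly.ite_decide {p : α → Prop} [∀ a, Decidable (p a)] {f g : α → β}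
    (hp : Poly (fun a => decide (p a))) (hf : Poly f) (hg : Poly g) :
    Poly (fun a => if p a then f a else g a) := by
  have : (fun a => if p a then f a else g a) = fun a => bif decide (p a) then f a else g a := by
    funext a; by_cases h : p a <;> simp [h]
  rw [this]; fun_prop

theorem Poly.decide_congr {p q : α → Prop} {dp : ∀ a, Decidable (p a)}
    {dq : ∀ a, Decidable (q a)}
    (h : ∀ a, p a ↔ q a) (hp : Poly (fun a => @decide (p a) (dp a))) :
    Poly (fun a => @decide (q a) (dq a)) := by
  have : (fun a => @decide (q a) (dq a)) = fun a => @decide (p a) (dp a) := by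
    funext a
    by_cases hpa : p a
    · have := (h a).1 hpa
      simp [hpa, this]
    · have : ¬ q a := fun hq => hpa ((h a).2 hq)
      simp [hpa, this]
  rw [this]; exact hp

@[fun_prop]
theorem Poly.decide_and {p q : α → Prop} [∀ a, Decidable (p a)] [∀ a, Decidable (q a)]
    (hp : Poly (fun a => decide (p a))) (hq : Poly (fun a => decide (q a))) :
    Poly (fun a => decide (p a ∧ q a)) := by
  have : (fun a => decide (p a ∧ q a)) = fun a => decide (p a) && decide (q a) := by
    funext a; simp
  rw [this]; fun_prop

@[fun_prop]
theorem Poly.decide_or {p q : α → Prop} [∀ a, Decidable (p a)] [∀ a, Decidable (q a)]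
    (hp : Poly (fun a => decide (p a))) (hq : Poly (fun a => decide (q a))) :
    Poly (fun a => decide (p a ∨ q a)) := by
  have : (fun a => decide (p a ∨ q a)) = fun a => decide (p a) || decide (q a) := by
    funext a; simp
  rw [this]; fun_prop

@[fun_prop]
theorem Poly.decide_not {p : α → Prop} [∀ a, Decidable (p a)]
    (hp : Poly (fun a => decide (p a))) :
    Poly (fun a => decide (¬ p a)) := by
  have : (fun a => decide (¬ p a)) = fun a => !decide (p a) := by
    funext a; simp
  rw [this]; fun_prop

@[fun_prop]
theorem Poly.decide_bool {p : α → Bool} (hp : Poly p) :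
    Poly (fun a => decide (p a = true)) := by
  have : (fun a => decide (p a = true)) = p := by funext a; cases p a <;> rfl
  rw [this]; exact hp

/-! ### constructors and destructors -/

@[fun_prop]
theorem Poly.cons {f : α → β} {g : α → List β} (hf : Poly f) (hg : Poly g) :
    Poly (fun a => f a :: g a) := (hf.prodMk hg).recast fun a => rfl

theorem Poly.toTree (α : Type) [Enc α] : Poly (fun a : α => enc a) :=
  (Poly.id' (α := α)).recast fun a => rfl

@[fun_prop]
theorem Poly.tail {f : α → List β} (hf : Poly f) : Poly (fun a => (f a).tail) := by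
  have h : Poly (fun a => T.sndD (enc (f a))) := Poly.sndD₀.comp ((Poly.toTree _).comp hf)
  refine h.recast fun a => ?_
  cases f a <;> rfl

@[fun_prop]
theorem Poly.isEmpty {f : α → List β} (hf : Poly f) : Poly (fun a => (f a).isEmpty) := by
  have h : Poly (fun a => T.isL (enc (f a))) := Poly.isL₀.comp ((Poly.toTree _).comp hf)
  refine h.recast fun a => ?_
  cases f a <;> rfl

@[fun_prop]
theorem Poly.headD {f : α → List β} {g : α → β} (hf : Poly f) (hg : Poly g) :
    Poly (fun a => (f a).headD (g a)) := by
  have h : Poly (fun a => bif (f a).isEmpty then enc (g a) else T.fstD (enc (f a))) :=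
    (Poly.isEmpty hf).cond ((Poly.toTree _).comp hg) (Poly.fstD₀.comp ((Poly.toTree _).comp hf))
  refine h.recast fun a => ?_
  cases f a <;> rfl

@[fun_prop]
theorem Poly.head? {f : α → List β} (hf : Poly f) : Poly (fun a => (f a).head?) := by
  have h : Poly (fun a => bif (f a).isEmpty then L else N (T.fstD (enc (f a))) L) :=
    (Poly.isEmpty hf).cond (Poly.const L)
      ((Poly.prodMk (Poly.fstD₀.comp ((Poly.toTree _).comp hf)) (Poly.const L)).recast
        (fun a => rfl))
  refine h.recast fun a => ?_
  cases f a <;> rfl

@[fun_prop]
theorem Poly.some' {f : α → β} (hf : Poly f) : Poly (fun a => some (f a)) :=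
  (hf.prodMk (Poly.const ())).recast fun a => rfl

@[fun_prop]
theorem Poly.isSome {f : α → Option β} (hf : Poly f) : Poly (fun a => (f a).isSome) := by
  have h : Poly (fun a => !(T.isL (enc (f a)))) :=
    Poly.not (Poly.isL₀.comp ((Poly.toTree _).comp hf))
  refine h.recast fun a => ?_
  cases f a <;> rfl

@[fun_prop]
theorem Poly.isNone {f : α → Option β} (hf : Poly f) : Poly (fun a => (f a).isNone) := by
  have h : Poly (fun a => (T.isL (enc (f a)))) :=
    (Poly.isL₀.comp ((Poly.toTree _).comp hf))
  refine h.recast fun a => ?_
  cases f a <;> rfl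

@[fun_prop]
theorem Poly.getD {f : α → Option β} {g : α → β} (hf : Poly f) (hg : Poly g) :
    Poly (fun a => (f a).getD (g a)) := by
  have h : Poly (fun a => bif (f a).isNone then enc (g a) else T.fstD (enc (f a))) :=
    (Poly.isNone hf).cond ((Poly.toTree _).comp hg) (Poly.fstD₀.comp ((Poly.toTree _).comp hf))
  refine h.recast fun a => ?_
  cases f a <;> rfl

theorem Poly.optionElim [Inhabited β] {f : α → Option β} {g : α → γ} {h : α → β → γ}
    (hf : Poly f) (hg : Poly g) (hh : Poly (fun q : α × β => h q.1 q.2)) :
    Poly (fun a => (f a).elim (g a) (h a)) := by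
  have : Poly (fun a => bif (f a).isNone then g a else h a ((f a).getD default)) := by
    exact (Poly.isNone hf).cond hg (Poly.comp (g := fun q : α × β => h q.1 q.2)
      (f := fun a => (a, (f a).getD default)) hh (by fun_prop))
  refine this.recast fun a => ?_
  cases f a <;> rfl

@[fun_prop]
theorem Poly.succ {f : α → ℕ} (hf : Poly f) : Poly (fun a => f a + 1) :=
  ((Poly.const L).prodMk hf).recast fun a => rfl

@[fun_prop]
theorem Poly.pred {f : α → ℕ} (hf : Poly f) : Poly (fun a => f a - 1) := by
  have h : Poly (fun a => T.sndD (enc (f a))) := Poly.sndD₀.comp ((Poly.toTree _).comp hf)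
  refine h.recast fun a => ?_
  cases f a <;> rfl

@[fun_prop]
theorem Poly.isZero {f : α → ℕ} (hf : Poly f) : Poly (fun a => (f a == 0)) := by
  have h : Poly (fun a => T.isL (enc (f a))) := Poly.isL₀.comp ((Poly.toTree _).comp hf)
  refine h.recast fun a => ?_
  cases f a <;> rfl

/-- numbers as lists of units -/
theorem enc_units (n : ℕ) : enc (List.replicate n ()) = enc n := by
  induction n with
  | zero => rfl
  | succ n ih => rw [List.replicate_succ, enc_cons, enc_succ, ih]; rfl

@[fun_prop]
theorem Poly.units {f : α → ℕ} (hf : Poly f) : Poly (fun a => List.replicate (f a) ()) :=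
  hf.recast fun a => enc_units _

/-- unary iteration -/
theorem Poly.iterate {n : α → ℕ} {g : α → γ} {h : α → γ → γ} (hn : Poly n)
    (hg : Poly g) (hh : Poly (fun q : α × γ => h q.1 q.2)) (B : ℕ → ℕ)
    (hB : IsPB B) (hb : ∀ a i, i ≤ n a → sz ((h a)^[i] (g a)) ≤ B (sz a)) :
    Poly (fun a => (h a)^[n a] (g a)) := by
  have key : ∀ a (l : List Unit) (x : γ), l.foldl (fun x _ => h a x) x = (h a)^[l.length] x := by
    intro a l
    induction l with
    | nil => intro x; rfl
    | cons y l ih => intro x; simp [ih]
  have := Poly.foldl' (f := fun a => List.replicate (n a) ()) (g := g)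
    (h := fun a x (_ : Unit) => h a x) (by fun_prop) hg
    (Poly.comp (g := fun q : α × γ => h q.1 q.2) (f := fun q : (α × Unit) × γ => (q.1.1, q.2))
      hh (by fun_prop)) B hB (by
      intro a l' hl'
      rw [key]
      apply hb
      have := hl'.length_le
      simpa using this)
  refine this.recast fun a => ?_
  rw [key, List.length_replicate]

/-! ### lists -/

theorem sz_reverse (l : List α) : sz l.reverse = sz l := by
  induction l with
  | nil => rfl
  | cons a l ih =>
    rw [List.reverse_cons]
    have h1 := sz_list_append l.reverse [a]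
    have h2 : sz [a] = sz a + 2 := rfl
    rw [sz_cons]
    omega

theorem sz_foldl_cons (l m : List α) : sz (l.foldl (fun acc b => b :: acc) m) + 1 = sz l + sz m := by
  have : l.foldl (fun acc b => b :: acc) m = l.reverse ++ m := by
    induction l generalizing m with
    | nil => rfl
    | cons a l ih => simp [ih]
  rw [this]
  have := sz_list_append l.reverse m
  rw [sz_reverse] at this
  exact this

theorem sz_prefix_le {l m : List α} (h : l <+: m) : sz l ≤ sz m := by
  obtain ⟨t, rfl⟩ := h
  have := sz_list_append l t
  have := sz_pos t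
  omega

@[fun_prop]
theorem Poly.reverse {f : α → List β} (hf : Poly f) : Poly (fun a => (f a).reverse) := by
  obtain ⟨B, hB, hm, hs⟩ := hf.szPB
  have h1 := Poly.foldl' (f := f) (g := fun _ => ([] : List β)) (h := fun _ acc b => b :: acc)
    hf (Poly.const _) (by fun_prop) B hB (by
      intro a l' hl'
      have := sz_foldl_cons l' ([] : List β)
      have := sz_prefix_le hl'
      have := hs a
      rw [sz_nil] at *
      omega)
  refine h1.recast fun a => ?_
  have : ∀ (l m : List β), l.foldl (fun acc b => b :: acc) m = l.reverse ++ m := by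
    intro l
    induction l with
    | nil => intro m; rfl
    | cons a l ih => intro m; simp [ih]
  rw [this]; simp

@[fun_prop]
theorem Poly.append {f g : α → List β} (hf : Poly f) (hg : Poly g) :
    Poly (fun a => f a ++ g a) := by
  obtain ⟨B, hB, hm, hs⟩ := hf.szPB
  obtain ⟨B', hB', hm', hs'⟩ := hg.szPB
  have h1 := Poly.foldl' (f := fun a => (f a).reverse) (g := g) (h := fun _ acc b => b :: acc)
    (by fun_prop) hg (by fun_prop) (fun n => B n + B' n) (by fun_prop) (by
      intro a l' hl'
      have := sz_foldl_cons l' (g a)
      have := sz_prefix_le hl'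
      have := hs a
      have := hs' a
      rw [sz_reverse] at *
      beta_reduce
      omega)
  refine h1.recast fun a => ?_
  have : ∀ (l m : List β), l.foldl (fun acc b => b :: acc) m = l.reverse ++ m := by
    intro l
    induction l with
    | nil => intro m; rfl
    | cons a l ih => intro m; simp [ih]
  rw [this]; simp

theorem sz_map_le (l : List α) (h : α → β) (C : ℕ) (hC : ∀ a ∈ l, sz (h a) ≤ C) :
    sz (l.map h) ≤ l.length * (C + 1) + 1 := by
  have := sz_list_le (l.map h) C (by
    intro b hb
    obtain ⟨a, ha, rfl⟩ := List.mem_map.1 hb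
    exact hC a ha)
  simpa using this

/-- bound on the values of a function on the elements of a list -/
theorem Poly.elemBound {f : α → List β} {h : α → β → γ} (hf : Poly f)
    (hh : Poly (fun q : α × β => h q.1 q.2)) :
    ∃ B C : ℕ → ℕ, IsPB B ∧ IsPB C ∧ (∀ a, (f a).length ≤ B (sz a)) ∧ (∀ a, sz (f a) ≤ B (sz a)) ∧
      ∀ a, ∀ b ∈ f a, sz (h a b) ≤ C (sz a) := by
  obtain ⟨B, hB, hm, hs⟩ := hf.szPB
  obtain ⟨C, hC, hmC, hsC⟩ := hh.szPB
  refine ⟨B, fun n => C (n + B n + 1), hB, by fun_prop, ?_, hs, ?_⟩
  · intro a
    have := length_lt_sz (f a)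
    have := hs a
    omega
  · intro a b hb
    have h1 := hsC (a, b)
    have h2 := sz_mem_lt hb
    have h3 := hs a
    refine h1.trans (hmC ?_)
    rw [sz_prod]
    omega

@[fun_prop]
theorem Poly.map {f : α → List β} {h : α → β → γ} (hf : Poly f)
    (hh : Poly (fun q : α × β => h q.1 q.2)) : Poly (fun a => (f a).map (h a)) := by
  obtain ⟨B, C, hB, hC, h1, h2, h3⟩ := Poly.elemBound hf hh
  have key : ∀ a (l : List β) (m : List γ),
      l.foldl (fun acc b => h a b :: acc) m = (l.map (h a)).reverse ++ m := by
    intro a l
    induction l with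
    | nil => intro m; rfl
    | cons x l ih => intro m; simp [ih]
  have h4 := Poly.foldl' (f := f) (g := fun _ => ([] : List γ))
    (h := fun a acc b => h a b :: acc) hf (Poly.const _)
    ((Poly.comp (g := fun q : α × β => h q.1 q.2) hh (by fun_prop)).cons (by fun_prop))
    (fun n => B n * (C n + 1) + 1) (by fun_prop) (by
      intro a l' hl'
      rw [key, List.append_nil, sz_reverse]
      have := sz_map_le l' (h a) (C (sz a)) (fun b hb => h3 a b (hl'.subset hb))
      have h5 : l'.length ≤ B (sz a) := hl'.length_le.trans (h1 a)
      have h6 : l'.length * (C (sz a) + 1) ≤ B (sz a) * (C (sz a) + 1) :=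
        Nat.mul_le_mul_right _ h5
      beta_reduce
      omega)
  have h5 := Poly.reverse h4
  refine h5.recast fun a => ?_
  rw [key]; simp

theorem sz_sublist_le {l m : List α} (h : l.Sublist m) : sz l ≤ sz m := by
  induction h with
  | slnil => exact le_rfl
  | cons a _ ih => rw [sz_cons]; omega
  | cons_cons a _ ih => rw [sz_cons, sz_cons]; omega

@[fun_prop]
theorem Poly.filter {f : α → List β} {h : α → β → Bool} (hf : Poly f)
    (hh : Poly (fun q : α × β => h q.1 q.2)) : Poly (fun a => (f a).filter (h a)) := by
  obtain ⟨B, hB, hm, hs⟩ := hf.szPB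
  have key : ∀ a (l : List β) (m : List β),
      l.foldl (fun acc b => bif h a b then b :: acc else acc) m
        = (l.filter (h a)).reverse ++ m := by
    intro a l
    induction l with
    | nil => intro m; rfl
    | cons x l ih =>
      intro m
      rw [List.foldl_cons, ih]
      cases hx : h a x <;> simp [hx]
  have h4 := Poly.foldl' (f := f) (g := fun _ => ([] : List β))
    (h := fun a acc b => bif h a b then b :: acc else acc) hf (Poly.const _)
    ((Poly.comp (g := fun q : α × β => h q.1 q.2) hh (by fun_prop)).cond
      (by fun_prop) (by fun_prop))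
    B hB (by
      intro a l' hl'
      rw [key, List.append_nil, sz_reverse]
      exact (sz_sublist_le List.filter_sublist).trans ((sz_prefix_le hl').trans (hs a)))
  have h5 := Poly.reverse h4
  refine h5.recast fun a => ?_
  rw [key]; simp

theorem sz_flatten_le (l : List (List α)) (C : ℕ) (hC : ∀ a ∈ l, sz a ≤ C) :
    sz l.flatten ≤ l.length * C + 1 := by
  induction l with
  | nil => simp [sz_nil]
  | cons a l ih =>
    have h1 := hC a List.mem_cons_self
    have h2 := ih (fun b hb => hC b (List.mem_cons_of_mem _ hb))
    have h3 := sz_list_append a l.flatten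
    rw [List.flatten_cons, List.length_cons, add_mul]
    omega

@[fun_prop]
theorem Poly.flatMap {f : α → List β} {h : α → β → List γ} (hf : Poly f)
    (hh : Poly (fun q : α × β => h q.1 q.2)) : Poly (fun a => (f a).flatMap (h a)) := by
  obtain ⟨B, C, hB, hC, h1, h2, h3⟩ := Poly.elemBound hf hh
  have key : ∀ a (l : List β) (m : List γ),
      l.foldl (fun acc b => acc ++ h a b) m = m ++ l.flatMap (h a) := by
    intro a l
    induction l with
    | nil => intro m; simp
    | cons x l ih => intro m; simp [ih]
  have h4 := Poly.foldl' (f := f) (g := fun _ => ([] : List γ))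
    (h := fun a acc b => acc ++ h a b) hf (Poly.const _)
    (Poly.append (by fun_prop) (Poly.comp (g := fun q : α × β => h q.1 q.2) hh (by fun_prop)))
    (fun n => B n * C n + 1) (by fun_prop) (by
      intro a l' hl'
      rw [key, List.nil_append, List.flatMap_def]
      have := sz_flatten_le (l'.map (h a)) (C (sz a)) (by
        intro b hb
        obtain ⟨x, hx, rfl⟩ := List.mem_map.1 hb
        exact h3 a x (hl'.subset hx))
      rw [List.length_map] at this
      have h5 : l'.length ≤ B (sz a) := hl'.length_le.trans (h1 a)
      have h6 : l'.length * C (sz a) ≤ B (sz a) * C (sz a) := Nat.mul_le_mul_right _ h5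
      beta_reduce
      omega)
  refine h4.recast fun a => ?_
  rw [key]; simp

@[fun_prop]
theorem Poly.all {f : α → List β} {h : α → β → Bool} (hf : Poly f)
    (hh : Poly (fun q : α × β => h q.1 q.2)) : Poly (fun a => (f a).all (h a)) := by
  have key : ∀ a (l : List β) (m : Bool),
      l.foldl (fun acc b => acc && h a b) m = (m && l.all (h a)) := by
    intro a l
    induction l with
    | nil => intro m; simp
    | cons x l ih => intro m; simp [ih, Bool.and_assoc]
  have h4 := Poly.foldl' (f := f) (g := fun _ => true)
    (h := fun a acc b => acc && h a b) hf (Poly.const _)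
    (Poly.and (by fun_prop) (Poly.comp (g := fun q : α × β => h q.1 q.2) hh (by fun_prop)))
    (fun _ => 3) (by fun_prop) (by
      intro a l' hl'
      exact sz_bool_le _)
  refine h4.recast fun a => ?_
  rw [key]; simp

@[fun_prop]
theorem Poly.any {f : α → List β} {h : α → β → Bool} (hf : Poly f)
    (hh : Poly (fun q : α × β => h q.1 q.2)) : Poly (fun a => (f a).any (h a)) := by
  have key : ∀ a (l : List β) (m : Bool),
      l.foldl (fun acc b => acc || h a b) m = (m || l.any (h a)) := by
    intro a l
    induction l with
    | nil => intro m; simp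
    | cons x l ih => intro m; simp [ih, Bool.or_assoc]
  have h4 := Poly.foldl' (f := f) (g := fun _ => false)
    (h := fun a acc b => acc || h a b) hf (Poly.const _)
    (Poly.or (by fun_prop) (Poly.comp (g := fun q : α × β => h q.1 q.2) hh (by fun_prop)))
    (fun _ => 3) (by fun_prop) (by
      intro a l' hl'
      exact sz_bool_le _)
  refine h4.recast fun a => ?_
  rw [key]; simp

@[fun_prop]
theorem Poly.length {f : α → List β} (hf : Poly f) : Poly (fun a => (f a).length) := by
  have h : Poly (fun a => (f a).map (fun _ => ())) := by fun_prop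
  refine h.recast fun a => ?_
  have : (f a).map (fun _ => ()) = List.replicate (f a).length () := by
    simp [List.map_const']
  rw [this, enc_units]

@[fun_prop]
theorem Poly.add {f g : α → ℕ} (hf : Poly f) (hg : Poly g) : Poly (fun a => f a + g a) := by
  have h : Poly (fun a => List.replicate (f a) () ++ List.replicate (g a) ()) := by fun_prop
  refine h.recast fun a => ?_
  rw [← List.replicate_add, enc_units]

@[fun_prop]
theorem Poly.replicate {f : α → ℕ} {g : α → β} (hf : Poly f) (hg : Poly g) :
    Poly (fun a => List.replicate (f a) (g a)) := by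
  have h : Poly (fun a => (List.replicate (f a) ()).map (fun _ => g a)) :=
    Poly.map (by fun_prop) (by fun_prop)
  refine h.recast fun a => ?_
  simp [List.map_replicate]

@[fun_prop]
theorem Poly.mul {f g : α → ℕ} (hf : Poly f) (hg : Poly g) : Poly (fun a => f a * g a) := by
  have h : Poly (fun a => (List.replicate (f a) ()).flatMap
    (fun _ => List.replicate (g a) ())) := Poly.flatMap (by fun_prop) (by fun_prop)
  refine h.recast fun a => ?_
  rw [← enc_units]
  congr 1
  induction f a with
  | zero => simp
  | succ n ih => rw [List.replicate_succ, List.flatMap_cons, ← ih, ← List.replicate_add]; congr 1; ring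

@[fun_prop]
theorem Poly.sub {f g : α → ℕ} (hf : Poly f) (hg : Poly g) : Poly (fun a => f a - g a) := by
  obtain ⟨B, hB, hm, hs⟩ := hf.szPB
  have key : ∀ i n : ℕ, (fun x : ℕ => x - 1)^[i] n = n - i := by
    intro i
    induction i with
    | zero => intro n; rfl
    | succ i ih => intro n; rw [Function.iterate_succ_apply, ih]; omega
  have h := Poly.iterate (n := g) (g := f) (h := fun _ x => x - 1) hg hf (by fun_prop) B hB (by
    intro a i hi
    rw [key]
    have := hs a
    rw [sz_nat] at *
    omega)
  refine h.recast fun a => ?_
  rw [key]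

@[fun_prop]
theorem Poly.decide_le {f g : α → ℕ} [∀ a, Decidable (f a ≤ g a)] (hf : Poly f) (hg : Poly g) :
    Poly (fun a => decide (f a ≤ g a)) := by
  have h : Poly (fun a => (f a - g a == 0)) := by fun_prop
  refine h.recast fun a => ?_
  congr 1
  by_cases h : f a ≤ g a
  · simp [h]
  · have : ¬ (f a - g a = 0) := by omega
    simp [h]
    omega

@[fun_prop]
theorem Poly.decide_lt {f g : α → ℕ} [∀ a, Decidable (f a < g a)] (hf : Poly f) (hg : Poly g) :
    Poly (fun a => decide (f a < g a)) := by
  have h : Poly (fun a => decide (f a + 1 ≤ g a)) := by fun_prop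
  exact Poly.decide_congr (fun a => Nat.succ_le_iff) h

@[fun_prop]
theorem Poly.drop {f : α → ℕ} {g : α → List β} (hf : Poly f) (hg : Poly g) :
    Poly (fun a => (g a).drop (f a)) := by
  obtain ⟨B, hB, hm, hs⟩ := hg.szPB
  have key : ∀ (i : ℕ) (l : List β), (fun x : List β => x.tail)^[i] l = l.drop i := by
    intro i
    induction i with
    | zero => intro n; rfl
    | succ i ih => intro n; rw [Function.iterate_succ_apply, ih]; cases n <;> simp
  have h := Poly.iterate (n := f) (g := g) (h := fun _ x => x.tail) hf hg (by fun_prop) B hB (by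
    intro a i hi
    rw [key]
    exact (sz_sublist_le (List.drop_sublist _ _)).trans (hs a))
  refine h.recast fun a => ?_
  rw [key]

@[fun_prop]
theorem Poly.take {f : α → ℕ} {g : α → List β} (hf : Poly f) (hg : Poly g) :
    Poly (fun a => (g a).take (f a)) := by
  have h : Poly (fun a => (((g a).reverse.drop ((g a).length - f a)).reverse)) := by fun_prop
  refine h.recast fun a => ?_
  congr 1
  rw [List.drop_reverse, List.reverse_reverse]
  by_cases hh : f a ≤ (g a).length
  · congr 1; omega
  · rw [List.take_of_length_le (by omega), List.take_of_length_le (by omega)]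

@[fun_prop]
theorem Poly.getElem? {f : α → ℕ} {g : α → List β} (hf : Poly f) (hg : Poly g) :
    Poly (fun a => (g a)[f a]?) := by
  have h : Poly (fun a => ((g a).drop (f a)).head?) := by fun_prop
  refine h.recast fun a => ?_
  congr 1
  rw [List.head?_drop]

@[fun_prop]
theorem Poly.listGetD {f : α → ℕ} {g : α → List β} {d : α → β} (hf : Poly f) (hg : Poly g)
    (hd : Poly d) : Poly (fun a => (g a).getD (f a) (d a)) := by
  have h : Poly (fun a => ((g a)[f a]?).getD (d a)) := by fun_prop
  refine h.recast fun a => ?_
  congr 1

@[fun_prop]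
theorem Poly.range {f : α → ℕ} (hf : Poly f) : Poly (fun a => List.range (f a)) := by
  obtain ⟨B, hB, hm, hs⟩ := hf.szPB
  have key : ∀ i : ℕ, (fun x : List ℕ => x ++ [x.length])^[i] [] = List.range i := by
    intro i
    induction i with
    | zero => rfl
    | succ i ih => rw [Function.iterate_succ_apply', ih, List.range_succ]; simp
  have h := Poly.iterate (n := f) (g := fun _ => ([] : List ℕ))
    (h := fun _ x => x ++ [x.length]) hf (Poly.const _) (by fun_prop)
    (fun n => B n * (B n + 1) + 1) (by fun_prop) (by
    intro a i hi
    rw [key]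
    have h1 := sz_list_le (List.range i) (2 * i + 1) (by
      intro b hb
      rw [sz_nat]
      have := List.mem_range.1 hb
      omega)
    have h2 := hs a
    rw [sz_nat] at h2
    rw [List.length_range] at h1
    beta_reduce
    have h3 : i * (2 * i + 1 + 1) ≤ B (sz a) * (B (sz a) + 1) := Nat.mul_le_mul (by omega) (by omega)
    omega)
  refine h.recast fun a => ?_
  rw [key]

/-! ### equality -/

theorem eqBits_key : ∀ (l m : List Bool) (ok : Bool),
    (l.foldl (fun (st : List Bool × Bool) b =>
      (st.1.tail, st.2 && !st.1.isEmpty && (bif st.1.headD false then b else !b))) (m, ok))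
    = (m.drop l.length, ok && decide (m.take l.length = l)) := by
  intro l
  induction l with
  | nil => intro m ok; simp
  | cons b l ih =>
    intro m ok
    rw [List.foldl_cons, ih]
    cases m with
    | nil => simp
    | cons c m =>
      simp only [List.tail_cons, List.isEmpty_cons, List.headD_cons, List.length_cons,
        List.drop_succ_cons, List.take_succ_cons, List.cons.injEq, Prod.mk.injEq, true_and]
      cases b <;> cases c <;> cases ok <;> simp <;> rfl

theorem Poly.eqBits {f g : α → List Bool} (hf : Poly f) (hg : Poly g) :
    Poly (fun a => decide (f a = g a)) := by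
  obtain ⟨B, hB, hm, hs⟩ := hg.szPB
  have h1 := Poly.foldl' (f := f) (g := fun a => (g a, true))
    (h := fun a (st : List Bool × Bool) b =>
      (st.1.tail, st.2 && !st.1.isEmpty && (bif st.1.headD false then b else !b))) hf
    (by fun_prop) (by fun_prop) (fun n => B n + 4) (by fun_prop) (by
      intro a l' hl'
      rw [eqBits_key, sz_prod]
      have h1 : sz ((g a).drop l'.length) ≤ B (sz a) :=
        (sz_sublist_le (List.drop_sublist _ _)).trans (hs a)
      have h2 := sz_bool_le (true && decide ((g a).take l'.length = l'))
      beta_reduce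
      omega)
  have h2 : Poly (fun a => (((f a).foldl (fun (st : List Bool × Bool) b =>
      (st.1.tail, st.2 && !st.1.isEmpty && (bif st.1.headD false then b else !b)))
        (g a, true)).2) &&
      (((f a).foldl (fun (st : List Bool × Bool) b =>
      (st.1.tail, st.2 && !st.1.isEmpty && (bif st.1.headD false then b else !b)))
        (g a, true)).1).isEmpty) := Poly.and (Poly.snd h1) (Poly.isEmpty (Poly.fst h1))
  refine h2.recast fun a => ?_
  rw [eqBits_key]
  congr 1
  simp only [Bool.true_and]
  by_cases h : f a = g a
  · simp [h]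
  · have : ¬ ((g a).take (f a).length = f a ∧ (g a).drop (f a).length = []) := by
      rintro ⟨h1, h2⟩
      apply h
      have := List.take_append_drop (f a).length (g a)
      rw [h1, h2, List.append_nil] at this
      exact this
    simp only [h, decide_false]
    by_cases h3 : (g a).take (f a).length = f a
    · have h4 : ¬ ((g a).drop (f a).length = []) := fun h4 => this ⟨h3, h4⟩
      simp only [h3, decide_true, Bool.true_and]
      cases hd : (g a).drop (f a).length with
      | nil => exact absurd hd h4
      | cons x l => rfl
    · simp [h3]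

@[fun_prop]
theorem Poly.decide_eq {f g : α → β} [∀ a, Decidable (f a = g a)] (hf : Poly f) (hg : Poly g) :
    Poly (fun a => decide (f a = g a)) := by
  have h : Poly (fun a => decide (T.bits (enc (f a)) = T.bits (enc (g a)))) :=
    Poly.eqBits (Poly.bits₀.comp ((Poly.toTree _).comp hf))
      (Poly.bits₀.comp ((Poly.toTree _).comp hg))
  refine Poly.decide_congr (fun a => ?_) h
  exact ⟨fun h => Enc.inj (T.bits_injective h), fun h => by rw [h]⟩

@[fun_prop]
theorem Poly.beq_eq [DecidableEq β] {f g : α → β} (hf : Poly f) (hg : Poly g) :
    Poly (fun a => f a == g a) := by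
  have h : Poly (fun a => decide (f a = g a)) := by fun_prop
  refine h.recast fun a => ?_
  congr 1

open Classical in
@[fun_prop]
theorem Poly.decide_mem {f : α → β} {g : α → List β} [∀ a, Decidable (f a ∈ g a)] (hf : Poly f)
    (hg : Poly g) : Poly (fun a => decide (f a ∈ g a)) := by
  have h : Poly (fun a => (g a).any (fun b => decide (b = f a))) :=
    Poly.any hg (by fun_prop)
  refine h.recast fun a => ?_
  congr 1
  by_cases h : f a ∈ g a
  · simp [h]
  · simp [h]
    rintro x hx rfl
    exact h hx

@[fun_prop]
theorem Poly.zip {f : α → List β} {g : α → List γ} (hf : Poly f) (hg : Poly g) :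
    Poly (fun a => (f a).zip (g a)) := by
  -- state: remaining second list, accumulated result (reversed)
  have key : ∀ (l : List β) (m : List γ) (acc : List (β × γ)),
      l.foldl (fun (st : List γ × List (β × γ)) b =>
        bif st.1.isEmpty then st else (st.1.tail, (st.1.take 1).map (fun c => (b, c)) ++ st.2))
          (m, acc)
        = (m.drop l.length, (l.zip m).reverse ++ acc) := by
    intro l
    induction l with
    | nil => intro m acc; simp
    | cons b l ih =>
      intro m acc
      rw [List.foldl_cons]
      cases m with
      | nil =>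
        simp only [List.isEmpty_nil, cond_true]
        rw [ih]; simp
      | cons c m =>
        simp only [List.isEmpty_cons, cond_false]
        rw [ih]; simp
  obtain ⟨B, hB, hm, hs⟩ := hf.szPB
  obtain ⟨B', hB', hm', hs'⟩ := hg.szPB
  have szzip : ∀ (l : List β) (m : List γ), sz (l.zip m) ≤ sz l + sz m := by
    intro l
    induction l with
    | nil => intro m; simp [sz_nil]
    | cons b l ih =>
      intro m
      cases m with
      | nil => simp [sz_nil]
      | cons c m =>
        rw [List.zip_cons_cons, sz_cons, sz_cons, sz_cons, sz_prod]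
        have := ih m
        omega
  have h1 := Poly.foldl' (f := f) (g := fun a => (g a, ([] : List (β × γ))))
    (h := fun a (st : List γ × List (β × γ)) b =>
        bif st.1.isEmpty then st else (st.1.tail, (st.1.take 1).map (fun c => (b, c)) ++ st.2))
    hf (by fun_prop) (by
      refine Poly.cond (by fun_prop) (by fun_prop) (Poly.prodMk (by fun_prop)
        (Poly.append (Poly.map (by fun_prop) (by fun_prop)) (by fun_prop))))
    (fun n => B' n + (B n + B' n) + 1) (by fun_prop) (by
      intro a l' hl'
      rw [key, sz_prod, List.append_nil, sz_reverse]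
      have h1 : sz ((g a).drop l'.length) ≤ B' (sz a) :=
        (sz_sublist_le (List.drop_sublist _ _)).trans (hs' a)
      have h2 := szzip l' (g a)
      have h3 := (sz_prefix_le hl').trans (hs a)
      have h4 := hs' a
      beta_reduce
      omega)
  have h2 := Poly.reverse (Poly.snd h1)
  refine h2.recast fun a => ?_
  rw [key]; simp

/-- powers with a fixed exponent -/
@[fun_prop]
theorem Poly.pow {f : α → ℕ} (hf : Poly f) (k : ℕ) : Poly (fun a => f a ^ k) := by
  induction k with
  | zero => simpa using Poly.const (1 : ℕ)
  | succ k ih => simpa [pow_succ] using ih.mul hf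

@[fun_prop]
theorem Poly.min {f g : α → ℕ} (hf : Poly f) (hg : Poly g) : Poly (fun a => min (f a) (g a)) := by
  have h : Poly (fun a => f a - (f a - g a)) := by fun_prop
  refine h.recast fun a => ?_
  congr 1; omega

end

end Pool.Agent.Helper96
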