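import Pool.Agent.Helper96.Statement

/-!
# Definitions for the CSP side: structures with finitely many binary relations, Horn rules,
grid automata, and the template
-/

set_option autoImplicit false
set_option linter.all false

namespace Pool.Agent.Helper96

/-! ### Horn rules and their closure -/

/-- a fact (or atom) `(r, x, y)`: relation number and two elements (or variables) -/
abbrev Fact := ℕ × ℕ × ℕ

/-- a rule: body and head -/
abbrev Rule := List Fact × Fact

/-- instantiate an atom by an assignment -/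
def inst (σ : ℕ → ℕ) (a : Fact) : Fact := (a.1, σ a.2.1, σ a.2.2)

/-- the closure of a set of facts over the domain `{0, …, n-1}` under Horn rules -/
inductive Der (R : List Rule) (n : ℕ) (B : Set Fact) : Fact → Prop
  | base {f : Fact} : f ∈ B → Der R n B f
  | rule {r : Rule} (hr : r ∈ R) (σ : ℕ → ℕ) (hσ : ∀ v, σ v < n)
      (hb : ∀ a ∈ r.1, Der R n B (inst σ a)) : Der R n B (inst σ r.2)

/-! ### Grid automata -/

/-- a grid automaton with cell states `0, …, m-1`: rows are computed from the previous row, the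
leftmost cell by `d0` and the others by `d` (which also sees the left neighbour in the new row) -/
structure GA where
  m : ℕ
  d0 : ℕ → ℕ → ℕ
  d : ℕ → ℕ → ℕ → ℕ → ℕ

namespace GA

/-- next row -/
def next (G : GA) (w : ℕ → ℕ) : ℕ → ℕ
  | 0 => G.d0 (w 0) (w 1)
  | i + 1 => G.d (w i) (w (i + 1)) (w (i + 2)) (G.next w i)

/-- the cell at time `t`, position `i`, when started on row `w` -/
def cell (G : GA) (w : ℕ → ℕ) (t : ℕ) : ℕ → ℕ := (G.next)^[t] w

/-- the cell states are closed under the transitions -/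
def Closed (G : GA) : Prop :=
  (∀ b < G.m, ∀ c < G.m, G.d0 b c < G.m) ∧
  (∀ a < G.m, ∀ b < G.m, ∀ c < G.m, ∀ e < G.m, G.d a b c e < G.m)

end GA

/-! ### The template -/

/-- the data of a template: number of letters, status automaton `Z` with its constant initial
cell and output, verifier automaton `V` with its initial cells (letter, bit) and acceptance -/
structure TD where
  nl : ℕ
  GZ : GA
  z0 : ℕ
  onZ : ℕ → Bool
  GV : GA
  iniV : ℕ → ℕ → ℕ
  acc : ℕ → Bool

/-- well-formedness -/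
structure TD.WF (D : TD) : Prop where
  closedZ : D.GZ.Closed
  closedV : D.GV.Closed
  z0_lt : D.z0 < D.GZ.m
  iniV_lt : ∀ a < D.nl, ∀ c < 2, D.iniV a c < D.GV.m

/- relation numbers in atoms: 0 is equality, 1 is falsity, and `r + 2` is relation `r` of the
structure -/
abbrev eEQ : ℕ := 0
abbrev eBOT : ℕ := 1
abbrev eS : ℕ := 2
abbrev eF : ℕ := 3
abbrev eE : ℕ := 4
abbrev eI : ℕ := 5
abbrev eSL : ℕ := 6
abbrev eSR : ℕ := 7
abbrev eOn : ℕ := 8
abbrev eOff : ℕ := 9
abbrev eY (c : ℕ) : ℕ := 10 + c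
abbrev eLet (a : ℕ) : ℕ := 12 + a

namespace TD

/-- relation number of the cell state `z` of `V` -/
def eV (D : TD) (z : ℕ) : ℕ := 12 + D.nl + z
/-- relation number of the cell state `z` of `Z` -/
def eZ (D : TD) (z : ℕ) : ℕ := 12 + D.nl + D.GV.m + z
/-- number of relation numbers -/
def M (D : TD) : ℕ := 12 + D.nl + D.GV.m + D.GZ.m
/-- number of relations of the structures -/
def K (D : TD) : ℕ := D.M - 2

/-- the rules of a grid automaton whose cell state `z` has relation number `e z` -/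
def gaRules (G : GA) (e : ℕ → ℕ) : List Rule :=
  ((List.range G.m).flatMap fun b => (List.range G.m).map fun c =>
    (([(e b, 0, 1), (e c, 0, 2), (eF, 1, 1), (eS, 1, 2), (eS, 0, 3)], (e (G.d0 b c), 3, 1)) :
      Rule)) ++
  ((List.range G.m).flatMap fun a => (List.range G.m).flatMap fun b =>
    (List.range G.m).flatMap fun c => (List.range G.m).map fun d =>
    (([(e a, 0, 1), (e b, 0, 2), (e c, 0, 3), (e d, 4, 1), (eS, 1, 2), (eS, 2, 3), (eS, 0, 4)],
      (e (G.d a b c d), 4, 2)) : Rule))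

/-- the basic rules, not depending on the data -/
def baseRules : List Rule :=
  [([(eS, 0, 1), (eS, 0, 2)], (eEQ, 1, 2)),
   ([(eS, 0, 2), (eS, 1, 2)], (eEQ, 0, 1)),
   ([(eS, 0, 1), (eF, 1, 1)], (eBOT, 0, 0)),
   ([(eS, 0, 1), (eE, 0, 0)], (eBOT, 0, 0)),
   ([(eSL, 1, 1), (eS, 0, 1)], (eSL, 0, 0)),
   ([(eSL, 0, 0), (eF, 0, 0)], (eBOT, 0, 0)),
   ([(eSR, 0, 0), (eS, 0, 1)], (eSR, 1, 1)),
   ([(eSR, 0, 0), (eE, 0, 0)], (eBOT, 0, 0)),
   ([(eF, 0, 0)], (eI, 0, 0)),
   ([(eI, 0, 1), (eS, 1, 2)], (eI, 0, 2)),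
   ([(eI, 0, 2), (eI, 1, 2)], (eEQ, 0, 1)),
   ([(eOn, 0, 0), (eS, 0, 1)], (eOn, 1, 1)),
   ([(eOn, 1, 1), (eS, 0, 1)], (eOn, 0, 0)),
   ([(eOn, 0, 0), (eOff, 0, 0)], (eBOT, 0, 0))]

/-- initial rows and final cells -/
def dataRules (D : TD) : List Rule :=
  [([(eI, 0, 1)], (D.eZ D.z0, 0, 1))] ++
  ((List.range D.nl).flatMap fun a => (List.range 2).map fun c =>
    (([(eI, 0, 1), (eY c, 1, 1), (eLet a, 1, 1)], (D.eV (D.iniV a c), 0, 1)) : Rule)) ++
  ((List.range D.GZ.m).map fun z =>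
    (([(D.eZ z, 0, 1), (eE, 0, 0), (eF, 1, 1)], (bif D.onZ z then eOn else eOff, 1, 1)) : Rule)) ++
  (((List.range D.GV.m).filter fun z => !D.acc z).map fun z =>
    (([(D.eV z, 0, 1), (eE, 0, 0), (eF, 1, 1)], (eBOT, 0, 0)) : Rule))

/-- the rules of equality: reflexivity, symmetry and congruence (which includes transitivity) -/
def eqRules (D : TD) : List Rule :=
  [([], (eEQ, 0, 0)), ([(eEQ, 0, 1)], (eEQ, 1, 0))] ++
  ((List.range D.M).flatMap fun r =>
    [([(r, 0, 1), (eEQ, 0, 2)], (r, 2, 1)), ([(r, 0, 1), (eEQ, 1, 2)], (r, 0, 2))])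

/-- all rules with nonempty meaning in structures -/
def coreRules (D : TD) : List Rule :=
  baseRules ++ D.dataRules ++ gaRules D.GZ D.eZ ++ gaRules D.GV D.eV

/-- all Horn rules -/
def rules (D : TD) : List Rule := D.coreRules ++ D.eqRules

/-- truth of an atom in a structure -/
def holds {k : ℕ} {A : Type} (S : BinStr k A) (r : ℕ) (x y : A) : Prop :=
  match r with
  | 0 => x = y
  | 1 => False
  | r + 2 => ∃ h : r < k, S.rel ⟨r, h⟩ x y

/-- truth of a rule in a structure -/
def holdsRule {k : ℕ} {A : Type} (S : BinStr k A) (ρ : Rule) : Prop :=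
  ∀ σ : ℕ → A, (∀ a ∈ ρ.1, holds S a.1 (σ a.2.1) (σ a.2.2)) →
    holds S ρ.2.1 (σ ρ.2.2.1) (σ ρ.2.2.2)

/-- models: structures satisfying all Horn rules and the disjunctive rule -/
def Model (D : TD) {A : Type} (S : BinStr D.K A) : Prop :=
  (∀ ρ ∈ D.coreRules, holdsRule S ρ) ∧
  ∀ x, holds S eOn x x → holds S (eY 0) x x ∨ holds S (eY 1) x x ∨ holds S eSL x x ∨
    holds S eSR x x

/-- the facts of a finite structure -/
def facts {k n : ℕ} (B : BinStr k (Fin n)) : Set Fact :=
  {f | ∃ (r : Fin k) (x y : Fin n), B.rel r x y ∧ f = (r.1 + 2, x.1, y.1)}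

/-- a complete `On` path for a set of facts -/
structure IsOnPath (X : Fact → Prop) (p : List ℕ) : Prop where
  ne : p ≠ []
  chain : p.IsChain (fun x y => X (eS, x, y))
  first : ∀ x ∈ p.head?, X (eF, x, x)
  last : ∀ x ∈ p.getLast?, X (eE, x, x)
  on : ∀ x ∈ p.head?, X (eOn, x, x)

/-- certificate facts on the elements of a list -/
def yFacts (p : List ℕ) (β : ℕ → Bool) : Set Fact :=
  {f | ∃ x ∈ p, f = (eY (bif β x then 1 else 0), x, x)}

end TD

end Pool.Agent.Helper96
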