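import Mathlib

/-!
# A small structured language for multi-stack machines

`Cmd` is a while-language over stacks indexed by `ℕ` with symbols in `ℕ` (each program uses
only finitely many stacks and symbols).  The semantics is a deterministic small-step function
on pairs (continuation, stacks).
-/

set_option autoImplicit false

namespace Pool.Agent.Helper96

/-- contents of the stacks -/
abbrev Stk := ℕ → List ℕ

/-- programs -/
inductive Cmd
  | push (k a : ℕ)
  | pop (k : ℕ)
  | seq (p q : Cmd)
  | ite (k a : ℕ) (p q : Cmd)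
  | wh (k a : ℕ) (p : Cmd)
  deriving DecidableEq, Encodable

/-- one step of a program: the first component is the continuation.
`ite k a p q` runs `p` if the head of stack `k` is `a` and `q` otherwise;
`wh k a p` runs `p` as long as the head of stack `k` is not `a`. -/
def step : List Cmd × Stk → List Cmd × Stk
  | ([], s) => ([], s)
  | (Cmd.push k a :: K, s) => (K, Function.update s k (a :: s k))
  | (Cmd.pop k :: K, s) => (K, Function.update s k (s k).tail)
  | (Cmd.seq p q :: K, s) => (p :: q :: K, s)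
  | (Cmd.ite k a p q :: K, s) => if (s k).head? = some a then (p :: K, s) else (q :: K, s)
  | (Cmd.wh k a p :: K, s) =>
      if (s k).head? = some a then (K, s) else (p :: Cmd.wh k a p :: K, s)

/-- `c` started in `s` terminates after exactly `t` steps in `s'`. -/
def Exec (c : Cmd) (s : Stk) (t : ℕ) (s' : Stk) : Prop :=
  ∀ K, step^[t] (c :: K, s) = (K, s')

/-- `c` started in `s` terminates after at most `B` steps in `s'`. -/
def Run (c : Cmd) (s : Stk) (B : ℕ) (s' : Stk) : Prop :=
  ∃ t, t ≤ B ∧ Exec c s t s'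

theorem Exec.push (k a : ℕ) (s : Stk) :
    Exec (Cmd.push k a) s 1 (Function.update s k (a :: s k)) := fun _ => rfl

theorem Exec.pop (k : ℕ) (s : Stk) :
    Exec (Cmd.pop k) s 1 (Function.update s k (s k).tail) := fun _ => rfl

theorem Exec.seq {p q : Cmd} {s s1 s2 : Stk} {t1 t2 : ℕ}
    (h1 : Exec p s t1 s1) (h2 : Exec q s1 t2 s2) :
    Exec (Cmd.seq p q) s (t1 + t2 + 1) s2 := by
  intro K
  have e : t1 + t2 + 1 = t2 + (t1 + 1) := by ring
  rw [e, Function.iterate_add_apply, Function.iterate_succ_apply]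
  have : step (Cmd.seq p q :: K, s) = (p :: q :: K, s) := rfl
  rw [this, h1, h2]

theorem Exec.ite_pos {k a : ℕ} {p q : Cmd} {s s1 : Stk} {t : ℕ}
    (hk : (s k).head? = some a) (h1 : Exec p s t s1) :
    Exec (Cmd.ite k a p q) s (t + 1) s1 := by
  intro K
  rw [Function.iterate_succ_apply]
  have : step (Cmd.ite k a p q :: K, s) = (p :: K, s) := by
    simp [step, hk]
  rw [this, h1]

theorem Exec.ite_neg {k a : ℕ} {p q : Cmd} {s s1 : Stk} {t : ℕ}
    (hk : (s k).head? ≠ some a) (h1 : Exec q s t s1) :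
    Exec (Cmd.ite k a p q) s (t + 1) s1 := by
  intro K
  rw [Function.iterate_succ_apply]
  have : step (Cmd.ite k a p q :: K, s) = (q :: K, s) := by
    simp [step, hk]
  rw [this, h1]

theorem Exec.wh_done {k a : ℕ} {p : Cmd} {s : Stk}
    (hk : (s k).head? = some a) : Exec (Cmd.wh k a p) s 1 s := by
  intro K
  simp [step, hk]

theorem Exec.wh_step {k a : ℕ} {p : Cmd} {s s1 s2 : Stk} {t1 t2 : ℕ}
    (hk : (s k).head? ≠ some a) (h1 : Exec p s t1 s1) (h2 : Exec (Cmd.wh k a p) s1 t2 s2) :
    Exec (Cmd.wh k a p) s (t1 + t2 + 1) s2 := by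
  intro K
  have e : t1 + t2 + 1 = t2 + (t1 + 1) := by ring
  rw [e, Function.iterate_add_apply, Function.iterate_succ_apply]
  have : step (Cmd.wh k a p :: K, s) = (p :: Cmd.wh k a p :: K, s) := by
    simp [step, hk]
  rw [this, h1, h2]

theorem Run.mono {c : Cmd} {s s' : Stk} {B B' : ℕ} (h : Run c s B s') (hB : B ≤ B') :
    Run c s B' s' := by
  obtain ⟨t, ht, h⟩ := h
  exact ⟨t, ht.trans hB, h⟩

theorem Run.push (k a : ℕ) (s : Stk) :
    Run (Cmd.push k a) s 1 (Function.update s k (a :: s k)) := ⟨1, le_rfl, Exec.push k a s⟩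

theorem Run.pop (k : ℕ) (s : Stk) :
    Run (Cmd.pop k) s 1 (Function.update s k (s k).tail) := ⟨1, le_rfl, Exec.pop k s⟩

theorem Run.seq {p q : Cmd} {s s1 s2 : Stk} {B1 B2 : ℕ}
    (h1 : Run p s B1 s1) (h2 : Run q s1 B2 s2) :
    Run (Cmd.seq p q) s (B1 + B2 + 1) s2 := by
  obtain ⟨t1, ht1, h1⟩ := h1
  obtain ⟨t2, ht2, h2⟩ := h2
  exact ⟨t1 + t2 + 1, by omega, h1.seq h2⟩

theorem Run.ite_pos {k a : ℕ} {p q : Cmd} {s s1 : Stk} {B : ℕ}
    (hk : (s k).head? = some a) (h1 : Run p s B s1) :
    Run (Cmd.ite k a p q) s (B + 1) s1 := by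
  obtain ⟨t1, ht1, h1⟩ := h1
  exact ⟨t1 + 1, by omega, h1.ite_pos hk⟩

theorem Run.ite_neg {k a : ℕ} {p q : Cmd} {s s1 : Stk} {B : ℕ}
    (hk : (s k).head? ≠ some a) (h1 : Run q s B s1) :
    Run (Cmd.ite k a p q) s (B + 1) s1 := by
  obtain ⟨t1, ht1, h1⟩ := h1
  exact ⟨t1 + 1, by omega, h1.ite_neg hk⟩

theorem Run.wh_done {k a : ℕ} {p : Cmd} {s : Stk}
    (hk : (s k).head? = some a) : Run (Cmd.wh k a p) s 1 s :=
  ⟨1, le_rfl, Exec.wh_done hk⟩

theorem Run.wh_step {k a : ℕ} {p : Cmd} {s s1 s2 : Stk} {B1 B2 : ℕ}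
    (hk : (s k).head? ≠ some a) (h1 : Run p s B1 s1) (h2 : Run (Cmd.wh k a p) s1 B2 s2) :
    Run (Cmd.wh k a p) s (B1 + B2 + 1) s2 := by
  obtain ⟨t1, ht1, h1⟩ := h1
  obtain ⟨t2, ht2, h2⟩ := h2
  exact ⟨t1 + t2 + 1, by omega, h1.wh_step hk h2⟩

/-- uniqueness of final states: `Exec` is deterministic -/
theorem step_nil_iter (t : ℕ) (s : Stk) : step^[t] ([], s) = ([], s) := by
  induction t with
  | zero => rfl
  | succ n ih => rw [Function.iterate_succ_apply]; exact ih

theorem step_iter_of_exec {c : Cmd} {s s' : Stk} {t : ℕ} (h : Exec c s t s') (n : ℕ)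
    (hn : t ≤ n) : step^[n] ([c], s) = ([], s') := by
  obtain ⟨m, rfl⟩ := Nat.exists_eq_add_of_le hn
  rw [Nat.add_comm, Function.iterate_add_apply, h, step_nil_iter]

theorem Exec.unique {c : Cmd} {s s1 s2 : Stk} {t1 t2 : ℕ} (h1 : Exec c s t1 s1)
    (h2 : Exec c s t2 s2) : s1 = s2 := by
  have e1 := step_iter_of_exec h1 (max t1 t2) (le_max_left _ _)
  have e2 := step_iter_of_exec h2 (max t1 t2) (le_max_right _ _)
  have := e1.symm.trans e2
  exact (Prod.mk.inj this).2

/-- total height of the `k`-th stack grows by at most one per step -/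
theorem step_length (k : ℕ) (x : List Cmd × Stk) :
    ((step x).2 k).length ≤ (x.2 k).length + 1 := by
  obtain ⟨K, s⟩ := x
  cases K with
  | nil => simp [step]
  | cons c K =>
    cases c with
    | push j a =>
      simp only [step]
      by_cases h : k = j
      · subst h; simp
      · rw [Function.update_of_ne h]; omega
    | pop j =>
      simp only [step]
      by_cases h : k = j
      · subst h; simp; omega
      · rw [Function.update_of_ne h]; omega
    | seq p q => simp [step]
    | ite j a p q => simp only [step]; split_ifs <;> simp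
    | wh j a p => simp only [step]; split_ifs <;> simp

theorem step_iter_length (k t : ℕ) (x : List Cmd × Stk) :
    ((step^[t] x).2 k).length ≤ (x.2 k).length + t := by
  induction t generalizing x with
  | zero => simp
  | succ n ih =>
    rw [Function.iterate_succ_apply]
    have := ih (step x)
    have := step_length k x
    omega

theorem Exec.length_le {c : Cmd} {s s' : Stk} {t : ℕ} (h : Exec c s t s') (k : ℕ) :
    (s' k).length ≤ (s k).length + t := by
  have := step_iter_length k t ([c], s)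
  rw [h []] at this
  exact this

end Pool.Agent.Helper96
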