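import Pool.Agent.Helper96.PolyList
import Pool.Agent.Helper96.Defs

/-!
# Computing the closure of a set of facts under Horn rules in polynomial time
-/

set_option autoImplicit false
set_option linter.all false

namespace Pool.Agent.Helper96

/-- all lists of length `v` over `{0, …, n-1}` -/
def insts (n : ℕ) : ℕ → List (List ℕ)
  | 0 => [[]]
  | v + 1 => (insts n v).flatMap fun l => (List.range n).map fun x => x :: l

theorem mem_insts (n v : ℕ) (l : List ℕ) :
    l ∈ insts n v ↔ l.length = v ∧ ∀ x ∈ l, x < n := by
  induction v generalizing l with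
  | zero =>
    simp only [insts, List.mem_singleton]
    constructor
    · rintro rfl; simp
    · rintro ⟨h, _⟩; exact List.length_eq_zero_iff.1 h
  | succ v ih =>
    simp only [insts, List.mem_flatMap, List.mem_map, List.mem_range]
    constructor
    · rintro ⟨l', hl', x, hx, rfl⟩
      obtain ⟨h1, h2⟩ := (ih l').1 hl'
      refine ⟨by simp [h1], ?_⟩
      intro y hy
      rcases List.mem_cons.1 hy with rfl | hy
      · exact hx
      · exact h2 y hy
    · rintro ⟨h1, h2⟩
      cases l with
      | nil => simp at h1
      | cons x l =>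
        refine ⟨l, (ih l).2 ⟨by simpa using h1, fun y hy => h2 y (List.mem_cons_of_mem _ hy)⟩,
          x, h2 x List.mem_cons_self, rfl⟩

/-- instantiate an atom by a list of values -/
def instL (l : List ℕ) (a : Fact) : Fact := (a.1, l.getD a.2.1 0, l.getD a.2.2 0)

/-- all facts with relation number `< M` and elements `< n` -/
def univ (M n : ℕ) : List Fact :=
  (List.range M).flatMap fun r => (List.range n).flatMap fun x =>
    (List.range n).map fun y => (r, x, y)

theorem mem_univ (M n : ℕ) (f : Fact) :
    f ∈ univ M n ↔ f.1 < M ∧ f.2.1 < n ∧ f.2.2 < n := by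
  obtain ⟨r, x, y⟩ := f
  simp only [univ, List.mem_flatMap, List.mem_range, List.mem_map, Prod.mk.injEq]
  constructor
  · rintro ⟨r', hr, x', hx, y', hy, rfl, rfl, rfl⟩
    exact ⟨hr, hx, hy⟩
  · rintro ⟨hr, hx, hy⟩
    exact ⟨r, hr, x, hx, y, hy, rfl, rfl, rfl⟩

/-- is `f` the head of an instance of a rule with body in `F`? -/
def derivable (R : List Rule) (n : ℕ) (F : List Fact) (f : Fact) : Bool :=
  R.any fun ρ => (insts n 5).any fun l =>
    decide (instL l ρ.2 = f) && ρ.1.all fun a => decide (instL l a ∈ F)

/-- one round -/
def stepC (R : List Rule) (M n : ℕ) (F : List Fact) : List Fact :=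
  (univ M n).filter fun f => decide (f ∈ F) || derivable R n F f

/-- the closure -/
def closure (R : List Rule) (M n : ℕ) (B : List Fact) : List Fact :=
  (stepC R M n)^[(univ M n).length + 1] ((univ M n).filter fun f => decide (f ∈ B))

/-- rules with small relation numbers and variables -/
def RulesOK (R : List Rule) (M : ℕ) : Prop :=
  ∀ ρ ∈ R, (∀ a ∈ ρ.1, a.1 < M ∧ a.2.1 < 5 ∧ a.2.2 < 5) ∧ ρ.2.1 < M ∧ ρ.2.2.1 < 5 ∧ ρ.2.2.2 < 5

theorem mem_stepC (R : List Rule) (M n : ℕ) (F : List Fact) (f : Fact) :
    f ∈ stepC R M n F ↔ f ∈ univ M n ∧ (f ∈ F ∨ derivable R n F f = true) := by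
  simp [stepC]

theorem stepC_sub (R : List Rule) (M n : ℕ) (F : List Fact) (hF : ∀ f ∈ F, f ∈ univ M n) :
    ∀ f ∈ F, f ∈ stepC R M n F := fun f hf => (mem_stepC R M n F f).2 ⟨hF f hf, Or.inl hf⟩

/-- filters of a fixed list are ordered by inclusion -/
theorem filter_len {α : Type} (u : List α) (p q : α → Bool) (h : ∀ a ∈ u, p a = true → q a = true) :
    u.filter p = u.filter q ∨ (u.filter p).length < (u.filter q).length := by
  induction u with
  | nil => left; rfl
  | cons a u ih =>
    have ih' := ih (fun b hb => h b (List.mem_cons_of_mem _ hb))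
    have ha := h a List.mem_cons_self
    cases hp : p a with
    | true =>
      have hq := ha hp
      rw [List.filter_cons_of_pos hp, List.filter_cons_of_pos hq]
      rcases ih' with h1 | h1
      · left; rw [h1]
      · right; simpa using h1
    | false =>
      rw [List.filter_cons_of_neg (by simp [hp])]
      cases hq : q a with
      | true =>
        rw [List.filter_cons_of_pos hq]
        right
        rcases ih' with h1 | h1
        · rw [h1]; simp
        · simp; omega
      | false =>
        rw [List.filter_cons_of_neg (by simp [hq])]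
        exact ih'

/-- the states are filters of the universe -/
def IsFilt (M n : ℕ) (F : List Fact) : Prop := F = (univ M n).filter fun f => decide (f ∈ F)

theorem isFilt_filter (M n : ℕ) (p : Fact → Bool) : IsFilt M n ((univ M n).filter p) := by
  unfold IsFilt
  apply List.filter_congr
  intro f hf
  simp [hf]

theorem isFilt_stepC (R : List Rule) (M n : ℕ) (F : List Fact) : IsFilt M n (stepC R M n F) :=
  isFilt_filter M n _

theorem stepC_progress (R : List Rule) (M n : ℕ) (F : List Fact) (hF : IsFilt M n F) :
    stepC R M n F = F ∨ F.length < (stepC R M n F).length := by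
  have h := filter_len (univ M n) (fun f => decide (f ∈ F))
    (fun f => decide (f ∈ F) || derivable R n F f) (by intro a _ h; simp at h; simp [h])
  rw [← hF] at h
  rcases h with h | h
  · left; exact h.symm
  · right; exact h

theorem iter_isFilt (R : List Rule) (M n : ℕ) (F : List Fact) (hF : IsFilt M n F) (i : ℕ) :
    IsFilt M n ((stepC R M n)^[i] F) := by
  cases i with
  | zero => exact hF
  | succ i => rw [Function.iterate_succ_apply']; exact isFilt_stepC R M n _

theorem isFilt_length (M n : ℕ) (F : List Fact) (hF : IsFilt M n F) :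
    F.length ≤ (univ M n).length := by
  rw [hF]; exact List.length_filter_le _ _

theorem iter_progress (R : List Rule) (M n : ℕ) (F : List Fact) (hF : IsFilt M n F) (i : ℕ) :
    stepC R M n ((stepC R M n)^[i] F) = (stepC R M n)^[i] F ∨
      i < ((stepC R M n)^[i + 1] F).length := by
  induction i with
  | zero =>
    rcases stepC_progress R M n F hF with h | h
    · left; exact h
    · right
      have e : (stepC R M n)^[0 + 1] F = stepC R M n F := rfl
      rw [e]; omega
  | succ i ih =>
    rcases ih with h | h
    · left
      rw [Function.iterate_succ_apply', h, h]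
    · rcases stepC_progress R M n _ (iter_isFilt R M n F hF (i + 1)) with h' | h'
      · left; exact h'
      · right
        rw [Function.iterate_succ_apply' (n := i + 1)]
        omega

theorem closure_stable (R : List Rule) (M n : ℕ) (B : List Fact) :
    stepC R M n (closure R M n B) = closure R M n B := by
  have hF := isFilt_filter M n (fun f => decide (f ∈ B))
  rcases iter_progress R M n _ hF ((univ M n).length + 1) with h | h
  · exact h
  · have := isFilt_length M n _ (iter_isFilt R M n _ hF ((univ M n).length + 1 + 1))
    omega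

theorem base_sub_closure (R : List Rule) (M n : ℕ) (B : List Fact) (hB : ∀ f ∈ B, f ∈ univ M n) :
    ∀ f ∈ B, f ∈ closure R M n B := by
  intro f hf
  unfold closure
  have key : ∀ i, f ∈ (stepC R M n)^[i] ((univ M n).filter fun f => decide (f ∈ B)) := by
    intro i
    induction i with
    | zero => simp [hf, hB f hf]
    | succ i ih =>
      rw [Function.iterate_succ_apply']
      exact (mem_stepC R M n _ f).2 ⟨hB f hf, Or.inl ih⟩
  exact key _

theorem instL_eq_inst (σ : ℕ → ℕ) (l : List ℕ) (hl : ∀ v < 5, l.getD v 0 = σ v) (a : Fact)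
    (ha : a.2.1 < 5 ∧ a.2.2 < 5) : instL l a = inst σ a := by
  simp [instL, inst, -List.getD_eq_getElem?_getD, hl _ ha.1, hl _ ha.2]

theorem mem_closure (R : List Rule) (M n : ℕ) (B : List Fact) (hR : RulesOK R M)
    (hB : ∀ f ∈ B, f ∈ univ M n) (f : Fact) :
    f ∈ closure R M n B ↔ Der R n {f | f ∈ B} f := by
  constructor
  · -- soundness
    have key : ∀ i, ∀ f ∈ (stepC R M n)^[i] ((univ M n).filter fun f => decide (f ∈ B)),
        Der R n {f | f ∈ B} f := by
      intro i
      induction i with
      | zero =>
        intro f hf
        simp only [Function.iterate_zero, id_eq, List.mem_filter, decide_eq_true_eq] at hf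
        exact Der.base hf.2
      | succ i ih =>
        intro f hf
        rw [Function.iterate_succ_apply'] at hf
        rcases (mem_stepC R M n _ f).1 hf with ⟨_, h | h⟩
        · exact ih f h
        · simp only [derivable, List.any_eq_true, Bool.and_eq_true, decide_eq_true_eq,
            List.all_eq_true] at h
          obtain ⟨ρ, hρ, l, hl, h1, h2⟩ := h
          obtain ⟨hl1, hl2⟩ := (mem_insts n 5 l).1 hl
          have hσ : ∀ v, (fun v => l.getD v 0) v < n := by
            intro v
            by_cases hv : v < l.length
            · have : l.getD v 0 = l[v] := List.getD_eq_getElem _ _ hv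
              simp only [this]
              exact hl2 _ (List.getElem_mem hv)
            · have h0 : 0 < l.length := by omega
              have : l.getD v 0 = 0 := List.getD_eq_default _ _ (by omega)
              simp only [this]
              exact Nat.lt_of_le_of_lt (Nat.zero_le _) (hl2 _ (List.getElem_mem h0))
          have := Der.rule (R := R) (n := n) (B := {f | f ∈ B}) hρ (fun v => l.getD v 0) hσ
            (fun a ha => ih _ (h2 a ha))
          have e : inst (fun v => l.getD v 0) ρ.2 = f := h1
          rwa [e] at this
    exact key _ f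
  · -- completeness
    intro h
    induction h with
    | base hf => exact base_sub_closure R M n B hB _ hf
    | @rule ρ hρ σ hσ _ ih =>
      rw [← closure_stable]
      obtain ⟨h1, h2, h3, h4⟩ := hR ρ hρ
      refine (mem_stepC R M n _ _).2 ⟨(mem_univ M n _).2 ⟨h2, hσ _, hσ _⟩, Or.inr ?_⟩
      set l : List ℕ := [σ 0, σ 1, σ 2, σ 3, σ 4] with hl
      have hlσ : ∀ v < 5, l.getD v 0 = σ v := by
        intro v hv
        interval_cases v <;> simp [hl]
      simp only [derivable, List.any_eq_true, Bool.and_eq_true, decide_eq_true_eq,
        List.all_eq_true]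
      refine ⟨ρ, hρ, l, (mem_insts n 5 l).2 ⟨by simp [hl], ?_⟩, ?_, ?_⟩
      · intro x hx
        simp only [hl, List.mem_cons, List.not_mem_nil, or_false] at hx
        rcases hx with rfl | rfl | rfl | rfl | rfl <;> exact hσ _
      · exact instL_eq_inst σ l hlσ ρ.2 ⟨h3, h4⟩
      · intro a ha
        rw [instL_eq_inst σ l hlσ a ⟨(h1 a ha).2.1, (h1 a ha).2.2⟩]
        exact ih a ha

theorem closure_sub_univ (R : List Rule) (M n : ℕ) (B : List Fact) :
    ∀ f ∈ closure R M n B, f ∈ univ M n := by
  intro f hf
  have := iter_isFilt R M n _ (isFilt_filter M n (fun f => decide (f ∈ B)))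
    ((univ M n).length + 1)
  unfold closure at hf
  rw [this] at hf
  exact (List.mem_filter.1 hf).1

/-! ### polynomial time -/

section
variable {α : Type} [Enc α]

@[fun_prop]
theorem Poly.insts {f : α → ℕ} (hf : Poly f) (v : ℕ) : Poly (fun a => insts (f a) v) := by
  induction v with
  | zero => simp only [Helper96.insts]; fun_prop
  | succ v ih => simp only [Helper96.insts]; fun_prop

@[fun_prop]
theorem Poly.univ {f : α → ℕ} (hf : Poly f) (M : ℕ) : Poly (fun a => univ M (f a)) := by
  unfold Helper96.univ; fun_prop

@[fun_prop]
theorem Poly.instL {f : α → List ℕ} {g : α → Fact} (hf : Poly f) (hg : Poly g) :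
    Poly (fun a => instL (f a) (g a)) := by
  unfold Helper96.instL; fun_prop

theorem Poly.derivable (R : List Rule) :
    Poly (fun q : (ℕ × List Fact) × Fact => derivable R q.1.1 q.1.2 q.2) := by
  unfold Helper96.derivable
  refine Poly.any (Poly.const R) (Poly.any (by fun_prop) (Poly.and (by fun_prop) ?_))
  refine Poly.all (by fun_prop) ?_
  fun_prop

theorem Poly.stepC (R : List Rule) (M : ℕ) :
    Poly (fun q : ℕ × List Fact => stepC R M q.1 q.2) := by
  unfold Helper96.stepC
  exact Poly.filter (by fun_prop) (Poly.or (by fun_prop) (Poly.derivable R))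

theorem Poly.closure (R : List Rule) (M : ℕ) :
    Poly (fun q : ℕ × List Fact => closure R M q.1 q.2) := by
  obtain ⟨B, hB, hm, hs⟩ := (Poly.univ (Poly.id' (α := ℕ)) M).szPB
  unfold Helper96.closure
  refine Poly.iterate (n := fun q : ℕ × List Fact => (Helper96.univ M q.1).length + 1)
    (g := fun q : ℕ × List Fact => (Helper96.univ M q.1).filter fun f => decide (f ∈ q.2))
    (h := fun (q : ℕ × List Fact) F => Helper96.stepC R M q.1 F) (by fun_prop) (by fun_prop)
    (Poly.comp (g := fun q : ℕ × List Fact => Helper96.stepC R M q.1 q.2)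
      (f := fun q : (ℕ × List Fact) × List Fact => (q.1.1, q.2)) (Poly.stepC R M) (by fun_prop))
    B hB ?_
  intro q i _
  have := iter_isFilt R M q.1 _ (isFilt_filter M q.1 (fun f => decide (f ∈ q.2))) i
  have h1 : sz ((Helper96.stepC R M q.1)^[i]
      ((Helper96.univ M q.1).filter fun f => decide (f ∈ q.2))) ≤ sz (Helper96.univ M q.1) := by
    rw [this]
    exact sz_sublist_le List.filter_sublist
  refine h1.trans ((hs q.1).trans (hm ?_))
  obtain ⟨n, F⟩ := q
  rw [sz_prod]; simp only; omega

end

end Pool.Agent.Helper96
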