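import Pool.Agent.Helper96.InstSpec
import Pool.Agent.Helper69.TM.Equiv
import Pool.Agent.Helper4.CspVerifier
import Pool.Agent.Helper40.CspStatus
import Pool.Agent.Helper40.CspWord

/-!
# Assembly
-/

set_option autoImplicit false
set_option linter.all false

namespace Pool.Agent.Helper96

open T Function

theorem encStr_mem_csp {K n : ℕ} (B : BinStr K (Fin n)) (A : BinStr K ℕ) :
    encStr B ∈ CSP A ↔ ∃ h, IsHom B A h := by
  constructor
  · rintro ⟨n', B', h, hB⟩
    obtain ⟨l, hl, hB1⟩ := parseStr_encStr B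
    obtain ⟨l', hl', hB2⟩ := parseStr_encStr B'
    rw [← hB, hl] at hl'
    simp only [Option.some.injEq, Prod.mk.injEq] at hl'
    obtain ⟨rfl, rfl⟩ := hl'
    rw [← hB1, hB2]
    exact h
  · intro h
    exact ⟨n, B, h, rfl⟩

theorem exists_iteration {τ : ℕ → ℕ} (hτ : StrictMono τ) {k' N m1 m2 : ℕ}
    (hb : ∀ m, τ m ≤ (m + 2) ^ k') (h1 : (m1 + 2) ^ k' < N) (h2 : N ≤ m2) :
    ∃ m, m1 ≤ m ∧ m < m2 ∧ τ m ≤ N - 1 ∧ N - 1 < τ (m + 1) := by
  by_contra hcon
  have hid : ∀ m, m ≤ τ m := fun m => hτ.le_apply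
  have key : ∀ d, τ (m1 + d) ≤ N - 1 := by
    intro d
    induction d with
    | zero =>
      have := hb m1
      simp only [Nat.add_zero]
      omega
    | succ d ih =>
      by_contra h3
      refine hcon ⟨m1 + d, by omega, ?_, ih, ?_⟩
      · have := hid (m1 + d)
        omega
      · have e : m1 + (d + 1) = m1 + d + 1 := by ring
        rw [e] at h3
        omega
  have h3 := key N
  have h4 := hid (m1 + N)
  omega

theorem inNP_of_inP {L : Set (List Bool)} (h : InP L) : InNP L := by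
  obtain ⟨f, hf, hf'⟩ := (Pool.Agent.Helper69.inP_iff L).1 h
  refine (Pool.Agent.Helper69.inNP_iff L).2 ⟨fun q => f q.1, 0, by fun_prop, fun w => ?_⟩
  rw [← hf' w]
  constructor
  · intro hw
    exact ⟨[], by simp, hw⟩
  · rintro ⟨_, _, hw⟩
    exact hw

/-- the main theorem -/
theorem main (hne : {L : Set (List Bool) | InP L} ≠ {L : Set (List Bool) | InNP L}) :
    ∃ (k : ℕ) (A : BinStr k ℕ), FinitelyBounded A ∧ NPIntermediate (CSP A) := by
  obtain ⟨K0, hK0, hK0'⟩ : ∃ K0 : Set (List Bool), InNP K0 ∧ ¬ InP K0 := by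
    by_contra hcon
    apply hne
    ext L
    simp only [Set.mem_setOf_eq]
    constructor
    · exact inNP_of_inP
    · intro hL
      by_contra hL'
      exact hcon ⟨L, hL, hL'⟩
  have hnot : ¬ ∃ f : List Bool → Bool, Poly f ∧ ∀ w, f w = true ↔ w ∈ K0 :=
    fun h => hK0' ((Pool.Agent.Helper69.inP_iff K0).2 h)
  obtain ⟨R, k, hR, hK⟩ := (Pool.Agent.Helper69.inNP_iff K0).1 hK0
  obtain ⟨GV, iniV, acc, Nf, hGV, hini, hNf, hNf', hver⟩ :=
    Pool.Agent.Helper4.exists_verifier hR hK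
  obtain ⟨nxt, st, hnxt, hst, hsz, hon, hoff⟩ := exists_machine (ι := CI) (len := lenI)
    (chk := chkI ⟨3, GV, iniV, acc⟩) (dI := decI) hR hK hnot hNf hNf' Poly.lenI
    (Poly.chkI _) Poly.decI decI_enc
  obtain ⟨GZ, z0, onZ, τ, k', hGZ, hz0, hτ, hτb, hstat⟩ :=
    Pool.Agent.Helper40.Csp.exists_status (σ := St) (nxt := nxt) (flag := fun s => s.1) (st 0)
      hnxt (by fun_prop) st rfl hst ⟨6, hsz⟩
  let D : TD := ⟨3, GZ, z0, onZ, GV, iniV, acc⟩
  have hD : D.WF := ⟨hGZ, hGV, hz0, hini⟩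
  obtain ⟨A, hA, hT⟩ := Pool.Agent.Helper84.CspTemplate.exists_template D hD
  have hstatus : ∀ N m1 m2 b, (m1 + 2) ^ k' < N → N ≤ m2 →
      (∀ i, m1 ≤ i → i < m2 → (st i).1 = b) →
      D.onZ (D.GZ.cell (fun _ => D.z0) (N - 1) 0) = b := by
    intro N m1 m2 b h1 h2 h3
    obtain ⟨m, h4, h5, h6, h7⟩ := exists_iteration hτ hτb h1 h2
    rw [← h3 m h4 h5]
    exact hstat m (N - 1) h6 h7
  refine ⟨D.K, A, hA, ?_, ?_, ?_⟩
  · exact (Pool.Agent.Helper69.inNP_iff _).2 ⟨cspV D, 1, Poly.cspV D, cspV_spec hD hT⟩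
  · intro hP
    obtain ⟨f, hf, hf'⟩ := (Pool.Agent.Helper69.inP_iff _).1 hP
    have hw := Pool.Agent.Helper40.Csp.poly_word D hNf
    obtain ⟨x, m1, m2, h1, h2, h3, h4⟩ := hon
      (fun x => f (encStr (Pool.Agent.Helper69.wordStr D (Nf x)
        (Pool.Agent.Helper4.letters x)))) (hf.comp hw) k'
    apply h4
    have hs := hstatus (Nf x) m1 m2 true h1 h2 h3
    have hlet : ∀ i, Pool.Agent.Helper4.letters x i < D.nl := by
      intro i
      show Pool.Agent.Helper4.letters x i < 3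
      unfold Pool.Agent.Helper4.letters
      cases hc : (T.code (enc x))[i]? with
      | none => simp
      | some a =>
        have ha := List.mem_of_getElem? hc
        rcases code_mem _ a ha with rfl | rfl <;> simp
    have hN1 : 1 ≤ Nf x := by have := hNf' x; omega
    have hword := Pool.Agent.Helper69.word_csp hD hN1 hlet hs
    rw [hf', encStr_mem_csp, hT, hword, hver x]
  · rintro ⟨_, hc⟩
    obtain ⟨h, hpoly, hred⟩ := hc K0 hK0
    have hh := (Pool.Agent.Helper69.polyTimeFun_iff h).1 hpoly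
    obtain ⟨x, hx⟩ := hoff (fun x => instW D (h x))
      (Poly.comp (g := instW D) (Poly.instW D) hh) k'
    rcases hx with ⟨I, hI, m1, m2, h1, h2, h3⟩ | hx
    · have hs := hstatus (lenI I) m1 m2 false h1 h2 h3
      obtain ⟨_, _, h6⟩ := instW_spec hD hT (h x)
      rcases h6 I hI with h7 | h7
      · have : lenI I = 0 := by unfold lenI; rw [h7]; rfl
        omega
      · unfold lenI at hs
        rw [h7] at hs
        exact absurd hs (by simp)
    · exact hx ((instW_iff hD hT (h x)).symm.trans (hred x).symm)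

end Pool.Agent.Helper96
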