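import Pool.Agent.Helper96.Parse
import Pool.Agent.Helper96.Engine
import Pool.Agent.Helper96.Univ
import Pool.Agent.Helper84.CspClosure
import Pool.Agent.Helper69.GridSim

/-!
# The conjunctive instances of a structure
-/

set_option autoImplicit false
set_option linter.all false

namespace Pool.Agent.Helper96

open T Function
open Pool.Agent.Helper84.CspClosure (Bd)

/-! ### the rules of the verifier side -/

/-- the data of the verifier side -/
structure VD where
  nl : ℕ
  GV : GA
  iniV : ℕ → ℕ → ℕ
  acc : ℕ → Bool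

/-- the verifier side of a template -/
def TD.vd (D : TD) : VD := ⟨D.nl, D.GV, D.iniV, D.acc⟩

namespace VD

/-- number of relation numbers -/
def MV (V : VD) : ℕ := 12 + V.nl + V.GV.m

/-- relation numbers of cells -/
def eV (V : VD) (z : ℕ) : ℕ := 12 + V.nl + z

/-- the rules -/
def rules (V : VD) : List Rule :=
  TD.baseRules ++
  (((List.range V.nl).flatMap fun a => (List.range 2).map fun c =>
    (([(eI, 0, 1), (eY c, 1, 1), (eLet a, 1, 1)], (V.eV (V.iniV a c), 0, 1)) : Rule)) ++
  ((((List.range V.GV.m).filter fun z => !V.acc z).map fun z =>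
    (([(V.eV z, 0, 1), (eE, 0, 0), (eF, 1, 1)], (eBOT, 0, 0)) : Rule)) ++
  (TD.gaRules V.GV V.eV ++
  ([([], (eEQ, 0, 0)), ([(eEQ, 0, 1)], (eEQ, 1, 0))] ++
  ((List.range V.MV).flatMap fun r =>
    [([(r, 0, 1), (eEQ, 0, 2)], (r, 2, 1)), ([(r, 0, 1), (eEQ, 1, 2)], (r, 0, 2))])))))

/-- well-formedness -/
structure WF (V : VD) : Prop where
  closed : V.GV.Closed
  ini_lt : ∀ a < V.nl, ∀ c < 2, V.iniV a c < V.GV.m

/-- relation numbers of facts that depend on certificates -/
def isV (V : VD) (r : ℕ) : Prop := r = 1 ∨ r = 10 ∨ r = 11 ∨ (12 + V.nl ≤ r ∧ r < V.MV)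

end VD

theorem vd_WF {D : TD} (hD : D.WF) : D.vd.WF := ⟨hD.closedV, hD.iniV_lt⟩

/-- shape of the rules of a grid automaton -/
theorem gaRules_ok {G : GA} (hG : G.Closed) (e : ℕ → ℕ) (P : ℕ → Prop) (he : ∀ z < G.m, P (e z))
    (hs : P eF ∧ P eS) : ∀ ρ ∈ TD.gaRules G e, (∀ a ∈ ρ.1, P a.1 ∧ a.2.1 < 5 ∧ a.2.2 < 5) ∧
      P ρ.2.1 ∧ ρ.2.2.1 < 5 ∧ ρ.2.2.2 < 5 := by
  intro ρ hρ
  unfold TD.gaRules at hρ
  simp only [List.mem_append, List.mem_flatMap, List.mem_map, List.mem_range] at hρ
  rcases hρ with ⟨b, hb, c, hc, rfl⟩ | ⟨a, ha, b, hb, c, hc, d, hd, rfl⟩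
  · refine ⟨?_, he _ (hG.1 b hb c hc), by simp, by simp⟩
    intro a ha
    simp only [List.mem_cons, List.not_mem_nil, or_false] at ha
    rcases ha with rfl | rfl | rfl | rfl | rfl <;> simp [he, hb, hc, hs.1, hs.2]
  · refine ⟨?_, he _ (hG.2 a ha b hb c hc d hd), by simp, by simp⟩
    intro a' ha'
    simp only [List.mem_cons, List.not_mem_nil, or_false] at ha'
    rcases ha' with rfl | rfl | rfl | rfl | rfl | rfl | rfl <;>
      simp [he, ha, hb, hc, hd, hs.1, hs.2]

theorem base_ok : ∀ ρ ∈ TD.baseRules, (∀ a ∈ ρ.1, a.1 < 12 ∧ a.2.1 < 5 ∧ a.2.2 < 5) ∧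
      ρ.2.1 < 12 ∧ ρ.2.2.1 < 5 ∧ ρ.2.2.2 < 5 := by decide

theorem base_V : ∀ ρ ∈ TD.baseRules, (∀ a ∈ ρ.1, a.1 ≠ 1 ∧ a.1 < 10) ∧ ρ.2.1 < 10 := by
  decide

theorem VD.rulesOK {V : VD} (hV : V.WF) : RulesOK V.rules V.MV := by
  intro ρ hρ
  unfold VD.rules at hρ
  simp only [List.mem_append] at hρ
  rcases hρ with h | h | h | h | h | h
  · obtain ⟨h1, h2, h3⟩ := base_ok ρ h
    refine ⟨fun a ha => ⟨lt_of_lt_of_le (h1 a ha).1 (by unfold VD.MV; omega), (h1 a ha).2⟩,
      lt_of_lt_of_le h2 (by unfold VD.MV; omega), h3⟩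
  · simp only [List.mem_flatMap, List.mem_map, List.mem_range] at h
    obtain ⟨a, ha, c, hc, rfl⟩ := h
    have h1 := hV.ini_lt a ha c hc
    refine ⟨?_, by simp only [VD.eV, VD.MV]; omega, by simp, by simp⟩
    intro b hb
    simp only [List.mem_cons, List.not_mem_nil, or_false] at hb
    rcases hb with rfl | rfl | rfl
    · simp only [VD.MV, eI]; omega
    · simp only [VD.MV, eY]; omega
    · simp only [VD.MV, eLet]; omega
  · simp only [List.mem_map, List.mem_filter, List.mem_range] at h
    obtain ⟨z, ⟨hz, _⟩, rfl⟩ := h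
    refine ⟨?_, by simp only [VD.MV, eBOT]; omega, by simp, by simp⟩
    intro b hb
    simp only [List.mem_cons, List.not_mem_nil, or_false] at hb
    rcases hb with rfl | rfl | rfl
    · simp only [VD.MV, VD.eV]; omega
    · simp only [VD.MV, eE]; omega
    · simp only [VD.MV, eF]; omega
  · exact gaRules_ok hV.closed V.eV (fun r => r < V.MV)
      (fun z hz => by simp only [VD.MV, VD.eV]; omega)
      ⟨by simp only [VD.MV, eF]; omega, by simp only [VD.MV, eS]; omega⟩ ρ h
  · simp only [List.mem_cons, List.not_mem_nil, or_false] at h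
    rcases h with rfl | rfl
    · refine ⟨by simp, by simp only [VD.MV, eEQ]; omega, by simp, by simp⟩
    · refine ⟨?_, by simp only [VD.MV, eEQ]; omega, by simp, by simp⟩
      intro b hb
      simp only [List.mem_cons, List.not_mem_nil, or_false] at hb
      subst hb
      simp only [VD.MV, eEQ]; omega
  · simp only [List.mem_flatMap, List.mem_range] at h
    obtain ⟨r, hr, h⟩ := h
    simp only [List.mem_cons, List.not_mem_nil, or_false] at h
    have hm : 0 < V.MV := by unfold VD.MV; omega
    rcases h with rfl | rfl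
    · refine ⟨?_, hr, by simp, by simp⟩
      intro b hb
      simp only [List.mem_cons, List.not_mem_nil, or_false] at hb
      rcases hb with rfl | rfl
      · exact ⟨hr, by simp, by simp⟩
      · exact ⟨hm, by simp, by simp⟩
    · refine ⟨?_, hr, by simp, by simp⟩
      intro b hb
      simp only [List.mem_cons, List.not_mem_nil, or_false] at hb
      rcases hb with rfl | rfl
      · exact ⟨hr, by simp, by simp⟩
      · exact ⟨hm, by simp, by simp⟩

theorem TD.rulesOK {D : TD} (hD : D.WF) : RulesOK D.rules D.M := by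
  intro ρ hρ
  unfold TD.rules TD.coreRules TD.dataRules TD.eqRules at hρ
  simp only [List.mem_append] at hρ
  rcases hρ with (((h | (((h | h) | h) | h)) | h) | h) | h | h
  · obtain ⟨h1, h2, h3⟩ := base_ok ρ h
    refine ⟨fun a ha => ⟨lt_of_lt_of_le (h1 a ha).1 (by unfold TD.M; omega), (h1 a ha).2⟩,
      lt_of_lt_of_le h2 (by unfold TD.M; omega), h3⟩
  · simp only [List.mem_cons, List.not_mem_nil, or_false] at h
    subst h
    have := hD.z0_lt
    refine ⟨?_, by simp only [TD.M, TD.eZ]; omega, by simp, by simp⟩
    intro b hb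
    simp only [List.mem_cons, List.not_mem_nil, or_false] at hb
    subst hb
    simp only [TD.M, eI]; omega
  · simp only [List.mem_flatMap, List.mem_map, List.mem_range] at h
    obtain ⟨a, ha, c, hc, rfl⟩ := h
    have h1 := hD.iniV_lt a ha c hc
    refine ⟨?_, by simp only [TD.eV, TD.M]; omega, by simp, by simp⟩
    intro b hb
    simp only [List.mem_cons, List.not_mem_nil, or_false] at hb
    rcases hb with rfl | rfl | rfl
    · simp only [TD.M, eI]; omega
    · simp only [TD.M, eY]; omega
    · simp only [TD.M, eLet]; omega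
  · simp only [List.mem_map, List.mem_range] at h
    obtain ⟨z, hz, rfl⟩ := h
    refine ⟨?_, ?_, by simp, by simp⟩
    · intro b hb
      simp only [List.mem_cons, List.not_mem_nil, or_false] at hb
      rcases hb with rfl | rfl | rfl
      · simp only [TD.M, TD.eZ]; omega
      · simp only [TD.M, eE]; omega
      · simp only [TD.M, eF]; omega
    · cases D.onZ z <;> simp only [TD.M, cond_true, cond_false, eOn, eOff] <;> omega
  · simp only [List.mem_map, List.mem_filter, List.mem_range] at h
    obtain ⟨z, ⟨hz, _⟩, rfl⟩ := h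
    refine ⟨?_, by simp only [TD.M, eBOT]; omega, by simp, by simp⟩
    intro b hb
    simp only [List.mem_cons, List.not_mem_nil, or_false] at hb
    rcases hb with rfl | rfl | rfl
    · simp only [TD.M, TD.eV]; omega
    · simp only [TD.M, eE]; omega
    · simp only [TD.M, eF]; omega
  · exact gaRules_ok hD.closedZ D.eZ (fun r => r < D.M)
      (fun z hz => by simp only [TD.M, TD.eZ]; omega)
      ⟨by simp only [TD.M, eF]; omega, by simp only [TD.M, eS]; omega⟩ ρ h
  · exact gaRules_ok hD.closedV D.eV (fun r => r < D.M)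
      (fun z hz => by simp only [TD.M, TD.eV]; omega)
      ⟨by simp only [TD.M, eF]; omega, by simp only [TD.M, eS]; omega⟩ ρ h
  · simp only [List.mem_cons, List.not_mem_nil, or_false] at h
    rcases h with rfl | rfl
    · refine ⟨by simp, by simp only [TD.M, eEQ]; omega, by simp, by simp⟩
    · refine ⟨?_, by simp only [TD.M, eEQ]; omega, by simp, by simp⟩
      intro b hb
      simp only [List.mem_cons, List.not_mem_nil, or_false] at hb
      subst hb
      simp only [TD.M, eEQ]; omega
  · simp only [List.mem_flatMap, List.mem_range] at h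
    obtain ⟨r, hr, h⟩ := h
    simp only [List.mem_cons, List.not_mem_nil, or_false] at h
    have hm : 0 < D.M := by unfold TD.M; omega
    rcases h with rfl | rfl
    · refine ⟨?_, hr, by simp, by simp⟩
      intro b hb
      simp only [List.mem_cons, List.not_mem_nil, or_false] at hb
      rcases hb with rfl | rfl
      · exact ⟨hr, by simp, by simp⟩
      · exact ⟨hm, by simp, by simp⟩
    · refine ⟨?_, hr, by simp, by simp⟩
      intro b hb
      simp only [List.mem_cons, List.not_mem_nil, or_false] at hb
      rcases hb with rfl | rfl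
      · exact ⟨hr, by simp, by simp⟩
      · exact ⟨hm, by simp, by simp⟩

/-- the verifier rules are rules of the template -/
theorem vrules_sub (D : TD) : ∀ ρ ∈ D.vd.rules, ρ ∈ D.rules := by
  intro ρ hρ
  unfold VD.rules at hρ
  unfold TD.rules TD.coreRules TD.dataRules TD.eqRules
  simp only [List.mem_append] at hρ ⊢
  rcases hρ with h | h | h | h | h | h
  · exact Or.inl (Or.inl (Or.inl (Or.inl h)))
  · exact Or.inl (Or.inl (Or.inl (Or.inr (Or.inl (Or.inl (Or.inr h))))))
  · exact Or.inl (Or.inl (Or.inl (Or.inr (Or.inr h))))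
  · exact Or.inl (Or.inr h)
  · exact Or.inr (Or.inl h)
  · right
    right
    simp only [List.mem_flatMap, List.mem_range] at h ⊢
    obtain ⟨r, hr, h⟩ := h
    refine ⟨r, ?_, h⟩
    have e : D.vd.MV = 12 + D.nl + D.GV.m := rfl
    unfold TD.M
    omega

/-- every rule either is free of certificate atoms or belongs to the verifier side -/
theorem rules_classify {D : TD} (hD : D.WF) : ∀ ρ ∈ D.rules,
    (¬ D.vd.isV ρ.2.1 ∧ ∀ a ∈ ρ.1, ¬ D.vd.isV a.1) ∨ (D.vd.isV ρ.2.1 ∧ ρ ∈ D.vd.rules) := by
  intro ρ hρ
  have eM : D.vd.MV = 12 + D.nl + D.GV.m := rfl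
  have enl : D.vd.nl = D.nl := rfl
  have hsmall : ∀ r, r ≠ 1 → r < 10 → ¬ D.vd.isV r := by
    intro r h1 h2 h3
    unfold VD.isV at h3
    omega
  have hbig : ∀ z, ¬ D.vd.isV (D.eZ z) := by
    intro z h3
    unfold VD.isV at h3
    rw [eM, enl] at h3
    unfold TD.eZ at h3
    omega
  have hVe : ∀ z < D.GV.m, D.vd.isV (D.eV z) := by
    intro z hz
    unfold VD.isV
    rw [eM, enl]
    unfold TD.eV
    omega
  unfold TD.rules TD.coreRules TD.dataRules TD.eqRules at hρ
  simp only [List.mem_append] at hρ
  rcases hρ with (((h | (((h | h) | h) | h)) | h) | h) | h | h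
  · obtain ⟨h1, h2⟩ := base_V ρ h
    by_cases h3 : ρ.2.1 = 1
    · right
      refine ⟨Or.inl h3, ?_⟩
      unfold VD.rules
      exact List.mem_append_left _ h
    · left
      exact ⟨hsmall _ h3 h2, fun a ha => hsmall _ (h1 a ha).1 (h1 a ha).2⟩
  · simp only [List.mem_cons, List.not_mem_nil, or_false] at h
    subst h
    left
    refine ⟨hbig _, ?_⟩
    intro b hb
    simp only [List.mem_cons, List.not_mem_nil, or_false] at hb
    subst hb
    exact hsmall _ (by decide) (by decide)
  · right
    have h' := h
    simp only [List.mem_flatMap, List.mem_map, List.mem_range] at h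
    obtain ⟨a, ha, c, hc, rfl⟩ := h
    refine ⟨hVe _ (hD.iniV_lt a ha c hc), ?_⟩
    unfold VD.rules
    exact List.mem_append_right _ (List.mem_append_left _ h')
  · left
    simp only [List.mem_map, List.mem_range] at h
    obtain ⟨z, hz, rfl⟩ := h
    refine ⟨?_, ?_⟩
    · cases D.onZ z
      · exact hsmall eOff (by decide) (by decide)
      · exact hsmall eOn (by decide) (by decide)
    · intro b hb
      simp only [List.mem_cons, List.not_mem_nil, or_false] at hb
      rcases hb with rfl | rfl | rfl
      · exact hbig _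
      · exact hsmall _ (by decide) (by decide)
      · exact hsmall _ (by decide) (by decide)
  · right
    have h' := h
    simp only [List.mem_map, List.mem_filter, List.mem_range] at h
    obtain ⟨z, ⟨hz, _⟩, rfl⟩ := h
    refine ⟨Or.inl rfl, ?_⟩
    unfold VD.rules
    exact List.mem_append_right _ (List.mem_append_right _ (List.mem_append_left _ h'))
  · left
    have := gaRules_ok hD.closedZ D.eZ (fun r => ¬ D.vd.isV r) (fun z _ => hbig z)
      ⟨hsmall _ (by decide) (by decide), hsmall _ (by decide) (by decide)⟩ ρ h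
    exact ⟨this.2.1, fun a ha => (this.1 a ha).1⟩
  · right
    have h' := h
    refine ⟨?_, ?_⟩
    · unfold TD.gaRules at h
      simp only [List.mem_append, List.mem_flatMap, List.mem_map, List.mem_range] at h
      rcases h with ⟨b, hb, c, hc, rfl⟩ | ⟨a, ha, b, hb, c, hc, d, hd, rfl⟩
      · exact hVe _ (hD.closedV.1 b hb c hc)
      · exact hVe _ (hD.closedV.2 a ha b hb c hc d hd)
    · unfold VD.rules
      exact List.mem_append_right _ (List.mem_append_right _ (List.mem_append_right _
        (List.mem_append_left _ h')))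
  · left
    simp only [List.mem_cons, List.not_mem_nil, or_false] at h
    rcases h with rfl | rfl
    · exact ⟨hsmall _ (by decide) (by decide), by simp⟩
    · refine ⟨hsmall _ (by decide) (by decide), ?_⟩
      intro b hb
      simp only [List.mem_cons, List.not_mem_nil, or_false] at hb
      subst hb
      exact hsmall _ (by decide) (by decide)
  · simp only [List.mem_flatMap, List.mem_range] at h
    obtain ⟨r, hr, h⟩ := h
    by_cases hr' : D.vd.isV r
    · right
      have hr2 : r < D.vd.MV := by
        unfold VD.isV at hr'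
        rw [eM, enl] at hr'
        rw [eM]
        omega
      refine ⟨?_, ?_⟩
      · simp only [List.mem_cons, List.not_mem_nil, or_false] at h
        rcases h with rfl | rfl <;> exact hr'
      · unfold VD.rules
        refine List.mem_append_right _ (List.mem_append_right _ (List.mem_append_right _
          (List.mem_append_right _ (List.mem_append_right _ ?_))))
        simp only [List.mem_flatMap, List.mem_range]
        exact ⟨r, hr2, h⟩
    · left
      simp only [List.mem_cons, List.not_mem_nil, or_false] at h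
      rcases h with rfl | rfl
      · refine ⟨hr', ?_⟩
        intro b hb
        simp only [List.mem_cons, List.not_mem_nil, or_false] at hb
        rcases hb with rfl | rfl
        · exact hr'
        · exact hsmall _ (by decide) (by decide)
      · refine ⟨hr', ?_⟩
        intro b hb
        simp only [List.mem_cons, List.not_mem_nil, or_false] at hb
        rcases hb with rfl | rfl
        · exact hr'
        · exact hsmall _ (by decide) (by decide)

/-- the facts of the verifier side -/
def XV (D : TD) (n : ℕ) (S : Set Fact) : Set Fact :=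
  {f | Der D.rules n S f ∧ f.1 < D.vd.MV}

theorem local_der {D : TD} (hD : D.WF) {n : ℕ} {S Y : Set Fact} (hY : ∀ f ∈ Y, D.vd.isV f.1)
    {f : Fact} (h : Der D.rules n (S ∪ Y) f) :
    (¬ D.vd.isV f.1 → Der D.rules n S f) ∧
      (D.vd.isV f.1 → Der D.vd.rules n (XV D n S ∪ Y) f) := by
  have hlt : ∀ r, D.vd.isV r → r < D.vd.MV := by
    intro r hr
    have eM : D.vd.MV = 12 + D.nl + D.GV.m := rfl
    unfold VD.isV at hr
    omega
  induction h with
  | @base f hf =>
    rcases hf with hf | hf
    · exact ⟨fun _ => Der.base hf, fun h => Der.base (Or.inl ⟨Der.base hf, hlt _ h⟩)⟩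
    · exact ⟨fun h => absurd (hY f hf) h, fun _ => Der.base (Or.inr hf)⟩
  | @rule ρ hr σ hσ hb ih =>
    rcases rules_classify hD ρ hr with ⟨h1, h2⟩ | ⟨h1, h2⟩
    · refine ⟨fun _ => Der.rule hr σ hσ fun a ha => (ih a ha).1 (h2 a ha), fun h3 => ?_⟩
      exact absurd h3 h1
    · refine ⟨fun h3 => absurd h1 h3, fun _ => Der.rule h2 σ hσ fun a ha => ?_⟩
      by_cases h3 : D.vd.isV a.1
      · exact (ih a ha).2 h3
      · refine Der.base (Or.inl ⟨(ih a ha).1 h3, ?_⟩)
        exact ((VD.rulesOK (vd_WF hD) ρ h2).1 a ha).1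

theorem bot_iff {D : TD} (hD : D.WF) {n : ℕ} {S Y : Set Fact} (hY : ∀ f ∈ Y, D.vd.isV f.1)
    (x y : ℕ) : Der D.rules n (S ∪ Y) (eBOT, x, y) ↔
      Der D.vd.rules n (XV D n S ∪ Y) (eBOT, x, y) := by
  constructor
  · intro h
    exact (local_der hD hY h).2 (Or.inl rfl)
  · intro h
    have key : ∀ f, Der D.vd.rules n (XV D n S ∪ Y) f → Der D.rules n (S ∪ Y) f := by
      intro f hf
      induction hf with
      | base hf =>
        rcases hf with hf | hf
        · exact Pool.Agent.Helper84.CspClosure.der_mono Set.subset_union_left hf.1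
        · exact Der.base (Or.inr hf)
      | rule hr σ hσ _ ih => exact Der.rule (vrules_sub D _ hr) σ hσ ih
    exact key _ h

/-! ### instances -/

/-- instances: size, facts, path -/
abbrev CI := ℕ × List Fact × List ℕ

/-- certificate facts -/
def ylist (p : List ℕ) (y : List Bool) : List Fact :=
  (p.zip y).map fun q => (10 + (bif q.2 then 1 else 0), q.1, q.1)

/-- check of a certificate -/
def chkI (V : VD) (q : CI × List Bool) : Bool :=
  !((closure V.rules V.MV q.1.1 (q.1.2.1 ++ ylist q.1.2.2 q.2)).any fun f => decide (f.1 = 1))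

/-- the unsatisfiable instance -/
def failI : CI := (1, [(1, 0, 0)], [])

/-- length of the path of an instance -/
def lenI (I : CI) : ℕ := I.2.2.length

/-- one step of the walk along the first successors -/
def stepW (C : List Fact) (p : List ℕ) : List ℕ :=
  bif decide (((4, p.headD 0, p.headD 0) : Fact) ∈ C) then p else
    ((C.filter fun f => decide (f.1 = 2) && decide (f.2.1 = p.headD 0)).take 1).map
      (fun f => f.2.2) ++ p

/-- the walk -/
def walk (C : List Fact) (n a : ℕ) : List ℕ := (stepW C)^[n] [a]

/-- starting points of complete on paths -/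
def starts (C : List Fact) (n : ℕ) : List ℕ :=
  (List.range n).filter fun a => decide (((3, a, a) : Fact) ∈ C) &&
    (decide (((8, a, a) : Fact) ∈ C) &&
      decide (((4, (walk C n a).headD 0, (walk C n a).headD 0) : Fact) ∈ C))

/-- the instances of a closed set of facts -/
def instsOf (V : VD) (n : ℕ) (C : List Fact) : List CI :=
  bif C.any (fun f => decide (f.1 = 1)) then [failI] else
    (starts C n).map fun a => (n, C.filter (fun f => decide (f.1 < V.MV)), (walk C n a).reverse)

/-- the instances of a word -/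
def instW (D : TD) (w : List Bool) : List CI :=
  (parseStr D.K w).elim [failI] fun q => instsOf D.vd q.1 (closure D.rules D.M q.1 q.2)

/-- decoding of instances from trees -/
def decI (t : T) : CI :=
  (natOf t.fstD, ((spine t.sndD.fstD).map fun u => (natOf u.fstD, natOf u.sndD.fstD,
    natOf u.sndD.sndD)), (spine t.sndD.sndD).map natOf)

section
variable {α : Type} [Enc α]

theorem Poly.chkI (V : VD) : Poly (chkI V) := by
  unfold Helper96.chkI Helper96.ylist
  refine Poly.not (Poly.any (Poly.comp (g := fun q : ℕ × List Fact =>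
    Helper96.closure V.rules V.MV q.1 q.2) (f := fun q : CI × List Bool =>
    (q.1.1, q.1.2.1 ++ (q.1.2.2.zip q.2).map fun q =>
      ((10 + (bif q.2 then 1 else 0), q.1, q.1) : Fact)))
    (Poly.closure _ _) ?_) (by fun_prop))
  refine Poly.prodMk (by fun_prop) (Poly.append (by fun_prop) (Poly.map (by fun_prop) ?_))
  fun_prop

theorem Poly.lenI : Poly lenI := by
  unfold Helper96.lenI; fun_prop

theorem Poly.stepW {C : α → List Fact} {p : α → List ℕ} (hC : Poly C) (hp : Poly p) :
    Poly (fun a => stepW (C a) (p a)) := by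
  unfold Helper96.stepW
  refine Poly.cond (by fun_prop) hp (Poly.append (Poly.map (Poly.take (by fun_prop)
    (Poly.filter hC ?_)) (by fun_prop)) hp)
  fun_prop

theorem stepW_inv (C : List Fact) (p : List ℕ) (P : ℕ → Prop) (hC : ∀ f ∈ C, P f.2.2)
    (hp : ∀ x ∈ p, P x) : (∀ x ∈ stepW C p, P x) ∧ (stepW C p).length ≤ p.length + 1 := by
  unfold stepW
  cases decide (((4, p.headD 0, p.headD 0) : Fact) ∈ C) with
  | true => simp only [cond_true]; exact ⟨hp, by omega⟩
  | false =>
    simp only [cond_false]
    constructor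
    · intro x hx
      rcases List.mem_append.1 hx with hx | hx
      · obtain ⟨f, hf, rfl⟩ := List.mem_map.1 hx
        exact hC f (List.mem_filter.1 (List.mem_of_mem_take hf)).1
      · exact hp x hx
    · rw [List.length_append, List.length_map, List.length_take]; omega

theorem walk_inv (C : List Fact) (i a : ℕ) (P : ℕ → Prop) (hC : ∀ f ∈ C, P f.2.2)
    (ha : P a) : (∀ x ∈ (stepW C)^[i] [a], P x) ∧ ((stepW C)^[i] [a]).length ≤ i + 1 := by
  induction i with
  | zero => simpa using ha
  | succ i ih =>
    rw [iterate_succ_apply']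
    have := stepW_inv C _ P hC ih.1
    exact ⟨this.1, by have := this.2; omega⟩

theorem Poly.walk {C : α → List Fact} {n x : α → ℕ} (hC : Poly C) (hn : Poly n) (hx : Poly x) :
    Poly (fun a => walk (C a) (n a) (x a)) := by
  obtain ⟨B1, hB1, _, hs1⟩ := hC.szPB
  obtain ⟨B2, hB2, _, hs2⟩ := hn.szPB
  obtain ⟨B3, hB3, _, hs3⟩ := hx.szPB
  unfold Helper96.walk
  refine Poly.iterate (n := n) (g := fun a => [x a]) (h := fun a p => Helper96.stepW (C a) p)
    hn (by fun_prop) (Poly.stepW (by fun_prop) (by fun_prop))
    (fun m => (B2 m + 1) * (B1 m + B3 m + 1) + 1) (by fun_prop) ?_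
  intro a i hi
  have h1 := walk_inv (C a) i (x a) (fun y => sz y ≤ B1 (sz a) + B3 (sz a)) (by
    intro f hf
    have h2 := sz_mem_lt hf
    have h3 := hs1 a
    have h4 : sz f = sz f.1 + (sz f.2.1 + sz f.2.2 + 1) + 1 := rfl
    omega) (by have := hs3 a; omega)
  have h2 := sz_list_le _ _ h1.1
  have h3 := hs2 a
  rw [sz_nat] at h3
  have h4 : ((Helper96.stepW (C a))^[i] [x a]).length * (B1 (sz a) + B3 (sz a) + 1) ≤
      (B2 (sz a) + 1) * (B1 (sz a) + B3 (sz a) + 1) :=
    Nat.mul_le_mul_right _ (by have := h1.2; omega)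
  show sz ((Helper96.stepW (C a))^[i] [x a]) ≤ _
  omega

theorem Poly.starts {C : α → List Fact} {n : α → ℕ} (hC : Poly C) (hn : Poly n) :
    Poly (fun a => starts (C a) (n a)) := by
  unfold Helper96.starts
  refine Poly.filter (by fun_prop) (Poly.and (by fun_prop) (Poly.and (by fun_prop) ?_))
  have hw : Poly (fun q : α × ℕ => Helper96.walk (C q.1) (n q.1) q.2) :=
    Poly.walk (by fun_prop) (by fun_prop) (by fun_prop)
  fun_prop

theorem Poly.instsOf (V : VD) {C : α → List Fact} {n : α → ℕ} (hC : Poly C) (hn : Poly n) :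
    Poly (fun a => instsOf V (n a) (C a)) := by
  unfold Helper96.instsOf
  refine Poly.cond (by fun_prop) (Poly.const _) (Poly.map (Poly.starts hC hn) ?_)
  refine Poly.prodMk (by fun_prop) (Poly.prodMk (Poly.filter (by fun_prop) (by fun_prop)) ?_)
  exact Poly.reverse (Poly.walk (by fun_prop) (by fun_prop) (by fun_prop))

theorem Poly.instW (D : TD) : Poly (instW D) := by
  unfold Helper96.instW
  refine Poly.optionElim (h := fun _ (q : ℕ × List Fact) => Helper96.instsOf D.vd q.1
    (Helper96.closure D.rules D.M q.1 q.2)) (by fun_prop) (Poly.const _) ?_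
  refine Poly.instsOf D.vd ?_ (by fun_prop)
  exact Poly.comp (g := fun q : ℕ × List Fact => Helper96.closure D.rules D.M q.1 q.2)
    (f := fun q : List Bool × (ℕ × List Fact) => q.2) (Poly.closure _ _) (by fun_prop)

theorem Poly.decI : Poly decI := by
  unfold Helper96.decI; fun_prop

theorem spine_enc {β : Type} [Enc β] (l : List β) : spine (enc l) = l.map enc :=
  spine_ofList _

theorem decI_enc (I : CI) : decI (enc I) = I := by
  obtain ⟨n, F, p⟩ := I
  have h1 : ((spine (enc F)).map fun u => (natOf u.fstD, natOf u.sndD.fstD,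
      natOf u.sndD.sndD)) = F := by
    rw [spine_enc, List.map_map]
    conv_rhs => rw [← List.map_id F]
    apply List.map_congr_left
    rintro ⟨a, b, c⟩ _
    show (natOf (enc a), natOf (enc b), natOf (enc c)) = (a, b, c)
    simp only [natOf_enc]
  have h2 : (spine (enc p)).map natOf = p := by
    rw [spine_enc, List.map_map]
    conv_rhs => rw [← List.map_id p]
    apply List.map_congr_left
    intro a _
    exact natOf_enc a
  show (natOf (enc n), ((spine (enc F)).map fun u => (natOf u.fstD, natOf u.sndD.fstD,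
      natOf u.sndD.sndD)), (spine (enc p)).map natOf) = (n, F, p)
  rw [h1, h2, natOf_enc]

end

/-! ### specification of the walk -/

open Pool.Agent.Helper84.CspClosure

section
variable {D : TD} {n : ℕ} {S : Set Fact} {C : List Fact}

theorem stepW_chain (C : List Fact) (p : List ℕ) (hp : p ≠ [])
    (hc : p.IsChain (fun x y => ((2, y, x) : Fact) ∈ C)) :
    stepW C p ≠ [] ∧ (stepW C p).IsChain (fun x y => ((2, y, x) : Fact) ∈ C) ∧
      (stepW C p).getLast? = p.getLast? := by
  unfold stepW
  cases decide (((4, p.headD 0, p.headD 0) : Fact) ∈ C) with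
  | true => simp only [cond_true]; exact ⟨hp, hc, trivial⟩
  | false =>
    simp only [cond_false]
    cases hl : C.filter (fun f => decide (f.1 = 2) && decide (f.2.1 = p.headD 0)) with
    | nil => simp only [List.take_nil, List.map_nil, List.nil_append]; exact ⟨hp, hc, trivial⟩
    | cons f l =>
      have hf : f ∈ C.filter (fun f => decide (f.1 = 2) && decide (f.2.1 = p.headD 0)) := by
        rw [hl]; exact List.mem_cons_self
      rw [List.mem_filter] at hf
      obtain ⟨hf1, hf2⟩ := hf
      simp only [Bool.and_eq_true, decide_eq_true_eq] at hf2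
      obtain ⟨r, x, y⟩ := f
      simp only at hf2
      obtain ⟨rfl, rfl⟩ := hf2
      cases p with
      | nil => exact absurd rfl hp
      | cons b p =>
        simp only [List.take_succ_cons, List.take_zero, List.map_cons, List.map_nil,
          List.singleton_append, List.headD_cons] at hf1 ⊢
        refine ⟨by simp, ?_, by simp⟩
        exact List.isChain_cons_cons.2 ⟨hf1, hc⟩

theorem walk_chain (C : List Fact) (i a : ℕ) :
    (stepW C)^[i] [a] ≠ [] ∧ ((stepW C)^[i] [a]).IsChain (fun x y => ((2, y, x) : Fact) ∈ C) ∧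
      ((stepW C)^[i] [a]).getLast? = some a := by
  induction i with
  | zero => simp
  | succ i ih =>
    rw [iterate_succ_apply']
    obtain ⟨h1, h2, h3⟩ := ih
    obtain ⟨h4, h5, h6⟩ := stepW_chain C _ h1 h2
    exact ⟨h4, h5, h6.trans h3⟩

/-- the starting points give complete paths -/
theorem walk_onPath {a : ℕ} (hC : ∀ f, f ∈ C ↔ Der D.rules n S f) (ha : a ∈ starts C n) :
    TD.IsOnPath (fun f => Der D.rules n S f) (walk C n a).reverse ∧
      (walk C n a).reverse.head? = some a := by
  unfold starts at ha
  rw [List.mem_filter] at ha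
  obtain ⟨_, h⟩ := ha
  simp only [Bool.and_eq_true, decide_eq_true_eq] at h
  obtain ⟨h1, h2, h3⟩ := h
  obtain ⟨h4, h5, h6⟩ := walk_chain C n a
  have hhead : (walk C n a).reverse.head? = some a := by
    rw [List.head?_reverse]; exact h6
  refine ⟨⟨?_, ?_, ?_, ?_, ?_⟩, hhead⟩
  · intro h; exact h4 (List.reverse_eq_nil_iff.1 h)
  · rw [List.isChain_reverse]
    refine h5.imp ?_
    intro x y hxy
    exact (hC _).1 hxy
  · intro x hx
    rw [hhead] at hx
    obtain rfl := Option.some.inj hx
    exact (hC _).1 h1
  · intro x hx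
    rw [List.getLast?_reverse] at hx
    have hx' : (walk C n a).headD 0 = x := by
      unfold walk at hx ⊢
      cases hw : (stepW C)^[n] [a] with
      | nil => exact absurd hw h4
      | cons b l => rw [hw] at hx; simpa using hx
    rw [hx'] at h3
    exact (hC _).1 h3
  · intro x hx
    rw [hhead] at hx
    obtain rfl := Option.some.inj hx
    exact (hC _).1 h2

/-- elements of a complete path are pairwise inequivalent -/
theorem path_ne (hX : Bd n S) (hbot : ∀ x y, ¬ Der D.rules n S (eBOT, x, y)) {p : List ℕ}
    (hp : TD.IsOnPath (fun f => Der D.rules n S f) p) :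
    ∀ i j (hi : i < j) (hj : j < p.length), ¬ Der D.rules n S (eEQ, p[i], p[j]) := by
  have hch := List.isChain_iff_getElem.mp hp.chain
  intro i
  induction i with
  | zero =>
    intro j hi hj h
    have h0 : p.head? = some (p[0]'(by omega)) := by
      rw [List.head?_eq_getElem?, List.getElem?_eq_getElem (by omega)]
    have hF := hp.first _ (by rw [h0]; rfl)
    have hM := lt_M (D := D) eF (by decide)
    have h1 := congL hX hM hF h
    have h2 := congR hX hM h1 h
    have h3 := hch (j - 1) (by omega)
    have e : p[j - 1 + 1]'(by omega) = p[j] := by congr 1; omega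
    rw [e] at h3
    exact hbot _ _ (S_F hX h3 h2)
  | succ i ih =>
    intro j hi hj h
    have h3 := hch (j - 1) (by omega)
    have e : p[j - 1 + 1]'(by omega) = p[j] := by congr 1; omega
    rw [e] at h3
    have h4 := hch i (by omega)
    have h5 := congR hX (lt_M (D := D) eS (by decide)) h4 h
    exact ih (j - 1) (by omega) (by omega) (S_inj hX h5 h3)

theorem path_length (hX : Bd n S) (hbot : ∀ x y, ¬ Der D.rules n S (eBOT, x, y)) {p : List ℕ}
    (hp : TD.IsOnPath (fun f => Der D.rules n S f) p) : p.length ≤ n := by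
  have hlt := path_lt hX hp
  have hnd : p.Nodup := by
    rw [List.nodup_iff_pairwise_ne, List.pairwise_iff_getElem]
    intro i j hi hj hij heq
    refine path_ne hX hbot hp i j hij hj ?_
    rw [← heq]
    exact eq_refl (hlt _ (List.getElem_mem hi))
  have h1 : p.toFinset ⊆ Finset.range n := by
    intro x hx
    exact Finset.mem_range.2 (hlt x (List.mem_toFinset.1 hx))
  have h2 := Finset.card_le_card h1
  rw [List.toFinset_card_of_nodup hnd, Finset.card_range] at h2
  exact h2

/-- the walk follows every complete path -/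
theorem walk_track (hX : Bd n S) (hC : ∀ f, f ∈ C ↔ Der D.rules n S f)
    (hbot : ∀ x y, ¬ Der D.rules n S (eBOT, x, y)) {p : List ℕ}
    (hp : TD.IsOnPath (fun f => Der D.rules n S f) p) {a : ℕ} (ha : p.head? = some a) :
    ∀ i (hi : i < p.length), Der D.rules n S (eEQ, p[i], ((stepW C)^[i] [a]).headD 0) := by
  have hlt := path_lt hX hp
  have hch := List.isChain_iff_getElem.mp hp.chain
  intro i
  induction i with
  | zero =>
    intro hi
    have h0 : p[0]'hi = a := by
      rw [List.head?_eq_getElem?, List.getElem?_eq_getElem hi] at ha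
      exact Option.some.inj ha
    simp only [iterate_zero, id_eq, List.headD_cons, h0]
    rw [← h0]
    exact eq_refl (hlt _ (List.getElem_mem hi))
  | succ i ih =>
    intro hi
    have h1 := ih (by omega)
    have h2 := hch i hi
    rw [iterate_succ_apply']
    set q := (stepW C)^[i] [a] with hq
    have h3 := congL hX (lt_M (D := D) eS (by decide)) h2 h1
    have h4 : ¬ (((4, q.headD 0, q.headD 0) : Fact) ∈ C) := by
      intro h5
      exact hbot _ _ (S_E hX h3 ((hC _).1 h5))
    unfold stepW
    rw [decide_eq_false h4]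
    simp only [cond_false]
    have h6 : ((2, q.headD 0, p[i + 1]) : Fact) ∈
        C.filter (fun f => decide (f.1 = 2) && decide (f.2.1 = q.headD 0)) := by
      rw [List.mem_filter]
      refine ⟨(hC _).2 h3, by simp⟩
    cases hl : C.filter (fun f => decide (f.1 = 2) && decide (f.2.1 = q.headD 0)) with
    | nil => rw [hl] at h6; simp at h6
    | cons f l =>
      have hf : f ∈ C.filter (fun f => decide (f.1 = 2) && decide (f.2.1 = q.headD 0)) := by
        rw [hl]; exact List.mem_cons_self
      rw [List.mem_filter] at hf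
      obtain ⟨hf1, hf2⟩ := hf
      simp only [Bool.and_eq_true, decide_eq_true_eq] at hf2
      obtain ⟨r, x, y⟩ := f
      simp only at hf2
      obtain ⟨rfl, rfl⟩ := hf2
      simp only [List.take_succ_cons, List.take_zero, List.map_cons, List.map_nil,
        List.singleton_append, List.headD_cons]
      exact S_fun hX h3 ((hC _).1 hf1)

theorem mem_starts (hX : Bd n S) (hC : ∀ f, f ∈ C ↔ Der D.rules n S f)
    (hbot : ∀ x y, ¬ Der D.rules n S (eBOT, x, y)) {p : List ℕ}
    (hp : TD.IsOnPath (fun f => Der D.rules n S f) p) {a : ℕ} (ha : p.head? = some a) :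
    a ∈ starts C n := by
  have hlen := path_length hX hbot hp
  have hpos : 0 < p.length := List.length_pos_iff.mpr hp.ne
  have htr := walk_track hX hC hbot hp ha (p.length - 1) (by omega)
  have hlast : p.getLast? = some (p[p.length - 1]'(by omega)) := by
    rw [List.getLast?_eq_getElem?, List.getElem?_eq_getElem (by omega)]
  have hE := hp.last _ (by rw [hlast]; rfl)
  have hM := lt_M (D := D) eE (by decide)
  have hE2 := congR hX hM (congL hX hM hE htr) htr
  have hstay : ∀ d, (stepW C)^[p.length - 1 + d] [a] = (stepW C)^[p.length - 1] [a] := by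
    intro d
    induction d with
    | zero => rfl
    | succ d ih =>
      rw [← Nat.add_assoc, iterate_succ_apply', ih]
      set q := (stepW C)^[p.length - 1] [a] with hq
      have h5 : (((4, q.headD 0, q.headD 0) : Fact) ∈ C) := (hC _).2 hE2
      show stepW C q = q
      unfold stepW
      rw [decide_eq_true h5]
      rfl
  have hw : walk C n a = (stepW C)^[p.length - 1] [a] := by
    have := hstay (n - (p.length - 1))
    have e : p.length - 1 + (n - (p.length - 1)) = n := by omega
    rw [e] at this
    exact this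
  have ha' : a < n := path_lt hX hp a (List.mem_of_mem_head? ha)
  unfold starts
  rw [List.mem_filter]
  refine ⟨List.mem_range.2 ha', ?_⟩
  simp only [Bool.and_eq_true, decide_eq_true_eq]
  refine ⟨(hC _).2 (hp.first a (by rw [ha]; rfl)), (hC _).2 (hp.on a (by rw [ha]; rfl)), ?_⟩
  rw [hw]
  exact (hC _).2 hE2

end

end Pool.Agent.Helper96
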