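import Pool.Agent.Helper96.Univ

/-!
# The slow diagonalising state machine
-/

set_option autoImplicit false
set_option linter.all false

namespace Pool.Agent.Helper96

open T Function

/-! ### enumeration of words -/

/-- successor in the enumeration of all binary words -/
def succS : List Bool → List Bool
  | [] => [false]
  | false :: l => true :: l
  | true :: l => false :: succS l

/-- enumeration of all binary words -/
def enumS (n : ℕ) : List Bool := succS^[n] []

theorem enumS_zero : enumS 0 = [] := rfl

theorem enumS_succ (n : ℕ) : enumS (n + 1) = succS (enumS n) := by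
  unfold enumS; rw [iterate_succ_apply']

theorem enumS_odd (n : ℕ) : enumS (2 * n + 1) = false :: enumS n := by
  induction n with
  | zero => rfl
  | succ n ih =>
    have e : 2 * (n + 1) + 1 = (2 * n + 1) + 1 + 1 := by ring
    rw [e, enumS_succ, enumS_succ, ih, enumS_succ]
    rfl

theorem enumS_even (n : ℕ) : enumS (2 * n + 2) = true :: enumS n := by
  rw [enumS_succ, enumS_odd]; rfl

theorem enumS_surj (l : List Bool) : ∃ n, enumS n = l := by
  induction l with
  | nil => exact ⟨0, rfl⟩
  | cons b l ih =>
    obtain ⟨n, hn⟩ := ih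
    cases b with
    | false => exact ⟨2 * n + 1, by rw [enumS_odd, hn]⟩
    | true => exact ⟨2 * n + 2, by rw [enumS_even, hn]⟩

theorem length_succS (l : List Bool) : (succS l).length ≤ l.length + 1 := by
  induction l with
  | nil => simp [succS]
  | cons b l ih =>
    cases b with
    | false => simp [succS]
    | true => simp only [succS, List.length_cons]; omega

theorem length_enumS (n : ℕ) : (enumS n).length ≤ n := by
  induction n with
  | zero => simp [enumS_zero]
  | succ n ih =>
    rw [enumS_succ]
    have := length_succS (enumS n)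
    omega

theorem succS_ne (l : List Bool) : succS l ≠ l := by
  induction l with
  | nil => simp [succS]
  | cons b l ih =>
    cases b with
    | false => simp [succS]
    | true => simp [succS]

theorem sz_succS (l : List Bool) : sz (succS l) ≤ sz l + 2 := by
  induction l with
  | nil =>
    have h2 : sz false = 1 := rfl
    show sz [false] ≤ _
    rw [sz_cons, sz_nil]; omega
  | cons b l ih =>
    have h1 : sz true = 3 := rfl
    have h2 : sz false = 1 := rfl
    cases b with
    | false => simp only [succS, sz_cons]; omega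
    | true => simp only [succS, sz_cons]; omega

/-- one step of the successor computation -/
def sStep (st : Bool × List Bool) (b : Bool) : Bool × List Bool :=
  bif st.1 then (b, (!b) :: st.2) else (false, b :: st.2)

theorem sStep_foldl_false (l acc : List Bool) :
    l.foldl sStep (false, acc) = (false, l.reverse ++ acc) := by
  induction l generalizing acc with
  | nil => rfl
  | cons b l ih =>
    rw [List.foldl_cons]
    show l.foldl sStep (false, b :: acc) = _
    rw [ih]
    simp

theorem sStep_foldl (l acc : List Bool) :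
    (bif (l.foldl sStep (true, acc)).1 then false :: (l.foldl sStep (true, acc)).2
      else (l.foldl sStep (true, acc)).2) = (succS l).reverse ++ acc := by
  induction l generalizing acc with
  | nil => simp [succS]
  | cons b l ih =>
    rw [List.foldl_cons]
    cases b with
    | false =>
      have : sStep (true, acc) false = (false, true :: acc) := rfl
      rw [this, sStep_foldl_false]
      simp [succS]
    | true =>
      have : sStep (true, acc) true = (true, false :: acc) := rfl
      rw [this, ih]
      simp [succS]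

theorem sStep_sz (st : Bool × List Bool) (b : Bool) : sz (sStep st b) ≤ sz st + 8 := by
  obtain ⟨c, l⟩ := st
  have h1 : sz (c, l) = sz c + sz l + 1 := rfl
  have h3 := sz_bool_le b
  have h4 := sz_bool_le (!b)
  have h5 := sz_pos c
  have h6 : sz false = 1 := rfl
  cases c with
  | false =>
    show sz ((false, b :: l) : Bool × List Bool) ≤ _
    rw [sz_prod, sz_cons]; omega
  | true =>
    show sz ((b, (!b) :: l) : Bool × List Bool) ≤ _
    rw [sz_prod, sz_cons]; omega

section
variable {α : Type} [Enc α]

@[fun_prop]
theorem Poly.succS {f : α → List Bool} (hf : Poly f) : Poly (fun a => succS (f a)) := by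
  obtain ⟨B, hB, hm, hs⟩ := hf.szPB
  have h := Poly.foldl' (f := f) (g := fun _ => ((true, []) : Bool × List Bool))
    (h := fun _ => sStep) (by fun_prop) (by fun_prop)
    (by unfold sStep; fun_prop) (fun n => 8 * B n + 8) (by fun_prop) (by
      intro a l' hl'
      have key : ∀ (l : List Bool) (st : Bool × List Bool),
          sz (l.foldl sStep st) ≤ sz st + 8 * l.length := by
        intro l
        induction l with
        | nil => intro st; simp
        | cons b l ih =>
          intro st
          have h1 := ih (sStep st b)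
          have h2 := sStep_sz st b
          rw [List.foldl_cons, List.length_cons]
          omega
      have h1 := key l' (true, [])
      have h2 := hl'.length_le
      have h3 := length_lt_sz (f a)
      have h4 := hs a
      have h5 : sz ((true, []) : Bool × List Bool) = 5 := rfl
      beta_reduce
      omega)
  have h2 : Poly (fun a => (bif ((f a).foldl sStep (true, [])).1 then
      false :: ((f a).foldl sStep (true, [])).2
      else ((f a).foldl sStep (true, [])).2).reverse) := by fun_prop
  refine h2.recast fun a => ?_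
  rw [sStep_foldl, List.append_nil, List.reverse_reverse]

end

/-! ### brute force over short words -/

/-- all words of length `n`, as long as there are not many more than `m` -/
def wordsB (n m : ℕ) : List (List Bool) :=
  (fun ws => bif decide (ws.length ≤ m) then
    ws.map (fun w => false :: w) ++ ws.map (fun w => true :: w) else ws)^[n] [[]]

theorem wordsB_mem (n m : ℕ) : ∀ w ∈ wordsB n m, w.length ≤ n := by
  induction n with
  | zero => simp [wordsB]
  | succ n ih =>
    unfold wordsB at ih ⊢
    rw [iterate_succ_apply']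
    set ws := (fun ws => bif decide (ws.length ≤ m) then
      ws.map (fun w => false :: w) ++ ws.map (fun w => true :: w) else ws)^[n]
      ([[]] : List (List Bool)) with hws
    by_cases h : ws.length ≤ m
    · simp only [h, decide_true, cond_true]
      intro w hw
      simp only [List.mem_append, List.mem_map] at hw
      rcases hw with ⟨u, hu, rfl⟩ | ⟨u, hu, rfl⟩
      · have := ih u hu; simp; omega
      · have := ih u hu; simp; omega
    · simp only [h, decide_false, cond_false]
      intro w hw
      have := ih w hw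
      omega

theorem wordsB_length (n m : ℕ) : (wordsB n m).length ≤ 2 * m + 1 := by
  induction n with
  | zero => simp [wordsB]
  | succ n ih =>
    unfold wordsB at ih ⊢
    rw [iterate_succ_apply']
    set ws := (fun ws => bif decide (ws.length ≤ m) then
      ws.map (fun w => false :: w) ++ ws.map (fun w => true :: w) else ws)^[n]
      ([[]] : List (List Bool)) with hws
    by_cases h : ws.length ≤ m
    · simp only [h, decide_true, cond_true]
      simp; omega
    · simp only [h, decide_false, cond_false]
      exact ih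

theorem wordsB_spec (n m : ℕ) (h : 2 ^ n ≤ m) :
    (∀ w, w ∈ wordsB n m ↔ w.length = n) ∧ (wordsB n m).length = 2 ^ n := by
  induction n with
  | zero =>
    refine ⟨fun w => ?_, rfl⟩
    simp [wordsB]
  | succ n ih =>
    have h2 : 2 ^ (n + 1) = 2 * 2 ^ n := by ring
    have h3 : 2 ^ n ≤ m := by omega
    obtain ⟨h4, h5⟩ := ih h3
    unfold wordsB at h4 h5 ⊢
    rw [iterate_succ_apply']
    set ws := (fun ws => bif decide (ws.length ≤ m) then
      ws.map (fun w => false :: w) ++ ws.map (fun w => true :: w) else ws)^[n]
      ([[]] : List (List Bool)) with hws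
    have h6 : ws.length ≤ m := by omega
    simp only [h6, decide_true, cond_true]
    refine ⟨fun w => ?_, by simp; omega⟩
    simp only [List.mem_append, List.mem_map]
    constructor
    · rintro (⟨u, hu, rfl⟩ | ⟨u, hu, rfl⟩)
      · simp [(h4 u).1 hu]
      · simp [(h4 u).1 hu]
    · intro hw
      cases w with
      | nil => simp at hw
      | cons b w =>
        have hw' : w.length = n := by simpa using hw
        cases b with
        | false => exact Or.inl ⟨w, (h4 w).2 hw', rfl⟩
        | true => exact Or.inr ⟨w, (h4 w).2 hw', rfl⟩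

/-- brute force search over all words of length at most `n`, with budget `m` -/
def bf (n m : ℕ) (p : List Bool → Bool) : Option Bool :=
  bif decide (powCut 2 n m ≤ m) then
    some ((List.range (n + 1)).any fun i => (wordsB i m).any p) else none

open Classical in
theorem bf_eq (n m : ℕ) (p : List Bool → Bool) :
    bf n m p = if 2 ^ n ≤ m then some (decide (∃ y : List Bool, y.length ≤ n ∧ p y = true))
      else none := by
  unfold bf
  rw [powCut_eq _ _ _ (by omega)]
  by_cases h : 2 ^ n ≤ m
  · have h1 : min (2 ^ n) (m + 1) ≤ m := by omega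
    simp only [h1, decide_true, cond_true, h, if_true]
    congr 1
    rw [Bool.eq_iff_iff, List.any_eq_true, decide_eq_true_iff]
    constructor
    · rintro ⟨i, hi, h2⟩
      rw [List.any_eq_true] at h2
      obtain ⟨y, hy, h3⟩ := h2
      have hi' : i ≤ n := by have := List.mem_range.1 hi; omega
      exact ⟨y, (wordsB_mem i m y hy).trans hi', h3⟩
    · rintro ⟨y, hy, h3⟩
      refine ⟨y.length, List.mem_range.2 (by omega), ?_⟩
      rw [List.any_eq_true]
      refine ⟨y, ?_, h3⟩
      exact ((wordsB_spec y.length m
        ((Nat.pow_le_pow_right (by omega) hy).trans h)).1 y).2 rfl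
  · have h1 : ¬ min (2 ^ n) (m + 1) ≤ m := by omega
    simp only [h1, decide_false, cond_false, h, if_false]

theorem sz_boolList_le (l : List Bool) : sz l ≤ 4 * l.length + 1 := by
  have := sz_list_le l 3 (fun b _ => sz_bool_le b)
  omega

section
variable {α : Type} [Enc α]

@[fun_prop]
theorem Poly.wordsB {n m : α → ℕ} (hn : Poly n) (hm : Poly m) :
    Poly (fun a => wordsB (n a) (m a)) := by
  obtain ⟨B, hB, _, hs⟩ := hn.szPB
  obtain ⟨C, hC, _, hs'⟩ := hm.szPB
  unfold Helper96.wordsB
  refine Poly.iterate (n := n) (g := fun _ => ([[]] : List (List Bool)))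
    (h := fun a ws => bif decide (ws.length ≤ m a) then
      ws.map (fun w => false :: w) ++ ws.map (fun w => true :: w) else ws) hn (by fun_prop)
    ?_
    (fun N => (2 * C N + 1) * (4 * B N + 1 + 1) + 1) (by fun_prop) ?_
  · refine Poly.cond (by fun_prop) ?_ (by fun_prop)
    exact Poly.append (Poly.map (by fun_prop) (by fun_prop)) (Poly.map (by fun_prop) (by fun_prop))
  · intro a i hi
    have h1 : sz (Helper96.wordsB i (m a)) ≤ (Helper96.wordsB i (m a)).length * (4 * i + 1 + 1) + 1 := by
      refine sz_list_le _ _ ?_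
      intro w hw
      have h2 := wordsB_mem i (m a) w hw
      have h3 := sz_boolList_le w
      omega
    have h4 := wordsB_length i (m a)
    have h5 := hs a
    have h6 := hs' a
    rw [sz_nat] at h5 h6
    have h7 : (Helper96.wordsB i (m a)).length * (4 * i + 1 + 1) ≤
        (2 * C (sz a) + 1) * (4 * B (sz a) + 1 + 1) := Nat.mul_le_mul (by omega) (by omega)
    unfold Helper96.wordsB at h1 h7
    beta_reduce
    omega

@[fun_prop]
theorem Poly.bf {n m : α → ℕ} {p : α → List Bool → Bool} (hn : Poly n) (hm : Poly m)
    (hp : Poly (fun q : α × List Bool => p q.1 q.2)) :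
    Poly (fun a => bf (n a) (m a) (p a)) := by
  unfold Helper96.bf
  refine Poly.cond (by fun_prop) (Poly.some' ?_) (by fun_prop)
  refine Poly.any (by fun_prop) ?_
  refine Poly.any (h := fun (q : α × ℕ) y => p q.1 y) (by fun_prop) ?_
  exact Poly.comp (g := fun q : α × List Bool => p q.1 q.2)
    (f := fun q : (α × ℕ) × List Bool => (q.1.1, q.2)) hp (by fun_prop)

end

/-! ### phases -/

/-- states of the machine: phase (on/off), start of the phase, index of the program, candidate -/
abbrev St := Bool × ℕ × List Bool × List Bool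

/-- the next state, given the verdicts -/
def nxtV (V : ℕ → Bool → ℕ → List Bool → List Bool → ℕ) (m : ℕ) (s : St) : St :=
  bif decide (V m s.1 s.2.1 s.2.2.1 s.2.2.2 = 0) then s else
  bif decide (V m s.1 s.2.1 s.2.2.1 s.2.2.2 = 1) then (s.1, s.2.1, s.2.2.1, succS s.2.2.2)
  else (!s.1, m + 1, (bif s.1 then s.2.2.1 else succS s.2.2.1), [])

/-- the sequence of states -/
def stV (V : ℕ → Bool → ℕ → List Bool → List Bool → ℕ) : ℕ → St
  | 0 => (true, 0, [], [])
  | m + 1 => nxtV V m (stV V m)

section
variable {V : ℕ → Bool → ℕ → List Bool → List Bool → ℕ}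

theorem stV_succ (m : ℕ) : stV V (m + 1) = nxtV V m (stV V m) := rfl

theorem stV_wait {m : ℕ} {fl : Bool} {a : ℕ} {j x : List Bool} (h : stV V m = (fl, a, j, x))
    (hv : V m fl a j x = 0) : stV V (m + 1) = (fl, a, j, x) := by
  rw [stV_succ, h, nxtV]
  simp only [hv, decide_true, cond_true]

theorem stV_adv {m : ℕ} {fl : Bool} {a : ℕ} {j x : List Bool} (h : stV V m = (fl, a, j, x))
    (hv : V m fl a j x = 1) : stV V (m + 1) = (fl, a, j, succS x) := by
  rw [stV_succ, h, nxtV]
  simp only [hv, decide_true, cond_true, Nat.one_ne_zero, decide_false, cond_false]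

theorem stV_toggle {m : ℕ} {fl : Bool} {a : ℕ} {j x : List Bool} (h : stV V m = (fl, a, j, x))
    (h0 : V m fl a j x ≠ 0) (h1 : V m fl a j x ≠ 1) :
    stV V (m + 1) = (!fl, m + 1, (bif fl then j else succS j), []) := by
  rw [stV_succ, h, nxtV]
  simp only [h0, h1, decide_false, cond_false]

theorem phase_end (h1 : ∀ fl a j x, ∃ M, ∀ m, M ≤ m → V m fl a j x ≠ 0)
    (h2 : ∀ fl a j, ¬ ∀ x, ∃ m, V m fl a j x = 1) {m0 : ℕ} {fl : Bool} {a : ℕ} {j : List Bool}
    (h : stV V m0 = (fl, a, j, [])) :
    ∃ m x, m0 ≤ m ∧ (∀ i, m0 ≤ i → i ≤ m → (stV V i).1 = fl) ∧ stV V m = (fl, a, j, x) ∧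
      V m fl a j x ≠ 0 ∧ V m fl a j x ≠ 1 := by
  by_contra hcon
  have key : ∀ d, ∃ x, stV V (m0 + d) = (fl, a, j, x) ∧
      ∀ i, m0 ≤ i → i ≤ m0 + d → (stV V i).1 = fl := by
    intro d
    induction d with
    | zero =>
      refine ⟨[], h, fun i h3 h4 => ?_⟩
      have : i = m0 := by omega
      rw [this, h]
    | succ d ih =>
      obtain ⟨x, hx, hi⟩ := ih
      by_cases hv0 : V (m0 + d) fl a j x = 0
      · have e := stV_wait hx hv0
        refine ⟨x, e, fun i h3 h4 => ?_⟩
        by_cases h5 : i ≤ m0 + d
        · exact hi i h3 h5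
        · have : i = m0 + d + 1 := by omega
          rw [this, e]
      · by_cases hv1 : V (m0 + d) fl a j x = 1
        · have e := stV_adv hx hv1
          refine ⟨succS x, e, fun i h3 h4 => ?_⟩
          by_cases h5 : i ≤ m0 + d
          · exact hi i h3 h5
          · have : i = m0 + d + 1 := by omega
            rw [this, e]
        · exact absurd ⟨m0 + d, x, by omega, hi, hx, hv0, hv1⟩ hcon
  have key1 : ∀ i x, m0 ≤ i → stV V i = (fl, a, j, x) → V i fl a j x ≠ 0 →
      V i fl a j x = 1 := by
    intro i x hi hx hv
    by_contra hv1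
    obtain ⟨x', _, h4⟩ := key (i - m0)
    have e : m0 + (i - m0) = i := by omega
    rw [e] at h4
    exact hcon ⟨i, x, hi, h4, hx, hv, hv1⟩
  have key2 : ∀ i x, m0 ≤ i → stV V i = (fl, a, j, x) →
      ∃ i', i ≤ i' ∧ stV V i' = (fl, a, j, x) ∧ V i' fl a j x = 1 := by
    intro i x hi hx
    by_contra hno
    have key3 : ∀ d, stV V (i + d) = (fl, a, j, x) := by
      intro d
      induction d with
      | zero => exact hx
      | succ d ih =>
        by_cases hv : V (i + d) fl a j x = 0
        · exact stV_wait ih hv
        · exact absurd ⟨i + d, by omega, ih, key1 _ _ (by omega) ih hv⟩ hno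
    obtain ⟨M, hM⟩ := h1 fl a j x
    have h5 := key3 M
    exact hno ⟨i + M, by omega, h5, key1 _ _ (by omega) h5 (hM _ (by omega))⟩
  have key4 : ∀ n, ∃ i, m0 ≤ i ∧ stV V i = (fl, a, j, enumS n) := by
    intro n
    induction n with
    | zero => exact ⟨m0, le_rfl, h⟩
    | succ n ih =>
      obtain ⟨i, hi, hx⟩ := ih
      obtain ⟨i', h5, h6, h7⟩ := key2 i _ hi hx
      refine ⟨i' + 1, by omega, ?_⟩
      rw [enumS_succ]
      exact stV_adv h6 h7
  refine h2 fl a j fun x => ?_
  obtain ⟨n, rfl⟩ := enumS_surj x
  obtain ⟨i, hi, hx⟩ := key4 n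
  obtain ⟨i', _, _, h7⟩ := key2 i _ hi hx
  exact ⟨i', h7⟩

/-- the phase of index `p` -/
theorem phase_start (h1 : ∀ fl a j x, ∃ M, ∀ m, M ≤ m → V m fl a j x ≠ 0)
    (h2 : ∀ fl a j, ¬ ∀ x, ∃ m, V m fl a j x = 1) (n : ℕ) :
    (∃ m, 2 * n ≤ m ∧ stV V m = (true, m, enumS n, [])) ∧
    (∃ m, 2 * n + 1 ≤ m ∧ stV V m = (false, m, enumS n, [])) := by
  have step1 : ∀ n, (∃ m, 2 * n ≤ m ∧ stV V m = (true, m, enumS n, [])) →
      (∃ m, 2 * n + 1 ≤ m ∧ stV V m = (false, m, enumS n, [])) := by
    rintro n ⟨m, hm, hs⟩
    obtain ⟨m', x, h3, _, h5, h6, h7⟩ := phase_end h1 h2 hs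
    exact ⟨m' + 1, by omega, stV_toggle h5 h6 h7⟩
  have step2 : ∀ n, (∃ m, 2 * n + 1 ≤ m ∧ stV V m = (false, m, enumS n, [])) →
      (∃ m, 2 * (n + 1) ≤ m ∧ stV V m = (true, m, enumS (n + 1), [])) := by
    rintro n ⟨m, hm, hs⟩
    obtain ⟨m', x, h3, _, h5, h6, h7⟩ := phase_end h1 h2 hs
    refine ⟨m' + 1, by omega, ?_⟩
    rw [enumS_succ]
    exact stV_toggle h5 h6 h7
  have main : ∃ m, 2 * n ≤ m ∧ stV V m = (true, m, enumS n, []) := by
    induction n with
    | zero => exact ⟨0, le_rfl, rfl⟩
    | succ n ih => exact step2 n (step1 n ih)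
  exact ⟨main, step1 n main⟩

/-- the complete phase with index `n` -/
theorem phases (h1 : ∀ fl a j x, ∃ M, ∀ m, M ≤ m → V m fl a j x ≠ 0)
    (h2 : ∀ fl a j, ¬ ∀ x, ∃ m, V m fl a j x = 1) (fl : Bool) (n : ℕ) :
    ∃ m0 m x, n ≤ m0 ∧ m0 ≤ m ∧ (∀ i, m0 ≤ i → i ≤ m → (stV V i).1 = fl) ∧
      V m fl m0 (enumS n) x ≠ 0 ∧ V m fl m0 (enumS n) x ≠ 1 := by
  obtain ⟨⟨m, hm, hs⟩, ⟨m', hm', hs'⟩⟩ := phase_start h1 h2 n
  cases fl with
  | true =>
    obtain ⟨k, x, h3, h4, h5, h6, h7⟩ := phase_end h1 h2 hs
    exact ⟨m, k, x, by omega, h3, h4, h6, h7⟩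
  | false =>
    obtain ⟨k, x, h3, h4, h5, h6, h7⟩ := phase_end h1 h2 hs'
    exact ⟨m', k, x, by omega, h3, h4, h6, h7⟩

/-- sizes of the states -/
theorem stV_size (m : ℕ) : (stV V m).2.1 ≤ m ∧ (stV V m).2.2.1.length ≤ m ∧
    (stV V m).2.2.2.length ≤ m := by
  induction m with
  | zero => simp [stV]
  | succ m ih =>
    obtain ⟨h3, h4, h5⟩ := ih
    have h6 := length_succS (stV V m).2.2.1
    have h7 := length_succS (stV V m).2.2.2
    rw [stV_succ, nxtV]
    by_cases h8 : V m (stV V m).1 (stV V m).2.1 (stV V m).2.2.1 (stV V m).2.2.2 = 0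
    · simp only [h8, decide_true, cond_true]
      omega
    · by_cases h9 : V m (stV V m).1 (stV V m).2.1 (stV V m).2.2.1 (stV V m).2.2.2 = 1
      · simp only [h9, decide_true, cond_true, Nat.one_ne_zero, decide_false, cond_false]
        omega
      · simp only [h8, h9, decide_false, cond_false]
        cases (stV V m).1
        · simp only [cond_false, List.length_nil]; omega
        · simp only [cond_true, List.length_nil]; omega

theorem stV_sz (m : ℕ) : sz (stV V m) ≤ (m + 2) ^ 6 := by
  obtain ⟨h3, h4, h5⟩ := stV_size (V := V) m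
  set s := stV V m with hs
  have e : sz s = sz s.1 + (sz s.2.1 + (sz s.2.2.1 + sz s.2.2.2 + 1) + 1) + 1 := rfl
  have h6 := sz_bool_le s.1
  have h7 := sz_boolList_le s.2.2.1
  have h8 := sz_boolList_le s.2.2.2
  rw [sz_nat] at e
  have h9 : sz s ≤ 10 * m + 10 := by omega
  have h10 : 10 * m + 10 ≤ 32 * (m + 2) := by omega
  have h11 : 32 * (m + 2) ≤ (m + 2) ^ 5 * (m + 2) := by
    refine Nat.mul_le_mul_right _ ?_
    calc 32 = 2 ^ 5 := by norm_num
      _ ≤ (m + 2) ^ 5 := Nat.pow_le_pow_left (by omega) 5
  calc sz s ≤ 32 * (m + 2) := by omega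
    _ ≤ (m + 2) ^ 5 * (m + 2) := h11
    _ = (m + 2) ^ 6 := by ring

end

/-! ### indices of programs -/

/-- the tree described by an index -/
def treeOf (j : List Bool) : T := (parse (j.map fun b => bif b then 1 else 0)).getD L

theorem exists_index (t : T) (b : ℕ) : ∃ n, b ≤ n ∧ treeOf (enumS n) = t := by
  obtain ⟨n, hn⟩ := enumS_surj ((T.code t).map (fun a => decide (a = 1)) ++
    List.replicate b false)
  refine ⟨n, ?_, ?_⟩
  · have h1 := length_enumS n
    rw [hn] at h1
    simp only [List.length_append, List.length_replicate] at h1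
    omega
  · rw [hn, treeOf, List.map_append, List.map_map]
    have e : (T.code t).map ((fun b => bif b then 1 else 0) ∘ fun a => decide (a = 1))
        = T.code t := by
      conv_rhs => rw [← List.map_id (T.code t)]
      apply List.map_congr_left
      intro a ha
      rcases code_mem _ a ha with rfl | rfl <;> simp
    rw [e, parse_code]
    rfl

section
variable {α : Type} [Enc α]

@[fun_prop]
theorem Poly.treeOf {f : α → List Bool} (hf : Poly f) : Poly (fun a => treeOf (f a)) := by
  unfold Helper96.treeOf
  exact Poly.getD (Poly.parse (Poly.map hf (by fun_prop))) (by fun_prop)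

end

/-! ### the verdicts -/

theorem exists_pow_lt (k : ℕ) : ∃ b, ∀ a, b ≤ a → (a + 2) ^ k < 2 ^ a := by
  have h := (isLittleO_pow_const_const_pow_of_one_lt (R := ℝ) k one_lt_two).def
    (c := 1 / 8) (by norm_num)
  rw [Filter.eventually_atTop] at h
  obtain ⟨b, hb⟩ := h
  refine ⟨b, fun a ha => ?_⟩
  have h1 := hb (a + 2) (by omega)
  have h2 : ‖((a + 2 : ℕ) : ℝ) ^ k‖ = ((a + 2 : ℕ) : ℝ) ^ k := by
    rw [Real.norm_eq_abs, abs_of_nonneg (by positivity)]
  have h3 : ‖(2 : ℝ) ^ (a + 2)‖ = (2 : ℝ) ^ (a + 2) := by
    rw [Real.norm_eq_abs, abs_of_nonneg (by positivity)]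
  rw [h2, h3] at h1
  have h4 : (2 : ℝ) ^ (a + 2) = 4 * 2 ^ a := by ring
  rw [h4] at h1
  have h5 : (0 : ℝ) < 2 ^ a := by positivity
  have h6 : ((a + 2 : ℕ) : ℝ) ^ k < 2 ^ a := by linarith
  exact_mod_cast h6

section
variable {ι : Type} [Enc ι]

/-- budgeted decision of the hard problem -/
def decK (R : List Bool × List Bool → Bool) (k : ℕ) (x : List Bool) (m : ℕ) : Option Bool :=
  bf ((x.length + 2) ^ k) m (fun y => R (x, y))

/-- budgeted satisfiability of instances -/
def satI (len : ι → ℕ) (chk : ι × List Bool → Bool) (I : ι) (m : ℕ) : Option Bool :=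
  bf (len I) m (fun y => decide (y.length = len I) && chk (I, y))

/-- verdict in on phases -/
def verOn (R : List Bool × List Bool → Bool) (k : ℕ) (Nf : List Bool → ℕ) (m a : ℕ)
    (j x : List Bool) : ℕ :=
  bif (clockedB (treeOf j).fstD (natOf (treeOf j).sndD) (enc x) m).isNone ||
    ((decK R k x m).isNone || !(decide (Nf x ≤ m))) then 0 else
  bif ((clockedB (treeOf j).fstD (natOf (treeOf j).sndD) (enc x) m).getD none).isNone then 2 else
  bif decide (powCut 2 a (Nf x) ≤ Nf x) &&
    !(decide ((decide (((clockedB (treeOf j).fstD (natOf (treeOf j).sndD) (enc x) m).getD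
      none).getD L = N L L)) = (decK R k x m).getD false)) then 2 else 1

/-- the list of instances computed by the program -/
def listOf (dI : T → ι) (j x : List Bool) (m : ℕ) : List ι :=
  (spine (((clockedB (treeOf j).fstD (natOf (treeOf j).sndD) (enc x) m).getD
      none).getD L)).map dI

/-- verdict in off phases -/
def verOff (R : List Bool × List Bool → Bool) (k : ℕ) (len : ι → ℕ)
    (chk : ι × List Bool → Bool) (dI : T → ι) (m a : ℕ) (j x : List Bool) : ℕ :=
  bif (clockedB (treeOf j).fstD (natOf (treeOf j).sndD) (enc x) m).isNone ||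
    (decK R k x m).isNone then 0 else
  bif ((clockedB (treeOf j).fstD (natOf (treeOf j).sndD) (enc x) m).getD none).isNone then 2 else
  bif (listOf dI j x m).any (fun I => !(decide (len I ≤ m))) then 0 else
  bif (listOf dI j x m).any (fun I => decide (powCut 2 a (len I) ≤ len I)) then 2 else
  bif (listOf dI j x m).any (fun I => (satI len chk I m).isNone) then 0 else
  bif decide (((listOf dI j x m).all (fun I => (satI len chk I m).getD false)) =
    (decK R k x m).getD false) then 1 else 2

/-- the verdicts -/
def ver (R : List Bool × List Bool → Bool) (k : ℕ) (Nf : List Bool → ℕ) (len : ι → ℕ)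
    (chk : ι × List Bool → Bool) (dI : T → ι) (m : ℕ) (fl : Bool) (a : ℕ) (j x : List Bool) : ℕ :=
  bif fl then verOn R k Nf m a j x else verOff R k len chk dI m a j x

variable {R : List Bool × List Bool → Bool} {k : ℕ} {Nf : List Bool → ℕ} {len : ι → ℕ}
    {chk : ι × List Bool → Bool} {dI : T → ι}

theorem Poly.decK (hR : Poly R) {α : Type} [Enc α] {x : α → List Bool} {m : α → ℕ} (hx : Poly x)
    (hm : Poly m) : Poly (fun a => decK R k (x a) (m a)) := by
  unfold Helper96.decK
  refine Poly.bf (p := fun a y => R (x a, y)) (by fun_prop) hm ?_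
  fun_prop

theorem Poly.satI (hlen : Poly len) (hchk : Poly chk) {α : Type} [Enc α] {x : α → ι} {m : α → ℕ}
    (hx : Poly x) (hm : Poly m) : Poly (fun a => satI len chk (x a) (m a)) := by
  unfold Helper96.satI
  refine Poly.bf (p := fun a y => decide (y.length = len (x a)) && chk (x a, y)) (by fun_prop)
    hm ?_
  fun_prop

theorem Poly.verOn (hR : Poly R) (hN : Poly Nf) {α : Type} [Enc α] {m a : α → ℕ}
    {j x : α → List Bool} (hm : Poly m) (ha : Poly a) (hj : Poly j) (hx : Poly x) :
    Poly (fun q => verOn R k Nf (m q) (a q) (j q) (x q)) := by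
  have hd : Poly (fun q => Helper96.decK R k (x q) (m q)) := Poly.decK hR hx hm
  have hx' : Poly (fun q => enc (x q)) := (Poly.toTree _).comp hx
  have hv : Poly (fun q => Helper96.clockedB (Helper96.treeOf (j q)).fstD
    (Helper96.natOf (Helper96.treeOf (j q)).sndD) (enc (x q)) (m q)) := by fun_prop
  unfold Helper96.verOn
  refine Poly.cond ?_ (Poly.const _) ?_
  · exact Poly.or (Poly.isNone hv) (Poly.or (Poly.isNone hd) (by fun_prop))
  · refine Poly.cond (Poly.isNone (Poly.getD hv (Poly.const _))) (Poly.const _) ?_
    refine Poly.cond ?_ (Poly.const _) (Poly.const _)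
    refine Poly.and (by fun_prop) (Poly.not ?_)
    refine Poly.decide_eq (Poly.decide_eq ?_ (Poly.const _)) (Poly.getD hd (Poly.const _))
    exact Poly.getD (Poly.getD hv (Poly.const _)) (Poly.const _)

theorem Poly.listOf (hdI : Poly dI) {α : Type} [Enc α] {j x : α → List Bool} {m : α → ℕ}
    (hj : Poly j) (hx : Poly x) (hm : Poly m) : Poly (fun q => listOf dI (j q) (x q) (m q)) := by
  have hx' : Poly (fun q => enc (x q)) := (Poly.toTree _).comp hx
  have hv : Poly (fun q => Helper96.clockedB (Helper96.treeOf (j q)).fstD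
    (Helper96.natOf (Helper96.treeOf (j q)).sndD) (enc (x q)) (m q)) := by fun_prop
  unfold Helper96.listOf
  refine Poly.map (Poly.spine (Poly.getD (Poly.getD hv (Poly.const _)) (Poly.const _))) ?_
  fun_prop

theorem Poly.verOff (hR : Poly R) (hlen : Poly len) (hchk : Poly chk) (hdI : Poly dI)
    {α : Type} [Enc α] {m a : α → ℕ}
    {j x : α → List Bool} (hm : Poly m) (ha : Poly a) (hj : Poly j) (hx : Poly x) :
    Poly (fun q => verOff R k len chk dI (m q) (a q) (j q) (x q)) := by
  have hd : Poly (fun q => Helper96.decK R k (x q) (m q)) := Poly.decK hR hx hm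
  have hx' : Poly (fun q => enc (x q)) := (Poly.toTree _).comp hx
  have hv : Poly (fun q => Helper96.clockedB (Helper96.treeOf (j q)).fstD
    (Helper96.natOf (Helper96.treeOf (j q)).sndD) (enc (x q)) (m q)) := by fun_prop
  have hl : Poly (fun q => Helper96.listOf dI (j q) (x q) (m q)) := Poly.listOf hdI hj hx hm
  unfold Helper96.verOff
  refine Poly.cond (Poly.or (Poly.isNone hv) (Poly.isNone hd)) (Poly.const _) ?_
  refine Poly.cond (Poly.isNone (Poly.getD hv (Poly.const _))) (Poly.const _) ?_
  refine Poly.cond (Poly.any hl (by fun_prop)) (Poly.const _) ?_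
  refine Poly.cond (Poly.any hl (by fun_prop)) (Poly.const _) ?_
  refine Poly.cond (Poly.any hl (Poly.isNone (Poly.satI hlen hchk (by fun_prop) (by fun_prop))))
    (Poly.const _) ?_
  refine Poly.cond ?_ (Poly.const _) (Poly.const _)
  refine Poly.decide_eq ?_ (Poly.getD hd (Poly.const _))
  exact Poly.all hl (Poly.getD (Poly.satI hlen hchk (by fun_prop) (by fun_prop)) (Poly.const _))

theorem Poly.nxtV (hR : Poly R) (hN : Poly Nf) (hlen : Poly len) (hchk : Poly chk)
    (hdI : Poly dI) : Poly (fun q : ℕ × St => nxtV (ver R k Nf len chk dI) q.1 q.2) := by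
  have hv : Poly (fun q : ℕ × St => ver R k Nf len chk dI q.1 q.2.1 q.2.2.1 q.2.2.2.1
      q.2.2.2.2) := by
    unfold ver
    exact Poly.cond (by fun_prop)
      (Poly.verOn hR hN (by fun_prop) (by fun_prop) (by fun_prop) (by fun_prop))
      (Poly.verOff hR hlen hchk hdI (by fun_prop) (by fun_prop) (by fun_prop) (by fun_prop))
  unfold Helper96.nxtV
  refine Poly.cond (Poly.decide_eq hv (Poly.const _)) (by fun_prop) ?_
  exact Poly.cond (Poly.decide_eq hv (Poly.const _)) (by fun_prop) (by fun_prop)

end

section
variable {ι : Type} [Enc ι]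
variable {R : List Bool × List Bool → Bool} {k : ℕ} {Nf : List Bool → ℕ} {len : ι → ℕ}
    {chk : ι × List Bool → Bool} {dI : T → ι} {K0 : Set (List Bool)}

open Classical in
theorem decK_eq (hK : ∀ w, w ∈ K0 ↔ ∃ y : List Bool, y.length ≤ (w.length + 2) ^ k ∧
    R (w, y) = true) (x : List Bool) (m : ℕ) :
    decK R k x m = if 2 ^ ((x.length + 2) ^ k) ≤ m then some (decide (x ∈ K0)) else none := by
  unfold decK
  rw [bf_eq]
  by_cases h : 2 ^ ((x.length + 2) ^ k) ≤ m
  · simp only [h, if_true]
    congr 1
    rw [Bool.eq_iff_iff, decide_eq_true_iff, decide_eq_true_iff]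
    exact (hK x).symm
  · simp only [h, if_false]

/-- satisfiable instances -/
def SatI (len : ι → ℕ) (chk : ι × List Bool → Bool) (I : ι) : Prop :=
  ∃ y : List Bool, y.length = len I ∧ chk (I, y) = true

open Classical in
theorem satI_eq (I : ι) (m : ℕ) :
    satI len chk I m = if 2 ^ len I ≤ m then some (decide (SatI len chk I)) else none := by
  unfold satI
  rw [bf_eq]
  by_cases h : 2 ^ len I ≤ m
  · simp only [h, if_true]
    congr 1
    rw [Bool.eq_iff_iff, decide_eq_true_iff, decide_eq_true_iff]
    constructor
    · rintro ⟨y, _, h2⟩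
      simp only [Bool.and_eq_true, decide_eq_true_eq] at h2
      exact ⟨y, h2⟩
    · rintro ⟨y, h1, h2⟩
      exact ⟨y, h1.le, by simp [h1, h2]⟩
  · simp only [h, if_false]

theorem powCut_le_iff (a N : ℕ) : powCut 2 a N ≤ N ↔ 2 ^ a ≤ N := by
  rw [powCut_eq _ _ _ (by omega)]
  omega

theorem add3_le {a b c m : ℕ} (h : a + b + c ≤ m) : a ≤ m ∧ b ≤ m ∧ c ≤ m := by omega

theorem cond2_ne (b c : Bool) : (bif b then 2 else (bif c then 2 else 1)) ≠ 0 := by
  cases b <;> cases c <;> simp

/-- the program result for an index -/
def resOf (j x : List Bool) : Option T :=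
  clocked (treeOf j).fstD (natOf (treeOf j).sndD) (enc x)

open Classical in
theorem verOn_ne_zero (hK : ∀ w, w ∈ K0 ↔ ∃ y : List Bool, y.length ≤ (w.length + 2) ^ k ∧
    R (w, y) = true) (a : ℕ) (j x : List Bool) :
    ∃ M, ∀ m, M ≤ m → verOn R k Nf m a j x ≠ 0 := by
  refine ⟨(T.size (enc x) + 2) ^ (natOf (treeOf j).sndD) + 2 ^ ((x.length + 2) ^ k) + Nf x,
    fun m hm => ?_⟩
  unfold verOn
  rw [clockedB_eq, decK_eq hK]
  obtain ⟨h1, h2, h3⟩ := add3_le hm
  simp only [h1, h2, h3, if_true, Option.isNone_some, decide_true, Bool.not_true, Bool.or_self,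
    cond_false]
  exact cond2_ne _ _

open Classical in
theorem verOn_one (hK : ∀ w, w ∈ K0 ↔ ∃ y : List Bool, y.length ≤ (w.length + 2) ^ k ∧
    R (w, y) = true) {m a : ℕ} {j x : List Bool} (h : verOn R k Nf m a j x = 1) :
    ∃ r, resOf j x = some r ∧ (2 ^ a ≤ Nf x → (r = N L L ↔ x ∈ K0)) := by
  unfold verOn at h
  rw [clockedB_eq, decK_eq hK] at h
  by_cases h1 : (T.size (enc x) + 2) ^ (natOf (treeOf j).sndD) ≤ m
  · by_cases h2 : 2 ^ ((x.length + 2) ^ k) ≤ m
    · by_cases h3 : Nf x ≤ m
      · simp only [h1, h2, h3, if_true, Option.isNone_some, decide_true, Bool.not_true,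
          Bool.or_self, cond_false, Option.getD_some, powCut_le_iff] at h
        unfold resOf
        cases hr : clocked (treeOf j).fstD (natOf (treeOf j).sndD) (enc x) with
        | none => rw [hr] at h; simp at h
        | some r =>
          rw [hr] at h
          refine ⟨r, rfl, fun h4 => ?_⟩
          simp only [Option.isNone_some, cond_false, Option.getD_some, h4, decide_true,
            Bool.true_and] at h
          by_contra h5
          have h6 : ¬ (decide (r = N L L) = decide (x ∈ K0)) := by
            intro h7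
            apply h5
            rw [Bool.eq_iff_iff, decide_eq_true_iff, decide_eq_true_iff] at h7
            exact h7
          simp only [h6, decide_false, Bool.not_false, cond_true] at h
          omega
      · simp [h3] at h
    · simp [h2] at h
  · simp [h1] at h

open Classical in
theorem verOn_toggle (hK : ∀ w, w ∈ K0 ↔ ∃ y : List Bool, y.length ≤ (w.length + 2) ^ k ∧
    R (w, y) = true) {m a : ℕ} {j x : List Bool} (h0 : verOn R k Nf m a j x ≠ 0)
    (h' : verOn R k Nf m a j x ≠ 1) {r : T} (hr : resOf j x = some r) :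
    2 ^ a ≤ Nf x ∧ Nf x ≤ m ∧ ¬ (r = N L L ↔ x ∈ K0) := by
  unfold resOf at hr
  unfold verOn at h0 h'
  rw [clockedB_eq, decK_eq hK] at h0 h'
  by_cases h1 : (T.size (enc x) + 2) ^ (natOf (treeOf j).sndD) ≤ m
  · by_cases h2 : 2 ^ ((x.length + 2) ^ k) ≤ m
    · by_cases h3 : Nf x ≤ m
      · simp only [h1, h2, h3, if_true, Option.isNone_some, decide_true, Bool.not_true,
          Bool.or_self, cond_false, Option.getD_some, powCut_le_iff, hr] at h0 h'
        by_cases h4 : 2 ^ a ≤ Nf x
        · refine ⟨h4, h3, fun h5 => ?_⟩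
          have h6 : (decide (r = N L L) = decide (x ∈ K0)) := by
            rw [Bool.eq_iff_iff, decide_eq_true_iff, decide_eq_true_iff]
            exact h5
          simp only [h6, decide_true, Bool.not_true, Bool.and_false, cond_false] at h'
          exact h' rfl
        · simp only [h4, decide_false, Bool.false_and, cond_false] at h'
          exact absurd rfl h'
      · simp [h3] at h0
    · simp [h2] at h0
  · simp [h1] at h0

theorem listOf_eq {j x : List Bool} {m : ℕ}
    (h1 : (T.size (enc x) + 2) ^ (natOf (treeOf j).sndD) ≤ m) {r : T}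
    (hr : resOf j x = some r) : listOf dI j x m = (spine r).map dI := by
  unfold resOf at hr
  unfold listOf
  rw [clockedB_eq]
  simp only [h1, if_true, Option.getD_some, hr]

theorem cond3_ne (b c : Bool) : (bif b then 2 else (bif c then 1 else 2)) ≠ 0 := by
  cases b <;> cases c <;> simp

theorem exists_bound_list {β : Type} (f : β → ℕ) (l : List β) : ∃ M, ∀ I ∈ l, f I ≤ M := by
  induction l with
  | nil => exact ⟨0, by simp⟩
  | cons b l ih =>
    obtain ⟨M, hM⟩ := ih
    refine ⟨M + f b, fun I hI => ?_⟩
    rcases List.mem_cons.1 hI with rfl | hI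
    · omega
    · have := hM I hI; omega

open Classical in
theorem verOff_ne_zero (hK : ∀ w, w ∈ K0 ↔ ∃ y : List Bool, y.length ≤ (w.length + 2) ^ k ∧
    R (w, y) = true) (a : ℕ) (j x : List Bool) :
    ∃ M, ∀ m, M ≤ m → verOff R k len chk dI m a j x ≠ 0 := by
  cases hr : resOf j x with
  | none =>
    refine ⟨(T.size (enc x) + 2) ^ (natOf (treeOf j).sndD) + 2 ^ ((x.length + 2) ^ k) + 0,
      fun m hm => ?_⟩
    obtain ⟨h1, h2, h3⟩ := add3_le hm
    unfold resOf at hr
    unfold verOff
    rw [clockedB_eq, decK_eq hK]
    simp only [h1, h2, if_true, Option.isNone_some, Bool.or_self, cond_false, Option.getD_some,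
      hr, Option.isNone_none, cond_true]
    simp
  | some r =>
    obtain ⟨M1, hM1⟩ := exists_bound_list (fun I => 2 ^ len I) ((spine r).map dI)
    refine ⟨(T.size (enc x) + 2) ^ (natOf (treeOf j).sndD) + 2 ^ ((x.length + 2) ^ k) + M1,
      fun m hm => ?_⟩
    obtain ⟨h1, h2, h3⟩ := add3_le hm
    have hl := listOf_eq (dI := dI) h1 hr
    unfold resOf at hr
    unfold verOff
    rw [clockedB_eq, decK_eq hK, hl]
    simp only [h1, h2, if_true, Option.isNone_some, Bool.or_self, cond_false, Option.getD_some,
      hr]
    have h4 : ((spine r).map dI).any (fun I => !(decide (len I ≤ m))) = false := by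
      rw [List.any_eq_false]
      intro I hI
      have h5 := hM1 I hI
      have h6 : len I < 2 ^ len I := Nat.lt_two_pow_self
      have h7 : len I ≤ m := by omega
      simp [h7]
    have h5 : ((spine r).map dI).any (fun I => (satI len chk I m).isNone) = false := by
      rw [List.any_eq_false]
      intro I hI
      have h5 := hM1 I hI
      rw [satI_eq]
      have h7 : 2 ^ len I ≤ m := by omega
      simp [h7]
    rw [h4, h5]
    simp only [cond_false]
    exact cond3_ne _ _

open Classical in
theorem verOff_one (hK : ∀ w, w ∈ K0 ↔ ∃ y : List Bool, y.length ≤ (w.length + 2) ^ k ∧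
    R (w, y) = true) {m a : ℕ} {j x : List Bool} (h : verOff R k len chk dI m a j x = 1) :
    ∃ r, resOf j x = some r ∧ (∀ I ∈ (spine r).map dI, len I < 2 ^ a) ∧
      ((∀ I ∈ (spine r).map dI, SatI len chk I) ↔ x ∈ K0) := by
  unfold verOff at h
  rw [clockedB_eq, decK_eq hK] at h
  by_cases h1 : (T.size (enc x) + 2) ^ (natOf (treeOf j).sndD) ≤ m
  · by_cases h2 : 2 ^ ((x.length + 2) ^ k) ≤ m
    · simp only [h1, h2, if_true, Option.isNone_some, Bool.or_self, cond_false,
        Option.getD_some, powCut_le_iff] at h
      cases hr : resOf j x with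
      | none =>
        unfold resOf at hr
        rw [hr] at h; simp at h
      | some r =>
        rw [listOf_eq h1 hr] at h
        unfold resOf at hr
        rw [hr] at h
        simp only [Option.isNone_some, cond_false] at h
        refine ⟨r, rfl, ?_⟩
        cases h3 : ((spine r).map dI).any (fun I => !(decide (len I ≤ m))) with
        | true => rw [h3] at h; simp at h
        | false =>
          rw [h3] at h
          cases h4 : ((spine r).map dI).any (fun I => decide (2 ^ a ≤ len I)) with
          | true => rw [h4] at h; simp at h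
          | false =>
            rw [h4] at h
            cases h5 : ((spine r).map dI).any (fun I => (satI len chk I m).isNone) with
            | true => rw [h5] at h; simp at h
            | false =>
              rw [h5] at h
              simp only [cond_false] at h
              rw [List.any_eq_false] at h4 h5
              refine ⟨fun I hI => ?_, ?_⟩
              · have := h4 I hI
                simp only [decide_eq_true_eq, not_le] at this
                exact this
              · have h6 : ∀ I ∈ (spine r).map dI, (satI len chk I m).getD false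
                    = decide (SatI len chk I) := by
                  intro I hI
                  have h7 := h5 I hI
                  rw [satI_eq] at h7 ⊢
                  by_cases h8 : 2 ^ len I ≤ m
                  · simp [h8]
                  · simp [h8] at h7
                have h7 : ((spine r).map dI).all (fun I => (satI len chk I m).getD false)
                    = decide (x ∈ K0) := by
                  by_contra h8
                  simp only [h8, decide_false, cond_false] at h
                  omega
                rw [Bool.eq_iff_iff, List.all_eq_true, decide_eq_true_iff] at h7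
                rw [← h7]
                constructor
                · intro h9 I hI
                  rw [h6 I hI, decide_eq_true_iff]
                  exact h9 I hI
                · intro h9 I hI
                  have := h9 I hI
                  rw [h6 I hI, decide_eq_true_iff] at this
                  exact this
    · simp [h2] at h
  · simp [h1] at h

open Classical in
theorem verOff_toggle (hK : ∀ w, w ∈ K0 ↔ ∃ y : List Bool, y.length ≤ (w.length + 2) ^ k ∧
    R (w, y) = true) {m a : ℕ} {j x : List Bool} (h0 : verOff R k len chk dI m a j x ≠ 0)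
    (h' : verOff R k len chk dI m a j x ≠ 1) {r : T} (hr : resOf j x = some r) :
    (∃ I ∈ (spine r).map dI, 2 ^ a ≤ len I ∧ len I ≤ m) ∨
      ¬ ((∀ I ∈ (spine r).map dI, SatI len chk I) ↔ x ∈ K0) := by
  unfold verOff at h0 h'
  rw [clockedB_eq, decK_eq hK] at h0 h'
  by_cases h1 : (T.size (enc x) + 2) ^ (natOf (treeOf j).sndD) ≤ m
  · by_cases h2 : 2 ^ ((x.length + 2) ^ k) ≤ m
    · rw [listOf_eq h1 hr] at h0 h'
      unfold resOf at hr
      simp only [h1, h2, if_true, Option.isNone_some, Bool.or_self, cond_false,
        Option.getD_some, powCut_le_iff, hr] at h0 h'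
      cases h3 : ((spine r).map dI).any (fun I => !(decide (len I ≤ m))) with
      | true => rw [h3] at h0; simp at h0
      | false =>
        rw [h3] at h0 h'
        rw [List.any_eq_false] at h3
        cases h4 : ((spine r).map dI).any (fun I => decide (2 ^ a ≤ len I)) with
        | true =>
          rw [List.any_eq_true] at h4
          obtain ⟨I, hI, h5⟩ := h4
          left
          refine ⟨I, hI, by simpa using h5, ?_⟩
          have := h3 I hI
          simpa using this
        | false =>
          rw [h4] at h0 h'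
          cases h5 : ((spine r).map dI).any (fun I => (satI len chk I m).isNone) with
          | true => rw [h5] at h0; simp at h0
          | false =>
            rw [h5] at h0 h'
            simp only [cond_false] at h0 h'
            right
            rw [List.any_eq_false] at h5
            have h6 : ∀ I ∈ (spine r).map dI, (satI len chk I m).getD false
                = decide (SatI len chk I) := by
              intro I hI
              have h7 := h5 I hI
              rw [satI_eq] at h7 ⊢
              by_cases h8 : 2 ^ len I ≤ m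
              · simp [h8]
              · simp [h8] at h7
            intro h8
            have h7 : ((spine r).map dI).all (fun I => (satI len chk I m).getD false)
                = decide (x ∈ K0) := by
              rw [Bool.eq_iff_iff, List.all_eq_true, decide_eq_true_iff, ← h8]
              constructor
              · intro h9 I hI
                have := h9 I hI
                rw [h6 I hI, decide_eq_true_iff] at this
                exact this
              · intro h9 I hI
                rw [h6 I hI, decide_eq_true_iff]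
                exact h9 I hI
            simp only [h7, decide_true, cond_true] at h'
            exact h' rfl
    · simp [h2] at h0
  · simp [h1] at h0

/-- the hard problem is not decided on a cofinite set -/
theorem on_not_all (hnot : ¬ ∃ f : List Bool → Bool, Poly f ∧ ∀ w, f w = true ↔ w ∈ K0)
    (hN : Poly Nf) (hN' : ∀ w, w.length < Nf w) (a : ℕ) (c : T) (e : ℕ)
    (h : ∀ x : List Bool, ∃ r, clocked c e (enc x) = some r ∧
      (2 ^ a ≤ Nf x → (r = N L L ↔ x ∈ K0))) : False := by
  classical
  have hfin : {x : List Bool | Nf x < 2 ^ a ∧ x ∈ K0}.Finite := by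
    refine (List.finite_length_lt Bool (2 ^ a)).subset ?_
    rintro x ⟨hx, _⟩
    have := hN' x
    simp only [Set.mem_setOf_eq]
    omega
  apply hnot
  refine ⟨fun x => bif decide (Nf x < 2 ^ a) then decide (x ∈ hfin.toFinset.toList)
    else decide (clocked c e (enc x) = some (N L L)), ?_, ?_⟩
  · have hx' : Poly (fun x : List Bool => enc x) := Poly.toTree _
    exact Poly.cond (by fun_prop) (by fun_prop)
      (Poly.decide_eq (Poly.clocked (Poly.const c) hx' e) (Poly.const _))
  · intro x
    by_cases hx : Nf x < 2 ^ a
    · simp only [hx, decide_true, cond_true, decide_eq_true_eq, Finset.mem_toList,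
        Set.Finite.mem_toFinset, Set.mem_setOf_eq, true_and]
    · obtain ⟨r, h1, h2⟩ := h x
      simp only [hx, decide_false, cond_false, decide_eq_true_eq, h1, Option.some.injEq]
      exact h2 (by omega)

/-- the hard problem does not reduce to bounded instances -/
theorem off_not_all (hnot : ¬ ∃ f : List Bool → Bool, Poly f ∧ ∀ w, f w = true ↔ w ∈ K0)
    (hlen : Poly len) (hchk : Poly chk) (hdI : Poly dI) (a : ℕ) (c : T) (e : ℕ)
    (h : ∀ x : List Bool, ∃ r, clocked c e (enc x) = some r ∧
      (∀ I ∈ (spine r).map dI, len I < 2 ^ a) ∧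
      ((∀ I ∈ (spine r).map dI, SatI len chk I) ↔ x ∈ K0)) : False := by
  classical
  apply hnot
  refine ⟨fun x => ((spine ((clocked c e (enc x)).getD L)).map dI).all
    (fun I => (satI len chk I (2 ^ 2 ^ a)).getD false), ?_, ?_⟩
  · have hx' : Poly (fun x : List Bool => enc x) := Poly.toTree _
    refine Poly.all (Poly.map (Poly.spine (Poly.getD (Poly.clocked (Poly.const c) hx' e)
      (Poly.const _))) (by fun_prop)) ?_
    exact Poly.getD (Poly.satI hlen hchk (by fun_prop) (by fun_prop)) (Poly.const _)
  · intro x
    obtain ⟨r, h1, h2, h3⟩ := h x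
    simp only [h1, Option.getD_some, List.all_eq_true]
    rw [← h3]
    have h4 : ∀ I ∈ (spine r).map dI, ((satI len chk I (2 ^ 2 ^ a)).getD false = true ↔
        SatI len chk I) := by
      intro I hI
      rw [satI_eq]
      have h5 : 2 ^ len I ≤ 2 ^ 2 ^ a := Nat.pow_le_pow_right (by omega) (h2 I hI).le
      simp [h5]
    constructor
    · intro h5 I hI
      exact (h4 I hI).1 (h5 I hI)
    · intro h5 I hI
      exact (h4 I hI).2 (h5 I hI)

/-- the diagonalising machine -/
theorem exists_machine (hR : Poly R)
    (hK : ∀ w, w ∈ K0 ↔ ∃ y : List Bool, y.length ≤ (w.length + 2) ^ k ∧ R (w, y) = true)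
    (hnot : ¬ ∃ f : List Bool → Bool, Poly f ∧ ∀ w, f w = true ↔ w ∈ K0)
    (hN : Poly Nf) (hN' : ∀ w, w.length < Nf w)
    (hlen : Poly len) (hchk : Poly chk) (hdI : Poly dI) (hdI' : ∀ I, dI (enc I) = I) :
    ∃ (nxt : ℕ × St → St) (st : ℕ → St), Poly nxt ∧ (∀ m, st (m + 1) = nxt (m, st m)) ∧
      (∀ m, sz (st m) ≤ (m + 2) ^ 6) ∧
      (∀ (f : List Bool → Bool), Poly f → ∀ k', ∃ x m1 m2, (m1 + 2) ^ k' < Nf x ∧ Nf x ≤ m2 ∧
        (∀ i, m1 ≤ i → i < m2 → (st i).1 = true) ∧ ¬ (f x = true ↔ x ∈ K0)) ∧
      (∀ (G : List Bool → List ι), Poly G → ∀ k', ∃ x,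
        (∃ I ∈ G x, ∃ m1 m2, (m1 + 2) ^ k' < len I ∧ len I ≤ m2 ∧
          (∀ i, m1 ≤ i → i < m2 → (st i).1 = false)) ∨
        ¬ ((∀ I ∈ G x, SatI len chk I) ↔ x ∈ K0)) := by
  have h1 : ∀ fl a j x, ∃ M, ∀ m, M ≤ m → ver R k Nf len chk dI m fl a j x ≠ 0 := by
    intro fl a j x
    cases fl with
    | true => exact verOn_ne_zero hK a j x
    | false => exact verOff_ne_zero hK a j x
  have h2 : ∀ fl a j, ¬ ∀ x, ∃ m, ver R k Nf len chk dI m fl a j x = 1 := by
    intro fl a j hall
    cases fl with
    | true =>
      refine on_not_all hnot hN hN' a (treeOf j).fstD (natOf (treeOf j).sndD) fun x => ?_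
      obtain ⟨m, hm⟩ := hall x
      exact verOn_one hK hm
    | false =>
      refine off_not_all hnot hlen hchk hdI a (treeOf j).fstD (natOf (treeOf j).sndD) fun x => ?_
      obtain ⟨m, hm⟩ := hall x
      exact verOff_one hK hm
  refine ⟨fun q => nxtV (ver R k Nf len chk dI) q.1 q.2, stV (ver R k Nf len chk dI),
    Poly.nxtV hR hN hlen hchk hdI, fun m => rfl, stV_sz, ?_, ?_⟩
  · intro f hf k'
    obtain ⟨c, e, hc⟩ := hf
    obtain ⟨b, hb⟩ := exists_pow_lt k'
    obtain ⟨n, hn, htree⟩ := exists_index (N (encC c) (enc e)) b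
    obtain ⟨m0, m, x, h3, h4, h5, h6, h7⟩ := phases h1 h2 true n
    have hr : resOf (enumS n) x = some (enc (f x)) := by
      unfold resOf
      rw [htree]
      have h8 := clocked_of_rz hc x
      have h9 : natOf (T.sndD (N (encC c) (enc e))) = e := natOf_enc e
      rw [h9]
      exact h8
    obtain ⟨h8, h9, h10⟩ := verOn_toggle hK h6 h7 hr
    refine ⟨x, m0, m + 1, ?_, by omega, fun i hi hi' => h5 i hi (by omega), ?_⟩
    · exact (hb m0 (by omega)).trans_le h8
    · intro h11
      apply h10
      rw [← h11]
      cases f x with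
      | true => simp [enc_true]
      | false => simp [enc_false]
  · intro G hG k'
    obtain ⟨c, e, hc⟩ := hG
    obtain ⟨b, hb⟩ := exists_pow_lt k'
    obtain ⟨n, hn, htree⟩ := exists_index (N (encC c) (enc e)) b
    obtain ⟨m0, m, x, h3, h4, h5, h6, h7⟩ := phases h1 h2 false n
    have hr : resOf (enumS n) x = some (enc (G x)) := by
      unfold resOf
      rw [htree]
      have h8 := clocked_of_rz hc x
      have h9 : natOf (T.sndD (N (encC c) (enc e))) = e := natOf_enc e
      rw [h9]
      exact h8
    have hl : (spine (enc (G x))).map dI = G x := by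
      show (spine (ofList ((G x).map enc))).map dI = G x
      rw [spine_ofList, List.map_map]
      conv_rhs => rw [← List.map_id (G x)]
      apply List.map_congr_left
      intro I _
      exact hdI' I
    refine ⟨x, ?_⟩
    have h8 := verOff_toggle hK h6 h7 hr
    rw [hl] at h8
    rcases h8 with ⟨I, hI, h9, h10⟩ | h8
    · left
      refine ⟨I, hI, m0, m + 1, (hb m0 (by omega)).trans_le h9, by omega,
        fun i hi hi' => h5 i hi (by omega)⟩
    · exact Or.inr h8

end

end Pool.Agent.Helper96
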