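import Pool.Agent.Helper96.Inst
import Pool.Agent.Helper96.Machine
import Pool.Agent.Helper84.CspTemplate

/-!
# Specification of the conjunctive instances
-/

set_option autoImplicit false
set_option linter.all false

namespace Pool.Agent.Helper96

open T Function
open Pool.Agent.Helper84.CspClosure

theorem chkI_iff {V : VD} (hV : V.WF) {n : ℕ} {F : List Fact} {p : List ℕ} {y : List Bool}
    (hF : ∀ f ∈ F, f.1 < V.MV ∧ f.2.1 < n ∧ f.2.2 < n) (hp : ∀ x ∈ p, x < n) :
    chkI V ((n, F, p), y) = true ↔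
      ∀ x z, ¬ Der V.rules n ({f | f ∈ F} ∪ {f | f ∈ ylist p y}) (eBOT, x, z) := by
  have hB : ∀ f ∈ F ++ ylist p y, f ∈ univ V.MV n := by
    intro f hf
    rw [mem_univ]
    rcases List.mem_append.1 hf with hf | hf
    · exact hF f hf
    · unfold ylist at hf
      obtain ⟨⟨x, b⟩, hq, rfl⟩ := List.mem_map.1 hf
      have hx := hp x (List.of_mem_zip hq).1
      refine ⟨?_, hx, hx⟩
      unfold VD.MV
      cases b <;> simp <;> omega
  have hmem := mem_closure V.rules V.MV n (F ++ ylist p y) (VD.rulesOK hV) hB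
  have hset : {f | f ∈ F ++ ylist p y} = {f | f ∈ F} ∪ {f | f ∈ ylist p y} := by
    ext f; simp
  rw [hset] at hmem
  unfold chkI
  simp only [Bool.not_eq_true', List.any_eq_false, decide_eq_true_eq]
  constructor
  · intro h x z hd
    exact h _ ((hmem _).2 hd) rfl
  · intro h f hf h1
    obtain ⟨r, x, z⟩ := f
    simp only at h1
    subst h1
    exact h x z ((hmem _).1 hf)

section
variable {D : TD} {n : ℕ} {S : Set Fact} {C : List Fact}

theorem chk_inst (hD : D.WF) (hX : Bd n S) (hC : ∀ f, f ∈ C ↔ Der D.rules n S f) {p : List ℕ}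
    (hp : ∀ x ∈ p, x < n) (y : List Bool) :
    chkI D.vd ((n, C.filter (fun f => decide (f.1 < D.vd.MV)), p), y) = true ↔
      ∀ x z, ¬ Der D.rules n (S ∪ {f | f ∈ ylist p y}) (eBOT, x, z) := by
  rw [chkI_iff (vd_WF hD) ?_ hp]
  · have hset : {f | f ∈ C.filter (fun f => decide (f.1 < D.vd.MV))} = XV D n S := by
      ext f
      simp only [List.mem_filter, decide_eq_true_eq, Set.mem_setOf_eq, XV, hC]
    rw [hset]
    have hY : ∀ f ∈ {f | f ∈ ylist p y}, D.vd.isV f.1 := by
      intro f hf
      simp only [Set.mem_setOf_eq] at hf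
      unfold ylist at hf
      obtain ⟨⟨x, b⟩, hq, rfl⟩ := List.mem_map.1 hf
      unfold VD.isV
      cases b <;> simp
    constructor
    · intro h x z hd
      exact h x z ((bot_iff hD hY x z).1 hd)
    · intro h x z hd
      exact h x z ((bot_iff hD hY x z).2 hd)
  · intro f hf
    simp only [List.mem_filter, decide_eq_true_eq] at hf
    have := Pool.Agent.Helper84.CspClosure.der_lt hX ((hC f).1 hf.1)
    exact ⟨hf.2, this.1, this.2⟩

theorem ylist_map (p : List ℕ) (β : ℕ → Bool) :
    {f | f ∈ ylist p (p.map β)} = TD.yFacts p β := by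
  ext f
  unfold ylist TD.yFacts
  have e : p.zip (p.map β) = p.map fun x => (x, β x) := by
    induction p with
    | nil => rfl
    | cons a p ih => simp [ih]
  rw [e, List.map_map]
  simp only [Set.mem_setOf_eq, List.mem_map, Function.comp]
  constructor
  · rintro ⟨x, hx, rfl⟩
    exact ⟨x, hx, rfl⟩
  · rintro ⟨x, hx, rfl⟩
    exact ⟨x, hx, rfl⟩

theorem yFacts_sub (p : List ℕ) (y : List Bool) (hy : y.length = p.length) :
    ∃ β : ℕ → Bool, TD.yFacts p β ⊆ {f | f ∈ ylist p y} := by
  refine ⟨fun x => y.getD (p.idxOf x) false, ?_⟩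
  rintro f ⟨x, hx, rfl⟩
  simp only [Set.mem_setOf_eq]
  unfold ylist
  rw [List.mem_map]
  have h1 : p.idxOf x < p.length := List.idxOf_lt_length_iff.2 hx
  have h2 : p.idxOf x < y.length := by omega
  have h3 : p.idxOf x < (p.zip y).length := by rw [List.length_zip]; omega
  refine ⟨(p.zip y)[p.idxOf x], List.getElem_mem h3, ?_⟩
  rw [List.getElem_zip, List.getD_eq_getElem _ _ h2, List.getElem_idxOf h1]

end

/-- the instances of a structure -/
theorem instsOf_spec {D : TD} (hD : D.WF) {n : ℕ} (B : BinStr D.K (Fin n)) {C : List Fact}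
    (hC : ∀ f, f ∈ C ↔ Der D.rules n (TD.facts B) f) :
    ((∃ (m : ℕ) (E : BinStr D.K (Fin m)), D.Model E ∧ ∃ h, IsHom B E h) →
      ∃ β : ℕ → Bool, ∀ I ∈ instsOf D.vd n C, (∀ x ∈ I.2.2, x < n) ∧
        chkI D.vd (I, I.2.2.map β) = true) ∧
    ((∀ I ∈ instsOf D.vd n C, SatI lenI (chkI D.vd) I) →
      (∃ (m : ℕ) (E : BinStr D.K (Fin m)), D.Model E ∧ ∃ h, IsHom B E h)) ∧
    (∀ I ∈ instsOf D.vd n C, I.2.2 = [] ∨
      D.onZ (D.GZ.cell (fun _ => D.z0) (I.2.2.length - 1) 0) = true) := by
  have hX := bd_facts B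
  by_cases hbot : ∀ x y, ¬ Der D.rules n (TD.facts B) (eBOT, x, y)
  · have hany : C.any (fun f => decide (f.1 = 1)) = false := by
      rw [List.any_eq_false]
      intro f hf h1
      obtain ⟨r, x, y⟩ := f
      simp only [decide_eq_true_eq] at h1
      subst h1
      exact hbot x y ((hC _).1 hf)
    have hinst : instsOf D.vd n C = (starts C n).map fun a =>
        (n, C.filter (fun f => decide (f.1 < D.vd.MV)), (walk C n a).reverse) := by
      unfold instsOf
      rw [hany]
      rfl
    rw [hinst]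
    refine ⟨?_, ?_, ?_⟩
    · rintro ⟨m, E, hE, h, hh⟩
      obtain ⟨_, β, hβ⟩ := closure_of_hom D hD B E hE h hh
      refine ⟨β, fun I hI => ?_⟩
      obtain ⟨a, ha, rfl⟩ := List.mem_map.1 hI
      obtain ⟨hp, _⟩ := walk_onPath hC ha
      have hlt := path_lt hX hp
      refine ⟨hlt, ?_⟩
      rw [chk_inst hD hX hC hlt, ylist_map]
      exact hβ _ hp
    · intro hsat
      refine hom_of_closure D hD B hbot ?_
      rintro a _ _ ⟨p, hp, hpa⟩
      have ha := mem_starts hX hC hbot hp hpa
      obtain ⟨hp', hpa'⟩ := walk_onPath hC ha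
      refine ⟨_, hp', hpa', ?_⟩
      obtain ⟨y, hy, hchk⟩ := hsat _ (List.mem_map.2 ⟨a, ha, rfl⟩)
      have hlt := path_lt hX hp'
      rw [chk_inst hD hX hC hlt] at hchk
      obtain ⟨β, hβ⟩ := yFacts_sub (walk C n a).reverse y hy
      refine ⟨β, fun x z hd => hchk x z ?_⟩
      exact der_mono (Set.union_subset_union_right _ hβ) hd
    · intro I hI
      obtain ⟨a, ha, rfl⟩ := List.mem_map.1 hI
      obtain ⟨hp, _⟩ := walk_onPath hC ha
      right
      exact Pool.Agent.Helper69.status_of_onPath hD B hbot hp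
  · have hbot' := hbot
    push_neg at hbot'
    obtain ⟨x, y, hxy⟩ := hbot'
    have hany : C.any (fun f => decide (f.1 = 1)) = true := by
      rw [List.any_eq_true]
      exact ⟨_, (hC _).2 hxy, by simp⟩
    have hinst : instsOf D.vd n C = [failI] := by
      unfold instsOf
      rw [hany]
      rfl
    rw [hinst]
    refine ⟨?_, ?_, ?_⟩
    · rintro ⟨m, E, hE, h, hh⟩
      exact absurd (closure_of_hom D hD B E hE h hh).1 hbot
    · intro hsat
      exfalso
      obtain ⟨y, _, hchk⟩ := hsat failI (by simp)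
      unfold failI at hchk
      rw [chkI_iff (vd_WF hD) ?_ (by simp)] at hchk
      · refine hchk 0 0 (Der.base (Or.inl ?_))
        simp
      · intro f hf
        simp only [List.mem_cons, List.not_mem_nil, or_false] at hf
        subst hf
        unfold VD.MV
        simp
        omega
    · intro I hI
      simp only [List.mem_cons, List.not_mem_nil, or_false] at hI
      subst hI
      left
      rfl

theorem failI_unsat {D : TD} (hD : D.WF) : ¬ SatI lenI (chkI D.vd) failI := by
  rintro ⟨y, _, hchk⟩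
  unfold failI at hchk
  rw [chkI_iff (vd_WF hD) ?_ (by simp)] at hchk
  · refine hchk 0 0 (Der.base (Or.inl ?_))
    simp
  · intro f hf
    simp only [List.mem_cons, List.not_mem_nil, or_false] at hf
    subst hf
    unfold VD.MV
    simp
    omega

/-- the template property -/
def IsTemplate (D : TD) (A : BinStr D.K ℕ) : Prop :=
  ∀ (n : ℕ) (B : BinStr D.K (Fin n)), (∃ h, IsHom B A h) ↔
    ∃ (m : ℕ) (C : BinStr D.K (Fin m)), D.Model C ∧ ∃ h, IsHom B C h

theorem instW_spec {D : TD} (hD : D.WF) {A : BinStr D.K ℕ} (hA : IsTemplate D A)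
    (w : List Bool) :
    (w ∈ CSP A → ∃ β : ℕ → Bool, ∀ I ∈ instW D w, (∀ x ∈ I.2.2, x < w.length) ∧
        chkI D.vd (I, I.2.2.map β) = true) ∧
    ((∀ I ∈ instW D w, SatI lenI (chkI D.vd) I) → w ∈ CSP A) ∧
    (∀ I ∈ instW D w, I.2.2 = [] ∨
      D.onZ (D.GZ.cell (fun _ => D.z0) (I.2.2.length - 1) 0) = true) := by
  cases hw : parseStr D.K w with
  | none =>
    have hinst : instW D w = [failI] := by unfold instW; rw [hw]; rfl
    rw [hinst]
    refine ⟨?_, ?_, ?_⟩
    · rintro ⟨n, B, _, rfl⟩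
      obtain ⟨l, hl, _⟩ := parseStr_encStr B
      rw [hl] at hw
      simp at hw
    · intro h
      exact absurd (h failI (by simp)) (failI_unsat hD)
    · intro I hI
      simp only [List.mem_cons, List.not_mem_nil, or_false] at hI
      subst hI
      left
      rfl
  | some q =>
    obtain ⟨n, l⟩ := q
    obtain ⟨h1, h2, h3⟩ := parseStr_some hw
    have hinst : instW D w = instsOf D.vd n (closure D.rules D.M n l) := by
      unfold instW; rw [hw]; rfl
    rw [hinst]
    have hset : {f | f ∈ l} = TD.facts (strOf D.K n l) := by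
      ext f; exact h3 f
    have hKM : D.K + 2 = D.M := by unfold TD.K TD.M; omega
    have hC : ∀ f, f ∈ closure D.rules D.M n l ↔
        Der D.rules n (TD.facts (strOf D.K n l)) f := by
      intro f
      rw [mem_closure D.rules D.M n l (TD.rulesOK hD), hset]
      intro f hf
      rw [mem_univ]
      obtain ⟨r, x, y, _, rfl⟩ := (h3 f).1 hf
      refine ⟨?_, x.2, y.2⟩
      have := r.2
      simp only
      omega
    obtain ⟨h4, h5, h6⟩ := instsOf_spec hD (strOf D.K n l) hC
    have hmem : w ∈ CSP A ↔ ∃ h, IsHom (strOf D.K n l) A h := by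
      constructor
      · rintro ⟨n', B, h, hB⟩
        obtain ⟨l', hl', hB'⟩ := parseStr_encStr B
        rw [← hB, hw] at hl'
        simp only [Option.some.injEq, Prod.mk.injEq] at hl'
        obtain ⟨rfl, rfl⟩ := hl'
        rw [hB']
        exact h
      · intro h
        exact ⟨n, strOf D.K n l, h, h1⟩
    refine ⟨?_, ?_, h6⟩
    · intro hw'
      obtain ⟨β, hβ⟩ := h4 ((hA n _).1 (hmem.1 hw'))
      refine ⟨β, fun I hI => ?_⟩
      obtain ⟨h7, h8⟩ := hβ I hI
      exact ⟨fun x hx => (h7 x hx).trans_le h2, h8⟩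
    · intro h
      exact hmem.2 ((hA n _).2 (h5 h))

theorem instW_iff {D : TD} (hD : D.WF) {A : BinStr D.K ℕ} (hA : IsTemplate D A)
    (w : List Bool) : w ∈ CSP A ↔ ∀ I ∈ instW D w, SatI lenI (chkI D.vd) I := by
  obtain ⟨h1, h2, _⟩ := instW_spec hD hA w
  refine ⟨fun h I hI => ?_, h2⟩
  obtain ⟨β, hβ⟩ := h1 h
  exact ⟨I.2.2.map β, by simp [lenI], (hβ I hI).2⟩

/-- the verifier for the CSP -/
def cspV (D : TD) (q : List Bool × List Bool) : Bool :=
  (instW D q.1).all fun I => chkI D.vd (I, I.2.2.map fun x => q.2.getD x false)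

theorem Poly.cspV (D : TD) : Poly (cspV D) := by
  have h1 : Poly (fun q : List Bool × List Bool => Helper96.instW D q.1) :=
    Poly.comp (g := Helper96.instW D) (Poly.instW D) (by fun_prop)
  unfold Helper96.cspV
  refine Poly.all h1 ?_
  exact Poly.comp (g := Helper96.chkI D.vd)
    (f := fun q : (List Bool × List Bool) × CI =>
      (q.2, q.2.2.2.map fun x => q.1.2.getD x false)) (Poly.chkI D.vd)
    (Poly.prodMk (by fun_prop) (Poly.map (by fun_prop)
      (Poly.listGetD (by fun_prop) (by fun_prop) (by fun_prop))))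

theorem cspV_spec {D : TD} (hD : D.WF) {A : BinStr D.K ℕ} (hA : IsTemplate D A)
    (w : List Bool) :
    w ∈ CSP A ↔ ∃ y : List Bool, y.length ≤ (w.length + 2) ^ 1 ∧ cspV D (w, y) = true := by
  obtain ⟨h1, h2, _⟩ := instW_spec hD hA w
  constructor
  · intro h
    obtain ⟨β, hβ⟩ := h1 h
    refine ⟨(List.range w.length).map β, by simp, ?_⟩
    unfold cspV
    rw [List.all_eq_true]
    intro I hI
    obtain ⟨h3, h4⟩ := hβ I hI
    have e : (I.2.2.map fun x => ((List.range w.length).map β).getD x false)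
        = I.2.2.map β := by
      apply List.map_congr_left
      intro x hx
      have hx' := h3 x hx
      rw [List.getD_eq_getElem _ _ (by simpa using hx')]
      simp
    simp only
    rw [e]
    exact h4
  · rintro ⟨y, _, hy⟩
    unfold cspV at hy
    rw [List.all_eq_true] at hy
    exact h2 fun I hI => ⟨_, by simp [lenI], hy I hI⟩

end Pool.Agent.Helper96
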