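import Pool.Agent.Helper96.PolyList
import Pool.Agent.Helper96.Defs

/-!
# Encodings of structures by words
-/

set_option autoImplicit false
set_option linter.all false

namespace Pool.Agent.Helper96

open T Function

/-- all possible facts of structures with `K` relations on `n` elements -/
def triples (K n : ℕ) : List Fact :=
  (List.range K).flatMap fun r => (List.range n).flatMap fun i =>
    (List.range n).map fun j => (r + 2, i, j)

theorem mem_triples (K n : ℕ) (f : Fact) :
    f ∈ triples K n ↔ 2 ≤ f.1 ∧ f.1 < K + 2 ∧ f.2.1 < n ∧ f.2.2 < n := by
  obtain ⟨r, x, y⟩ := f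
  simp only [triples, List.mem_flatMap, List.mem_range, List.mem_map, Prod.mk.injEq]
  constructor
  · rintro ⟨r', hr, x', hx, y', hy, rfl, rfl, rfl⟩
    exact ⟨by omega, by omega, hx, hy⟩
  · rintro ⟨h2, hr, hx, hy⟩
    exact ⟨r - 2, by omega, x, hx, y, hy, by omega, rfl, rfl⟩

/-- the word with the tables given by `g` -/
def strCode (K n : ℕ) (g : Fact → Bool) : List Bool :=
  List.replicate n true ++ false :: (triples K n).map g

theorem finRange_map_val {β : Type} (n : ℕ) (f : ℕ → β) :
    (List.finRange n).map (fun i => f i.1) = (List.range n).map f := by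
  have : (List.finRange n).map (fun i => f i.1) = ((List.finRange n).map Fin.val).map f := by
    rw [List.map_map]; rfl
  rw [this]
  simp

theorem finRange_flatMap_val {β : Type} (n : ℕ) (f : ℕ → List β) :
    (List.finRange n).flatMap (fun i => f i.1) = (List.range n).flatMap f := by
  rw [List.flatMap_def, List.flatMap_def, finRange_map_val]

theorem encStr_eq {k n : ℕ} (B : BinStr k (Fin n)) (g : Fact → Bool)
    (h : ∀ (r : Fin k) (x y : Fin n), g (r.1 + 2, x.1, y.1) = true ↔ B.rel r x y) :
    encStr B = strCode k n g := by
  classical
  unfold encStr strCode triples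
  congr 2
  rw [List.map_flatMap]
  have e1 : (List.range k).flatMap (fun r => List.map g ((List.range n).flatMap fun i =>
      (List.range n).map fun j => (r + 2, i, j))) = (List.finRange k).flatMap (fun r =>
      List.map g ((List.range n).flatMap fun i => (List.range n).map fun j => (r.1 + 2, i, j))) :=
    (finRange_flatMap_val k (fun r => List.map g ((List.range n).flatMap fun i =>
      (List.range n).map fun j => (r + 2, i, j)))).symm
  rw [e1]
  congr 1
  funext r
  rw [List.map_flatMap]
  have e2 : (List.range n).flatMap (fun i => List.map g ((List.range n).map fun j =>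
      (r.1 + 2, i, j))) = (List.finRange n).flatMap (fun i => List.map g
      ((List.range n).map fun j => (r.1 + 2, i.1, j))) :=
    (finRange_flatMap_val n (fun i => List.map g ((List.range n).map fun j =>
      (r.1 + 2, i, j)))).symm
  rw [e2]
  congr 1
  funext i
  rw [List.map_map]
  have e3 : (List.range n).map (g ∘ fun j => (r.1 + 2, i.1, j)) =
      (List.finRange n).map (fun j => g (r.1 + 2, i.1, j.1)) :=
    (finRange_map_val n (fun j => g (r.1 + 2, i.1, j))).symm
  rw [e3]
  apply List.map_congr_left
  intro j _
  rw [Bool.eq_iff_iff, decide_eq_true_iff]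
  exact (h r i j).symm

/-- the length of the initial block of `true`s -/
def lead : List Bool → ℕ
  | [] => 0
  | true :: l => lead l + 1
  | false :: _ => 0

theorem lead_eq (n : ℕ) (l : List Bool) : lead (List.replicate n true ++ false :: l) = n := by
  induction n with
  | zero => rfl
  | succ n ih =>
    have : List.replicate (n + 1) true ++ false :: l
      = true :: (List.replicate n true ++ false :: l) := rfl
    rw [this, lead, ih]

theorem lead_le (l : List Bool) : lead l ≤ l.length := by
  induction l with
  | nil => simp [lead]
  | cons b l ih => cases b <;> simp [lead]; omega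

theorem lead_foldr (l : List Bool) :
    lead l = l.foldr (fun b acc => bif b then acc + 1 else 0) 0 := by
  induction l with
  | nil => rfl
  | cons b l ih => cases b <;> simp [lead, ih]

/-- the facts read off from a word -/
def readF (K : ℕ) (w : List Bool) : List Fact :=
  (((triples K (lead w)).zip (w.drop (lead w + 1))).filter fun q => q.2).map fun q => q.1

theorem readF_strCode (K n : ℕ) (g : Fact → Bool) :
    readF K (strCode K n g) = (triples K n).filter g := by
  unfold readF strCode
  rw [lead_eq]
  have e : (List.replicate n true ++ false :: (triples K n).map g).drop (n + 1)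
      = (triples K n).map g := by
    rw [List.drop_append]
    simp
  rw [e]
  induction triples K n with
  | nil => rfl
  | cons f l ih =>
    rw [List.map_cons, List.zip_cons_cons, List.filter_cons, List.filter_cons]
    cases hg : g f with
    | true => simp only [if_true, List.map_cons, ih]
    | false => simp only [Bool.false_eq_true, if_false, ih]

/-- parse a word as a structure with `K` relations -/
def parseStr (K : ℕ) (w : List Bool) : Option (ℕ × List Fact) :=
  bif decide (w = strCode K (lead w) (fun f => decide (f ∈ readF K w))) then
    some (lead w, readF K w) else none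

/-- the structure described by a list of facts -/
def strOf (K n : ℕ) (l : List Fact) : BinStr K (Fin n) where
  rel r x y := (r.1 + 2, x.1, y.1) ∈ l

theorem encStr_strOf (K n : ℕ) (l : List Fact) :
    encStr (strOf K n l) = strCode K n (fun f => decide (f ∈ l)) :=
  encStr_eq _ _ fun r x y => by simp [strOf]

theorem mem_readF (K : ℕ) (w : List Bool) (f : Fact) (hf : f ∈ readF K w) :
    f ∈ triples K (lead w) := by
  unfold readF at hf
  rw [List.mem_map] at hf
  obtain ⟨q, hq, rfl⟩ := hf
  exact (List.of_mem_zip (List.mem_filter.1 hq).1).1

theorem parseStr_some {K : ℕ} {w : List Bool} {n : ℕ} {l : List Fact}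
    (h : parseStr K w = some (n, l)) : w = encStr (strOf K n l) ∧ n ≤ w.length ∧
      ∀ f, f ∈ l ↔ f ∈ TD.facts (strOf K n l) := by
  unfold parseStr at h
  by_cases h1 : w = strCode K (lead w) (fun f => decide (f ∈ readF K w))
  · rw [decide_eq_true h1] at h
    simp only [cond_true, Option.some.injEq, Prod.mk.injEq] at h
    obtain ⟨h2, h3⟩ := h
    subst h2 h3
    refine ⟨?_, lead_le w, fun f => ?_⟩
    · rw [encStr_strOf]; exact h1
    · constructor
      · intro hf
        have h4 := (mem_triples _ _ _).1 (mem_readF K w f hf)
        obtain ⟨r, x, y⟩ := f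
        simp only at h4
        refine ⟨⟨r - 2, by omega⟩, ⟨x, h4.2.2.1⟩, ⟨y, h4.2.2.2⟩, ?_, ?_⟩
        · show (r - 2 + 2, x, y) ∈ readF K w
          have : r - 2 + 2 = r := by omega
          rw [this]; exact hf
        · simp only [Prod.mk.injEq, and_true]; omega
      · rintro ⟨r, x, y, h4, rfl⟩
        exact h4
  · rw [decide_eq_false h1] at h
    simp at h

theorem parseStr_encStr {K n : ℕ} (B : BinStr K (Fin n)) :
    ∃ l, parseStr K (encStr B) = some (n, l) ∧ strOf K n l = B := by
  classical
  set g : Fact → Bool := fun f => decide (f ∈ TD.facts B) with hg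
  have hB : ∀ (r : Fin K) (x y : Fin n), g (r.1 + 2, x.1, y.1) = true ↔ B.rel r x y := by
    intro r x y
    simp only [hg, decide_eq_true_eq]
    constructor
    · rintro ⟨r', x', y', h1, h2⟩
      simp only [Prod.mk.injEq, Nat.add_right_cancel_iff] at h2
      have e1 : r = r' := Fin.ext h2.1
      have e2 : x = x' := Fin.ext h2.2.1
      have e3 : y = y' := Fin.ext h2.2.2
      subst e1 e2 e3
      exact h1
    · intro h1
      exact ⟨r, x, y, h1, rfl⟩
  have h1 := encStr_eq B g hB
  have h2 : readF K (encStr B) = (triples K n).filter g := by rw [h1, readF_strCode]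
  have h3 : lead (encStr B) = n := by rw [h1]; exact lead_eq n _
  refine ⟨(triples K n).filter g, ?_, ?_⟩
  · unfold parseStr
    rw [h2, h3]
    have h4 : encStr B = strCode K n (fun f => decide (f ∈ (triples K n).filter g)) := by
      rw [h1]
      unfold strCode
      congr 2
      apply List.map_congr_left
      intro f hf
      simp [hf]
    rw [decide_eq_true h4]
    rfl
  · unfold strOf
    obtain ⟨rel⟩ := B
    congr 1
    funext r x y
    rw [eq_iff_iff, List.mem_filter, mem_triples, hB r x y]
    simp only
    constructor
    · exact fun h => h.2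
    · exact fun h => ⟨⟨by omega, by omega, x.2, y.2⟩, h⟩

section
variable {α : Type} [Enc α]

@[fun_prop]
theorem Poly.lead {f : α → List Bool} (hf : Poly f) : Poly (fun a => lead (f a)) := by
  obtain ⟨B, hB, hm, hs⟩ := hf.szPB
  have h := Poly.foldl' (f := fun a => (f a).reverse) (g := fun _ => (0 : ℕ))
    (h := fun _ acc b => bif b then acc + 1 else 0) (by fun_prop) (by fun_prop)
    (by fun_prop) (fun n => 2 * B n + 1) (by fun_prop) (by
      intro a l' hl'
      have key : ∀ (l : List Bool) (acc : ℕ),
          l.foldl (fun acc b => bif b then acc + 1 else 0) acc ≤ acc + l.length := by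
        intro l
        induction l with
        | nil => intro acc; simp
        | cons b l ih =>
          intro acc
          rw [List.foldl_cons, List.length_cons]
          cases b with
          | true => have := ih (acc + 1); simp only [cond_true]; omega
          | false => have := ih 0; simp only [cond_false]; omega
      have h1 := key l' 0
      have h2 := hl'.length_le
      rw [List.length_reverse] at h2
      have h3 := length_lt_sz (f a)
      have h4 := hs a
      rw [sz_nat]
      beta_reduce
      omega)
  refine h.recast fun a => ?_
  congr 1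
  rw [List.foldl_reverse, lead_foldr]

@[fun_prop]
theorem Poly.triples {f : α → ℕ} (hf : Poly f) (K : ℕ) : Poly (fun a => triples K (f a)) := by
  unfold Helper96.triples; fun_prop

@[fun_prop]
theorem Poly.readF {f : α → List Bool} (hf : Poly f) (K : ℕ) :
    Poly (fun a => readF K (f a)) := by
  unfold Helper96.readF; fun_prop

@[fun_prop]
theorem Poly.parseStr {f : α → List Bool} (hf : Poly f) (K : ℕ) :
    Poly (fun a => parseStr K (f a)) := by
  unfold Helper96.parseStr Helper96.strCode
  refine Poly.cond (Poly.decide_eq hf ?_) (by fun_prop) (by fun_prop)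
  refine Poly.append (by fun_prop) (Poly.cons (by fun_prop) (Poly.map (by fun_prop) ?_))
  fun_prop

end

end Pool.Agent.Helper96
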