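import Mathlib
import Pool.Agent.Helper28.SWBase

/-!
From a tree with leaf map to a binary laminar family (module for MP_778a07_co).
-/

set_option autoImplicit false

namespace Pool.Agent.Helper96.SWTree

open SimpleGraph

/-- A rooted structure on a tree. -/
theorem exists_parent {V : Type} [Fintype V] [DecidableEq V] (T : SimpleGraph V) (hT : T.IsTree)
    (r : V) : ∃ par : V → V, ∃ d : V → ℕ, par r = r ∧ (∀ x, x ≠ r → T.Adj x (par x)) ∧
      (∀ x, x ≠ r → d (par x) < d x) ∧
      (∀ x y, T.Adj x y → (x ≠ r ∧ par x = y) ∨ (y ≠ r ∧ par y = x)) := by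
  classical
  have hex : ∀ x, x ≠ r → ∃ y, T.Adj x y ∧ T.dist y r < T.dist x r := by
    intro x hx
    obtain ⟨p, hp⟩ := hT.connected.exists_walk_length_eq_dist x r
    cases p with
    | nil => exact absurd rfl hx
    | @cons _ y _ h q =>
      refine ⟨y, h, ?_⟩
      rw [← hp]
      have := T.dist_le q
      simp only [Walk.length_cons]
      omega
  let par : V → V := fun x => if h : x ≠ r then (hex x h).choose else r
  have hpar1 : ∀ x, x ≠ r → T.Adj x (par x) := by
    intro x hx
    have : par x = (hex x hx).choose := by simp only [par]; rw [dif_pos hx]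
    rw [this]; exact (hex x hx).choose_spec.1
  have hpar2 : ∀ x, x ≠ r → T.dist (par x) r < T.dist x r := by
    intro x hx
    have : par x = (hex x hx).choose := by simp only [par]; rw [dif_pos hx]
    rw [this]; exact (hex x hx).choose_spec.2
  refine ⟨par, fun x => T.dist x r, ?_, hpar1, hpar2, ?_⟩
  · simp [par]
  · let f : {x : V // x ≠ r} → T.edgeSet := fun x => ⟨s(x.1, par x.1), hpar1 x.1 x.2⟩
    have hf : Function.Injective f := by
      rintro ⟨x, hx⟩ ⟨y, hy⟩ hxy
      have h1 : s(x, par x) = s(y, par y) := congrArg Subtype.val hxy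
      rw [Sym2.eq_iff] at h1
      rcases h1 with h1 | h1
      · exact Subtype.ext h1.1
      · exfalso
        have h2 := hpar2 x hx
        have h3 := hpar2 y hy
        rw [← h1.1] at h3
        rw [h1.2] at h2
        omega
    have hcard : Fintype.card T.edgeSet = Fintype.card {x : V // x ≠ r} := by
      have h1 := hT.card_edgeFinset
      have h2 : Fintype.card {x : V // x ≠ r} = Fintype.card V - 1 := by
        simp [Fintype.card_subtype_compl]
      rw [h2, ← SimpleGraph.edgeFinset_card]
      omega
    have hsurj : Function.Surjective f :=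
      ((Fintype.bijective_iff_injective_and_card f).2 ⟨hf, hcard.symm⟩).2
    intro x y hxy
    obtain ⟨⟨z, hz⟩, hz2⟩ := hsurj ⟨s(x, y), hxy⟩
    have h1 : s(z, par z) = s(x, y) := congrArg Subtype.val hz2
    rw [Sym2.eq_iff] at h1
    rcases h1 with ⟨h1, h2⟩ | ⟨h1, h2⟩
    · left; subst h1; exact ⟨hz, h2⟩
    · right; subst h1; exact ⟨hz, h2⟩

section rooted

variable {V : Type} [Fintype V] [DecidableEq V] {T : SimpleGraph V} {r : V} {par : V → V}
  {d : V → ℕ}

/-- Descendants. -/
def D (par : V → V) (w : V) : Set V := {x | ∃ k, par^[k] x = w}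

omit [Fintype V] [DecidableEq V] in
theorem self_mem (w : V) : w ∈ D par w := ⟨0, rfl⟩

omit [Fintype V] [DecidableEq V] in
theorem D_sub {w w' : V} (h : w ∈ D par w') : D par w ⊆ D par w' := by
  rintro x ⟨k, hk⟩
  obtain ⟨l, hl⟩ := h
  exact ⟨l + k, by rw [Function.iterate_add_apply, hk, hl]⟩

omit [Fintype V] [DecidableEq V] in
theorem D_lam (w w' : V) : D par w ⊆ D par w' ∨ D par w' ⊆ D par w ∨
    Disjoint (D par w) (D par w') := by
  by_cases h : Disjoint (D par w) (D par w')
  · exact Or.inr (Or.inr h)
  · rw [Set.not_disjoint_iff] at h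
    obtain ⟨x, ⟨i, hi⟩, ⟨j, hj⟩⟩ := h
    rcases le_total i j with hij | hij
    · left
      apply D_sub
      refine ⟨j - i, ?_⟩
      rw [← hi, ← Function.iterate_add_apply, Nat.sub_add_cancel hij, hj]
    · right; left
      apply D_sub
      refine ⟨i - j, ?_⟩
      rw [← hj, ← Function.iterate_add_apply, Nat.sub_add_cancel hij, hi]

omit [Fintype V] [DecidableEq V] in
/-- Every vertex descends from the root. -/
theorem mem_root (hd : ∀ x, x ≠ r → d (par x) < d x) (x : V) : x ∈ D par r := by
  have : ∀ n, ∀ x, d x ≤ n → x ∈ D par r := by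
    intro n
    induction n with
    | zero =>
      intro x hx
      by_cases h : x = r
      · subst h; exact self_mem _
      · have := hd x h; omega
    | succ n ih =>
      intro x hx
      by_cases h : x = r
      · subst h; exact self_mem _
      · have h1 := hd x h
        obtain ⟨k, hk⟩ := ih (par x) (by omega)
        exact ⟨k + 1, by rw [Function.iterate_succ_apply, hk]⟩
  exact this _ x le_rfl

omit [Fintype V] [DecidableEq V] in
theorem d_iter (h0 : par r = r) (hd : ∀ x, x ≠ r → d (par x) < d x) (k : ℕ) (x : V) :
    d (par^[k] x) ≤ d x := by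
  induction k generalizing x with
  | zero => simp
  | succ k ih =>
    rw [Function.iterate_succ_apply]
    refine (ih _).trans ?_
    by_cases h : x = r
    · subst h; rw [h0]
    · exact (hd x h).le

omit [Fintype V] [DecidableEq V] in
theorem par_notMem (h0 : par r = r) (hd : ∀ x, x ≠ r → d (par x) < d x) {w : V} (hw : w ≠ r) :
    par w ∉ D par w := by
  rintro ⟨k, hk⟩
  have h1 := d_iter h0 hd k (par w)
  have h2 := hd w hw
  rw [hk] at h1
  omega

omit [Fintype V] [DecidableEq V] in
/-- Going up from a vertex of `D w` stays connected without the edge above `w`. -/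
theorem reach_up (h0 : par r = r) (ha : ∀ x, x ≠ r → T.Adj x (par x))
    (hd : ∀ x, x ≠ r → d (par x) < d x) {w x : V} (hw : w ≠ r) (hx : x ∈ D par w) :
    (T.deleteEdges {s(par w, w)}).Reachable w x := by
  obtain ⟨k, hk⟩ := hx
  induction k generalizing x with
  | zero => simp at hk; subst hk; exact Reachable.refl _
  | succ k ih =>
    by_cases hxw : x = w
    · subst hxw; exact Reachable.refl _
    · have hxr : x ≠ r := by
        rintro rfl
        have : par^[k+1] x = x := by
          have : ∀ k, par^[k] x = x := fun k => Function.iterate_fixed h0 k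
          exact this _
        exact hw (hk.symm.trans this)
      rw [Function.iterate_succ_apply] at hk
      refine (ih hk).trans ?_
      apply Adj.reachable
      rw [deleteEdges_adj]
      refine ⟨(ha x hxr).symm, ?_⟩
      simp only [Set.mem_singleton_iff, Sym2.eq_iff]
      rintro (⟨h1, h2⟩ | ⟨h1, h2⟩)
      · exact hxw h2
      · have h3 := hd x hxr
        have h4 := hd w hw
        rw [h1] at h3
        rw [← h2] at h4
        omega

omit [Fintype V] [DecidableEq V] in
theorem reach_root (ha : ∀ x, x ≠ r → T.Adj x (par x))
    (hd : ∀ x, x ≠ r → d (par x) < d x) {w x : V} (hw : w ≠ r) (hx : x ∉ D par w) :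
    (T.deleteEdges {s(par w, w)}).Reachable x r := by
  have : ∀ n, ∀ x, d x ≤ n → x ∉ D par w → (T.deleteEdges {s(par w, w)}).Reachable x r := by
    intro n
    induction n with
    | zero =>
      intro x hx _
      by_cases h : x = r
      · subst h; exact Reachable.refl _
      · have := hd x h; omega
    | succ n ih =>
      intro x hx hxw
      by_cases h : x = r
      · subst h; exact Reachable.refl _
      · have h1 := hd x h
        have h2 : par x ∉ D par w := by
          rintro ⟨k, hk⟩
          exact hxw ⟨k + 1, by rw [Function.iterate_succ_apply, hk]⟩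
        refine Reachable.trans ?_ (ih (par x) (by omega) h2)
        apply Adj.reachable
        rw [deleteEdges_adj]
        refine ⟨ha x h, ?_⟩
        simp only [Set.mem_singleton_iff, Sym2.eq_iff]
        rintro (⟨h3, h4⟩ | ⟨h3, h4⟩)
        · exact h2 (h4 ▸ self_mem _)
        · exact hxw (h3 ▸ self_mem _)
  exact this _ x le_rfl hx

omit [Fintype V] [DecidableEq V] in
theorem not_reach (hT : T.IsTree) (ha : ∀ x, x ≠ r → T.Adj x (par x)) {w : V} (hw : w ≠ r) :
    ¬ (T.deleteEdges {s(par w, w)}).Reachable (par w) w := by
  have h1 := isAcyclic_iff_forall_adj_isBridge.1 hT.isAcyclic (ha w hw).symm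
  rw [isBridge_iff] at h1
  exact h1

omit [Fintype V] [DecidableEq V] in
theorem mem_D_iff (hT : T.IsTree) (h0 : par r = r) (ha : ∀ x, x ≠ r → T.Adj x (par x))
    (hd : ∀ x, x ≠ r → d (par x) < d x) {w : V} (hw : w ≠ r) (x : V) :
    x ∈ D par w ↔ ¬ (T.deleteEdges {s(par w, w)}).Reachable (par w) x := by
  constructor
  · intro h1 h2
    exact not_reach hT ha hw (h2.trans (reach_up h0 ha hd hw h1).symm)
  · intro h1
    by_contra h2
    exact h1 ((reach_root ha hd hw (par_notMem h0 hd hw)).trans (reach_root ha hd hw h2).symm)

omit [Fintype V] [DecidableEq V] in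
theorem notMem_D_iff (hT : T.IsTree) (h0 : par r = r) (ha : ∀ x, x ≠ r → T.Adj x (par x))
    (hd : ∀ x, x ≠ r → d (par x) < d x) {w : V} (hw : w ≠ r) (x : V) :
    x ∉ D par w ↔ ¬ (T.deleteEdges {s(w, par w)}).Reachable w x := by
  rw [Sym2.eq_swap]
  constructor
  · intro h1 h2
    have h3 := (reach_root ha hd hw (par_notMem h0 hd hw)).trans (reach_root ha hd hw h1).symm
    exact not_reach hT ha hw (h3.trans h2.symm)
  · intro h1 h2
    exact h1 (reach_up h0 ha hd hw h2)

omit [Fintype V] [DecidableEq V] in
/-- A proper descendant lies below a child. -/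
theorem child_of_mem {w x : V} (hx : x ∈ D par w) (hne : x ≠ w) :
    ∃ c, c ≠ w ∧ par c = w ∧ x ∈ D par c := by
  obtain ⟨k, hk⟩ := hx
  induction k generalizing x with
  | zero => exact absurd hk hne
  | succ k ih =>
    rw [Function.iterate_succ_apply] at hk
    by_cases h : par x = w
    · exact ⟨x, hne, h, self_mem _⟩
    · obtain ⟨c, h1, h2, h3⟩ := ih h hk
      obtain ⟨l, hl⟩ := h3
      exact ⟨c, h1, h2, l + 1, by rw [Function.iterate_succ_apply, hl]⟩

omit [Fintype V] [DecidableEq V] in
theorem child_mem {w c : V} (hc : par c = w) : c ∈ D par w := ⟨1, hc⟩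

omit [Fintype V] [DecidableEq V] in
theorem child_disj (h0 : par r = r) (hd : ∀ x, x ≠ r → d (par x) < d x) {w c c' : V}
    (hw : w ≠ r) (hc : par c = w) (hc' : par c' = w) (hne : c ≠ c') :
    Disjoint (D par c) (D par c') := by
  have key : ∀ c c', par c = w → par c' = w → c ≠ c' → ¬ (D par c ⊆ D par c') := by
    intro c c' hc hc' hne hsub
    obtain ⟨k, hk⟩ := hsub (self_mem c)
    cases k with
    | zero => exact hne hk
    | succ k =>
      rw [Function.iterate_succ_apply, hc] at hk
      have h1 := d_iter h0 hd k w
      have hr : c' ≠ r := by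
        rintro rfl
        exact hw (hc'.symm.trans h0)
      have h2 := hd c' hr
      rw [hc'] at h2
      rw [hk] at h1
      omega
  rcases D_lam (par := par) c c' with h | h | h
  · exact absurd h (key c c' hc hc' hne)
  · exact absurd h (key c' c hc' hc hne.symm)
  · exact h

omit [Fintype V] [DecidableEq V] in
theorem nbr_eq (ha : ∀ x, x ≠ r → T.Adj x (par x))
    (hn : ∀ x y, T.Adj x y → (x ≠ r ∧ par x = y) ∨ (y ≠ r ∧ par y = x)) (h0 : par r = r)
    (hd : ∀ x, x ≠ r → d (par x) < d x) {w : V} (hw : w ≠ r) :
    T.neighborSet w = insert (par w) {c | par c = w} := by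
  ext x
  simp only [mem_neighborSet, Set.mem_insert_iff, Set.mem_setOf_eq]
  constructor
  · intro h
    rcases hn w x h with h1 | h1
    · exact Or.inl h1.2.symm
    · exact Or.inr h1.2
  · rintro (rfl | rfl)
    · exact ha w hw
    · have : x ≠ r := by
        rintro rfl
        exact hw h0
      exact (ha x this).symm

omit [DecidableEq V] in
theorem nbr_card (ha : ∀ x, x ≠ r → T.Adj x (par x))
    (hn : ∀ x y, T.Adj x y → (x ≠ r ∧ par x = y) ∨ (y ≠ r ∧ par y = x)) (h0 : par r = r)
    (hd : ∀ x, x ≠ r → d (par x) < d x) {w : V} (hw : w ≠ r) :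
    (T.neighborSet w).ncard = {c | par c = w}.ncard + 1 := by
  rw [nbr_eq ha hn h0 hd hw, Set.ncard_insert_of_notMem]
  intro h
  exact par_notMem h0 hd hw (child_mem h)

omit [DecidableEq V] in
theorem D_lt (h0 : par r = r) (hd : ∀ x, x ≠ r → d (par x) < d x) {w c : V} (hw : w ≠ r)
    (hc : par c = w) : (D par c).ncard < (D par w).ncard := by
  apply Set.ncard_lt_ncard _ (Set.toFinite _)
  refine ⟨D_sub (child_mem hc), fun h => ?_⟩
  have hr : c ≠ r := by
    rintro rfl
    exact hw (hc.symm.trans h0)
  apply par_notMem h0 hd hr
  rw [hc]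
  exact h (self_mem w)

end rooted

open Classical in
theorem exists_lam {n m : ℕ} (T : SimpleGraph (Fin m)) (L : Fin n → Fin m) (hT : T.IsTree)
    (hdeg : ∀ x, (T.neighborSet x).ncard ≤ 3) (hL : Function.Injective L)
    (hleaf : ∀ x, (T.neighborSet x).ncard ≤ 1 ↔ x ∈ Set.range L) :
    ∃ F : Set (Finset (Fin n)), Pool.Agent.Helper28.SW.Lam F ∧
      ∀ A ∈ F, A = Finset.univ ∨ ∃ u w, T.Adj u w ∧
        ∀ v : Fin n, v ∈ A ↔ ¬ (T.deleteEdges {s(u, w)}).Reachable u (L v) := by
  -- a leaf root
  have hr : ∃ r, (T.neighborSet r).ncard ≤ 1 := by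
    rcases subsingleton_or_nontrivial (Fin m) with h | h
    · obtain ⟨r⟩ := hT.connected.nonempty
      refine ⟨r, ?_⟩
      calc (T.neighborSet r).ncard ≤ (Set.univ : Set (Fin m)).ncard :=
            Set.ncard_le_ncard (Set.subset_univ _) (Set.toFinite _)
        _ ≤ 1 := by
            rw [Set.ncard_univ, Nat.card_eq_fintype_card]
            exact Fintype.card_le_one_iff_subsingleton.2 h
    · obtain ⟨r, hr⟩ := hT.exists_vert_degree_one_of_nontrivial
      refine ⟨r, ?_⟩
      rw [Set.ncard_eq_toFinset_card', ← SimpleGraph.neighborFinset, SimpleGraph.card_neighborFinset_eq_degree, hr]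
  obtain ⟨r, hr⟩ := hr
  obtain ⟨v0, hv0⟩ := (hleaf r).1 hr
  obtain ⟨par, d, h0, ha, hd, hn⟩ := exists_parent T hT r
  let S : Fin m → Finset (Fin n) := fun w => Finset.univ.filter (fun v => L v ∈ D par w)
  have hS : ∀ w v, v ∈ S w ↔ L v ∈ D par w := by intro w v; simp [S]
  have hSsub : ∀ w w', D par w ⊆ D par w' → S w ⊆ S w' := by
    intro w w' h v hv
    rw [hS] at hv ⊢
    exact h hv
  have hSdis : ∀ w w', Disjoint (D par w) (D par w') → Disjoint (S w) (S w') := by
    intro w w' h
    rw [Finset.disjoint_left]
    intro v hv hv'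
    rw [hS] at hv hv'
    exact Set.disjoint_left.1 h hv hv'
  have hSne : ∀ N, ∀ w, w ≠ r → (D par w).ncard ≤ N → (S w).Nonempty := by
    intro N
    induction N with
    | zero =>
      intro w hw hN
      exfalso
      have : 0 < (D par w).ncard := (Set.ncard_pos (Set.toFinite _)).2 ⟨w, self_mem w⟩
      omega
    | succ N ih =>
      intro w hw hN
      by_cases hc : ∃ c, par c = w
      · obtain ⟨c, hc⟩ := hc
        have h1 := D_lt h0 hd hw hc
        have hcr : c ≠ r := by
          rintro rfl
          exact hw (hc.symm.trans h0)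
        exact (ih c hcr (by omega)).mono (hSsub _ _ (D_sub (child_mem hc)))
      · have h1 := nbr_card ha hn h0 hd hw
        have h2 : {c | par c = w} = ∅ := by
          ext c; simp only [Set.mem_setOf_eq, Set.mem_empty_iff_false, iff_false]
          exact fun h => hc ⟨c, h⟩
        rw [h2, Set.ncard_empty] at h1
        obtain ⟨v, hv⟩ := (hleaf w).1 (by omega)
        exact ⟨v, by rw [hS, hv]; exact self_mem w⟩
  let F : Set (Finset (Fin n)) := {A | A = Finset.univ ∨ A = {v0} ∨ ∃ w, w ≠ r ∧ A = S w}
  have hsplit : ∀ N, ∀ w, w ≠ r → (D par w).ncard ≤ N → (S w).card ≤ 1 ∨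
      ∃ B ∈ F, ∃ C ∈ F, B ∪ C = S w ∧ Disjoint B C ∧ B.Nonempty ∧ C.Nonempty := by
    intro N
    induction N with
    | zero =>
      intro w hw hN
      exfalso
      have : 0 < (D par w).ncard := (Set.ncard_pos (Set.toFinite _)).2 ⟨w, self_mem w⟩
      omega
    | succ N ih =>
      intro w hw hN
      have h1 := nbr_card ha hn h0 hd hw
      have h3 := hdeg w
      by_cases hc0 : {c | par c = w}.ncard = 0
      · left
        obtain ⟨v1, hv1⟩ := (hleaf w).1 (by omega)
        have h2 : {c | par c = w} = ∅ := (Set.ncard_eq_zero (Set.toFinite _)).1 hc0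
        have : S w ⊆ {v1} := by
          intro v hv
          rw [hS] at hv
          rw [Finset.mem_singleton]
          by_contra hne
          obtain ⟨c, hc1, hc2, hc3⟩ := child_of_mem hv (fun h => hne (hL (h.trans hv1.symm)))
          have : c ∈ {c | par c = w} := hc2
          rw [h2] at this
          exact this
        exact (Finset.card_le_card this).trans (by simp)
      · have hnr : w ∉ Set.range L := by
          rw [← hleaf]
          omega
        by_cases hc1 : {c | par c = w}.ncard = 1
        · obtain ⟨c, hc⟩ := Set.ncard_eq_one.1 hc1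
          have hcw : par c = w := by
            have : c ∈ {c | par c = w} := by rw [hc]; rfl
            exact this
          have hcr : c ≠ r := by
            rintro rfl
            exact hw (hcw.symm.trans h0)
          have hEq : S w = S c := by
            apply Finset.Subset.antisymm _ (hSsub _ _ (D_sub (child_mem hcw)))
            intro v hv
            rw [hS] at hv ⊢
            obtain ⟨c', hc1, hc2, hc3⟩ := child_of_mem hv (fun h => hnr ⟨v, h⟩)
            have : c' ∈ {c | par c = w} := hc2
            rw [hc] at this
            rw [← (this : c' = c)]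
            exact hc3
          rw [hEq]
          have := D_lt h0 hd hw hcw
          exact ih c hcr (by omega)
        · right
          have hc2 : {c | par c = w}.ncard = 2 := by omega
          obtain ⟨c, c', hne, hc⟩ := Set.ncard_eq_two.1 hc2
          have hcw : par c = w := by
            have : c ∈ {c | par c = w} := by rw [hc]; simp
            exact this
          have hcw' : par c' = w := by
            have : c' ∈ {c | par c = w} := by rw [hc]; simp
            exact this
          have hcr : c ≠ r := by
            rintro rfl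
            exact hw (hcw.symm.trans h0)
          have hcr' : c' ≠ r := by
            rintro rfl
            exact hw (hcw'.symm.trans h0)
          refine ⟨S c, Or.inr (Or.inr ⟨c, hcr, rfl⟩), S c', Or.inr (Or.inr ⟨c', hcr', rfl⟩), ?_,
            hSdis _ _ (child_disj h0 hd hw hcw hcw' hne), hSne _ c hcr le_rfl,
            hSne _ c' hcr' le_rfl⟩
          apply Finset.Subset.antisymm
          · apply Finset.union_subset
            · exact hSsub _ _ (D_sub (child_mem hcw))
            · exact hSsub _ _ (D_sub (child_mem hcw'))
          · intro v hv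
            rw [hS] at hv
            obtain ⟨x, hx1, hx2, hx3⟩ := child_of_mem hv (fun h => hnr ⟨v, h⟩)
            have : x ∈ {c | par c = w} := hx2
            rw [hc] at this
            rw [Finset.mem_union]
            rcases this with h | h
            · left; rw [hS, ← h]; exact hx3
            · right; rw [hS, ← (h : x = c')]; exact hx3
  have hrD : ∀ w, w ≠ r → r ∉ D par w := by
    rintro w hw ⟨k, hk⟩
    rw [Function.iterate_fixed h0 k] at hk
    exact hw hk.symm
  refine ⟨F, ⟨Or.inl rfl, ?_, ?_⟩, ?_⟩
  · -- laminar
    rintro A (rfl | rfl | ⟨w, hw, rfl⟩) B hB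
    · exact Or.inr (Or.inl (Finset.subset_univ _))
    · by_cases h : v0 ∈ B
      · left; simpa using h
      · right; right; simpa using h
    · rcases hB with rfl | rfl | ⟨w', hw', rfl⟩
      · exact Or.inl (Finset.subset_univ _)
      · by_cases h : v0 ∈ S w
        · right; left; simpa using h
        · right; right; simpa using h
      · rcases D_lam (par := par) w w' with h | h | h
        · exact Or.inl (hSsub _ _ h)
        · exact Or.inr (Or.inl (hSsub _ _ h))
        · exact Or.inr (Or.inr (hSdis _ _ h))
  · -- splitting
    rintro A (rfl | rfl | ⟨w, hw, rfl⟩)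
    · by_cases hex : ∃ x, x ≠ r
      · right
        obtain ⟨x, hx⟩ := hex
        obtain ⟨w, hw1, hw2, hw3⟩ := child_of_mem (mem_root hd x) hx
        have huniq : ∀ w', w' ≠ r → par w' = r → w' = w := by
          intro w' h1 h2
          have h3 : T.neighborSet r ⊆ {w} := by
            have ha1 : w ∈ T.neighborSet r := by
              have := (ha w hw1).symm
              rwa [hw2] at this
            intro y hy
            by_contra hne
            have : ({w, y} : Set (Fin m)).ncard ≤ 1 := by
              refine (Set.ncard_le_ncard ?_ (Set.toFinite _)).trans hr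
              rintro z (rfl | rfl)
              · exact ha1
              · exact hy
            rw [Set.ncard_pair (fun h => hne h.symm)] at this
            omega
          have := (ha w' h1).symm
          rw [h2] at this
          exact h3 this
        refine ⟨{v0}, Or.inr (Or.inl rfl), S w, Or.inr (Or.inr ⟨w, hw1, rfl⟩), ?_, ?_, by simp,
          hSne _ w hw1 le_rfl⟩
        · apply Finset.Subset.antisymm (Finset.subset_univ _)
          intro v _
          rw [Finset.mem_union, Finset.mem_singleton, hS]
          by_cases h : L v = r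
          · left; exact hL (h.trans hv0.symm)
          · right
            obtain ⟨w', h1, h2, h3⟩ := child_of_mem (mem_root hd (L v)) h
            rw [← huniq w' h1 h2]; exact h3
        · rw [Finset.disjoint_singleton_left, hS, hv0]
          exact hrD w hw1
      · left
        push Not at hex
        rw [Finset.card_univ]
        apply Fintype.card_le_one_iff.2
        intro a b
        exact hL ((hex _).trans (hex _).symm)
    · left; simp
    · exact hsplit _ w hw le_rfl
  · rintro A (rfl | rfl | ⟨w, hw, rfl⟩)
    · exact Or.inl rfl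
    · by_cases hex : ∃ x, x ≠ r
      · right
        obtain ⟨x, hx⟩ := hex
        obtain ⟨w, hw1, hw2, hw3⟩ := child_of_mem (mem_root hd x) hx
        have huniq : ∀ w', w' ≠ r → par w' = r → w' = w := by
          intro w' h1 h2
          have h3 : T.neighborSet r ⊆ {w} := by
            have ha1 : w ∈ T.neighborSet r := by
              have := (ha w hw1).symm
              rwa [hw2] at this
            intro y hy
            by_contra hne
            have : ({w, y} : Set (Fin m)).ncard ≤ 1 := by
              refine (Set.ncard_le_ncard ?_ (Set.toFinite _)).trans hr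
              rintro z (rfl | rfl)
              · exact ha1
              · exact hy
            rw [Set.ncard_pair (fun h => hne h.symm)] at this
            omega
          have := (ha w' h1).symm
          rw [h2] at this
          exact h3 this
        refine ⟨w, par w, ha w hw1, fun v => ?_⟩
        rw [Finset.mem_singleton, ← notMem_D_iff hT h0 ha hd hw1]
        constructor
        · rintro rfl
          rw [hv0]
          exact hrD w hw1
        · intro h
          by_contra hne
          apply h
          obtain ⟨w', h1, h2, h3⟩ := child_of_mem (mem_root hd (L v))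
            (fun h => hne (hL (h.trans hv0.symm)))
          rw [← huniq w' h1 h2]; exact h3
      · left
        push Not at hex
        ext v
        simp only [Finset.mem_singleton, Finset.mem_univ, iff_true]
        exact hL ((hex _).trans (hex _).symm)
    · right
      exact ⟨par w, w, (ha w hw).symm, fun v => by rw [hS]; exact mem_D_iff hT h0 ha hd hw _⟩

end Pool.Agent.Helper96.SWTree
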