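import Pool.Agent.Helper96.Cmd

/-!
# Binary trees as universal data, and the low level routines
-/

set_option autoImplicit false
set_option linter.all false
set_option linter.unusedSimpArgs false

namespace Pool.Agent.Helper96

/-- binary trees, the universal data type -/
inductive T
  | L
  | N (l r : T)
  deriving DecidableEq, Encodable

namespace T

/-- size of a tree -/
def size : T → ℕ
  | L => 1
  | N l r => size l + size r + 1

/-- prefix code of a tree -/
def code : T → List ℕ
  | L => [0]
  | N l r => 1 :: (code l ++ code r)

theorem length_code (t : T) : (code t).length = size t := by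
  induction t with
  | L => rfl
  | N l r ihl ihr => simp [code, size, ihl, ihr]

theorem size_pos (t : T) : 0 < size t := by
  cases t <;> simp [size]

theorem code_mem (t : T) : ∀ a ∈ code t, a = 0 ∨ a = 1 := by
  induction t with
  | L => simp [code]
  | N l r ihl ihr =>
    intro a ha
    simp only [code, List.mem_cons, List.mem_append] at ha
    rcases ha with h | h | h
    · right; exact h
    · exact ihl a h
    · exact ihr a h

/-- the right spine of a tree as a list -/
def spine : T → List T
  | L => []
  | N a l => a :: spine l

/-- a list as a tree -/
def ofList : List T → T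
  | [] => L
  | a :: l => N a (ofList l)

@[simp] theorem spine_ofList (l : List T) : spine (ofList l) = l := by
  induction l with
  | nil => rfl
  | cons a l ih => simp [ofList, spine, ih]

@[simp] theorem ofList_spine (t : T) : ofList (spine t) = t := by
  induction t with
  | L => rfl
  | N a l _ ih => simp [ofList, spine, ih]

end T

open T Cmd Function

/-! ### moving a value between stacks -/

/-- the loop moving one value from stack `i` to stack `j` (reversed) -/
def mvLoop (i j c : ℕ) : Cmd :=
  wh c 2 (ite i 1
    (seq (pop i) (seq (push j 1) (push c 1)))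
    (seq (pop i) (seq (push j 0) (pop c))))

theorem mvLoop_spec (i j c : ℕ) (hij : i ≠ j) (hic : i ≠ c) (hjc : j ≠ c) (t : T) :
    ∀ (s : Stk) (r cs : List ℕ), s i = code t ++ r → s c = 1 :: cs →
    ∀ (B : ℕ) (s' : Stk),
      Run (mvLoop i j c) (update (update (update s i r) j ((code t).reverse ++ s j)) c cs) B s' →
      Run (mvLoop i j c) s (B + 7 * size t) s' := by
  induction t with
  | L =>
    intro s r cs hi hc B s' h
    have h1 : Run (ite i 1
        (seq (pop i) (seq (push j 1) (push c 1)))
        (seq (pop i) (seq (push j 0) (pop c)))) s 6
        (update (update (update s i r) j ((code L).reverse ++ s j)) c cs) := by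
      have hh : (s i).head? ≠ some 1 := by rw [hi]; simp [code]
      have := Run.ite_neg (p := (seq (pop i) (seq (push j 1) (push c 1)))) hh
        ((Run.pop i s).seq ((Run.push j 0 _).seq (Run.pop c _)))
      convert this using 1
      funext k
      by_cases g1 : k = c
      · subst g1
        simp [Function.update_apply, hc, hjc.symm, hic.symm]
      · by_cases g2 : k = j
        · subst g2
          simp [Function.update_apply, g1, code, hij.symm]
        · by_cases g3 : k = i
          · subst g3
            simp [Function.update_apply, g1, g2, hi, code]
          · simp [Function.update_apply, g1, g2, g3]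
    have hh : (s c).head? ≠ some 2 := by rw [hc]; simp
    exact (Run.wh_step hh h1 h).mono (by simp [size]; omega)
  | N l r' ihl ihr =>
    intro s r cs hi hc B s' h
    set s1 : Stk := update (update (update s i (code l ++ (code r' ++ r))) j (1 :: s j)) c
      (1 :: 1 :: cs) with hs1
    have h1 : Run (ite i 1
        (seq (pop i) (seq (push j 1) (push c 1)))
        (seq (pop i) (seq (push j 0) (pop c)))) s 6 s1 := by
      have hh : (s i).head? = some 1 := by rw [hi]; simp [code]
      have := Run.ite_pos (q := (seq (pop i) (seq (push j 0) (pop c)))) hh
        ((Run.pop i s).seq ((Run.push j 1 _).seq (Run.push c 1 _)))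
      convert this using 1
      funext k
      by_cases g1 : k = c
      · subst g1
        simp [hs1, Function.update_apply, hc, hjc.symm, hic.symm]
      · by_cases g2 : k = j
        · subst g2
          simp [hs1, Function.update_apply, g1, hij.symm]
        · by_cases g3 : k = i
          · subst g3
            simp [hs1, Function.update_apply, g1, g2, hi, code]
          · simp [hs1, Function.update_apply, g1, g2, g3]
    have hh : (s c).head? ≠ some 2 := by rw [hc]; simp
    have a1 : s1 i = code l ++ (code r' ++ r) := by
      simp [hs1, Function.update_apply, hic, hij]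
    have a2 : s1 c = 1 :: (1 :: cs) := by simp [hs1]
    have key := ihl s1 (code r' ++ r) (1 :: cs) a1 a2 (B + 7 * size r') s' ?_
    · exact (Run.wh_step hh h1 key).mono (by simp [size]; omega)
    · set s2 : Stk := update (update (update s1 i (code r' ++ r)) j ((code l).reverse ++ s1 j)) c
        (1 :: cs) with hs2
      have b1 : s2 i = code r' ++ r := by
        simp [hs2, Function.update_apply, hic, hij]
      have b2 : s2 c = 1 :: cs := by simp [hs2]
      apply ihr s2 r cs b1 b2 B s'
      convert h using 1
      funext k
      by_cases g1 : k = c
      · subst g1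
        simp
      · by_cases g2 : k = j
        · subst g2
          simp [hs1, hs2, Function.update_apply, g1, code]
        · by_cases g3 : k = i
          · subst g3
            simp [Function.update_apply, g1, g2]
          · simp [hs1, hs2, Function.update_apply, g1, g2, g3]

/-- move one value from stack `i` to stack `j`, reversed and on top of a marker `2`;
`c` is used as a counter -/
def mv (i j c : ℕ) : Cmd :=
  seq (push c 2) (seq (push c 1) (seq (push j 2) (seq (mvLoop i j c) (pop c))))

theorem mv_spec (i j c : ℕ) (hij : i ≠ j) (hic : i ≠ c) (hjc : j ≠ c) (t : T) (s : Stk)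
    (r : List ℕ) (hi : s i = code t ++ r) :
    Run (mv i j c) s (7 * size t + 9)
      (update (update s i r) j ((code t).reverse ++ 2 :: s j)) := by
  set s1 : Stk := update (update (update s c (2 :: s c)) c (1 :: 2 :: s c)) j (2 :: s j) with hs1
  set s2 : Stk := update (update (update s1 i r) j ((code t).reverse ++ s1 j)) c (2 :: s c)
    with hs2
  have e1 : Run (push c 2) s 1 (update s c (2 :: s c)) := Run.push c 2 s
  have e2 : Run (push c 1) (update s c (2 :: s c)) 1
      (update (update s c (2 :: s c)) c (1 :: 2 :: s c)) := by
    have := Run.push c 1 (update s c (2 :: s c))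
    simpa using this
  have e3 : Run (push j 2) (update (update s c (2 :: s c)) c (1 :: 2 :: s c)) 1 s1 := by
    have := Run.push j 2 (update (update s c (2 :: s c)) c (1 :: 2 :: s c))
    simpa [hs1, Function.update_apply, hjc] using this
  have e4 : Run (mvLoop i j c) s1 (1 + 7 * size t) s2 := by
    apply mvLoop_spec i j c hij hic hjc t s1 r (2 :: s c)
    · simp [hs1, Function.update_apply, hic, hij, hi]
    · simp [hs1, Function.update_apply, hjc.symm]
    · exact Run.wh_done (by simp [hs2])
  have e5 : Run (pop c) s2 1 (update (update s i r) j ((code t).reverse ++ 2 :: s j)) := by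
    have := Run.pop c s2
    convert this using 1
    funext k
    by_cases g1 : k = c
    · subst g1
      simp [hs2, Function.update_apply, hjc.symm, hic.symm]
    · by_cases g2 : k = j
      · subst g2
        simp [hs1, hs2, Function.update_apply, g1]
      · by_cases g3 : k = i
        · subst g3
          simp [hs2, Function.update_apply, g1, g2]
        · simp [hs1, hs2, Function.update_apply, g1, g2, g3]
  exact (e1.seq (e2.seq (e3.seq (e4.seq e5)))).mono (by omega)

/-- the loop moving symbols `0,1` from stack `j` back to stack `i` until the marker -/
def mvbLoop (j i : ℕ) : Cmd :=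
  wh j 2 (ite j 1 (seq (pop j) (push i 1)) (seq (pop j) (push i 0)))

theorem mvbLoop_spec (j i : ℕ) (hij : i ≠ j) (w : List ℕ) (hw : ∀ a ∈ w, a = 0 ∨ a = 1) :
    ∀ (s : Stk) (q : List ℕ), s j = w ++ 2 :: q →
      Run (mvbLoop j i) s (1 + 5 * w.length)
        (update (update s j (2 :: q)) i (w.reverse ++ s i)) := by
  induction w with
  | nil =>
    intro s q hj
    have : update (update s j (2 :: q)) i (([] : List ℕ).reverse ++ s i) = s := by
      funext k
      by_cases g1 : k = i
      · subst g1; simp
      · by_cases g2 : k = j
        · subst g2; simp [Function.update_apply, g1, hj]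
        · simp [Function.update_apply, g1, g2]
    rw [this]
    exact (Run.wh_done (by simp [hj])).mono (by simp)
  | cons a w ih =>
    intro s q hj
    have hw' : ∀ a ∈ w, a = 0 ∨ a = 1 := fun b hb => hw b (List.mem_cons_of_mem _ hb)
    have ha := hw a List.mem_cons_self
    set s1 : Stk := update (update s j (w ++ 2 :: q)) i (a :: s i) with hs1
    have h1 : Run (ite j 1 (seq (pop j) (push i 1)) (seq (pop j) (push i 0))) s 4 s1 := by
      rcases ha with rfl | rfl
      · have hh : (s j).head? ≠ some 1 := by rw [hj]; simp
        have := Run.ite_neg (p := (seq (pop j) (push i 1))) hh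
          ((Run.pop j s).seq (Run.push i 0 _))
        convert this using 1
        funext k
        by_cases g1 : k = i
        · subst g1; simp [hs1, Function.update_apply, hij]
        · by_cases g2 : k = j
          · subst g2; simp [hs1, Function.update_apply, g1, hj]
          · simp [hs1, Function.update_apply, g1, g2]
      · have hh : (s j).head? = some 1 := by rw [hj]; simp
        have := Run.ite_pos (q := (seq (pop j) (push i 0))) hh
          ((Run.pop j s).seq (Run.push i 1 _))
        convert this using 1
        funext k
        by_cases g1 : k = i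
        · subst g1; simp [hs1, Function.update_apply, hij]
        · by_cases g2 : k = j
          · subst g2; simp [hs1, Function.update_apply, g1, hj]
          · simp [hs1, Function.update_apply, g1, g2]
    have hh : (s j).head? ≠ some 2 := by
      rw [hj]
      rcases ha with rfl | rfl <;> simp
    have a1 : s1 j = w ++ 2 :: q := by simp [hs1, Function.update_apply, hij.symm]
    have key := ih hw' s1 q a1
    have := Run.wh_step hh h1 key
    have e : update (update s1 j (2 :: q)) i (w.reverse ++ s1 i)
        = update (update s j (2 :: q)) i ((a :: w).reverse ++ s i) := by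
      funext k
      by_cases g1 : k = i
      · subst g1; simp [hs1]
      · by_cases g2 : k = j
        · subst g2; simp [Function.update_apply, g1]
        · simp [hs1, Function.update_apply, g1, g2]
    rw [e] at this
    exact this.mono (by simp; omega)

/-- move back from stack `j` to stack `i` until the marker, which is removed -/
def mvb (j i : ℕ) : Cmd := seq (mvbLoop j i) (pop j)

theorem mvb_spec (j i : ℕ) (hij : i ≠ j) (w : List ℕ) (hw : ∀ a ∈ w, a = 0 ∨ a = 1)
    (s : Stk) (q : List ℕ) (hj : s j = w ++ 2 :: q) :
    Run (mvb j i) s (5 * w.length + 3) (update (update s j q) i (w.reverse ++ s i)) := by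
  have h1 := mvbLoop_spec j i hij w hw s q hj
  have h2 := Run.pop j (update (update s j (2 :: q)) i (w.reverse ++ s i))
  have := h1.seq h2
  have e : update (update (update s j (2 :: q)) i (w.reverse ++ s i)) j
      ((update (update s j (2 :: q)) i (w.reverse ++ s i)) j).tail
      = update (update s j q) i (w.reverse ++ s i) := by
    funext k
    by_cases g1 : k = i
    · subst g1; simp [Function.update_apply, hij]
    · by_cases g2 : k = j
      · subst g2; simp [Function.update_apply, g1]
      · simp [Function.update_apply, g1, g2]
  rw [e] at this
  exact this.mono (by omega)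

/-- transfer one value from stack `i` to stack `k` via `j`, with counter `c` -/
def xfer (i k j c : ℕ) : Cmd := seq (mv i j c) (mvb j k)

theorem xfer_spec (i k j c : ℕ) (hij : i ≠ j) (hic : i ≠ c) (hjc : j ≠ c) (hkj : k ≠ j)
    (hik : i ≠ k) (t : T) (s : Stk) (r : List ℕ) (hi : s i = code t ++ r) :
    Run (xfer i k j c) s (12 * size t + 13)
      (update (update s i r) k (code t ++ s k)) := by
  have h1 := mv_spec i j c hij hic hjc t s r hi
  set s1 : Stk := update (update s i r) j ((code t).reverse ++ 2 :: s j) with hs1
  have h2 := mvb_spec j k hkj (code t).reverse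
    (fun a ha => code_mem t a (List.mem_reverse.1 ha)) s1 (s j) (by simp [hs1])
  have := h1.seq h2
  have e : update (update s1 j (s j)) k ((code t).reverse.reverse ++ s1 k)
      = update (update s i r) k (code t ++ s k) := by
    funext m
    by_cases g1 : m = k
    · subst g1; simp [hs1, Function.update_apply, hkj, hik.symm]
    · by_cases g2 : m = j
      · subst g2; simp [Function.update_apply, g1, hij.symm]
      · simp [hs1, Function.update_apply, g1, g2]
  rw [e] at this
  refine this.mono ?_
  rw [List.length_reverse, length_code]
  omega

/-- discard one value from stack `0` -/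
def dropC : Cmd := seq (mv 0 1 2) (seq (wh 1 2 (pop 1)) (pop 1))

theorem clear_spec (w : List ℕ) (hw : ∀ a ∈ w, a = 0 ∨ a = 1) :
    ∀ (s : Stk) (q : List ℕ), s 1 = w ++ 2 :: q →
      Run (wh 1 2 (pop 1)) s (1 + 2 * w.length) (update s 1 (2 :: q)) := by
  induction w with
  | nil =>
    intro s q hj
    have : update s 1 (2 :: q) = s := by
      funext k
      by_cases g2 : k = 1
      · subst g2; simp [hj]
      · simp [Function.update_apply, g2]
    rw [this]
    exact (Run.wh_done (by simp [hj])).mono (by simp)
  | cons a w ih =>
    intro s q hj
    have hw' : ∀ a ∈ w, a = 0 ∨ a = 1 := fun b hb => hw b (List.mem_cons_of_mem _ hb)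
    have ha := hw a List.mem_cons_self
    have hh : (s 1).head? ≠ some 2 := by
      rw [hj]
      rcases ha with rfl | rfl <;> simp
    have h1 := Run.pop 1 s
    have h2 := ih hw' (update s 1 (s 1).tail) q (by simp [hj])
    have := Run.wh_step hh h1 h2
    simp only [Function.update_idem] at this
    exact this.mono (by simp; omega)

theorem dropC_spec (t : T) (s : Stk) (r : List ℕ) (hi : s 0 = code t ++ r) :
    Run dropC s (9 * size t + 13) (update s 0 r) := by
  have h1 := mv_spec 0 1 2 (by simp) (by simp) (by simp) t s r hi
  set s1 : Stk := update (update s 0 r) 1 ((code t).reverse ++ 2 :: s 1) with hs1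
  have h2 := clear_spec (code t).reverse
    (fun a ha => code_mem t a (List.mem_reverse.1 ha)) s1 (s 1) (by simp [hs1])
  have h3 := Run.pop 1 (update s1 1 (2 :: s 1))
  have := h1.seq (h2.seq h3)
  have e : update (update s1 1 (2 :: s 1)) 1 ((update s1 1 (2 :: s 1)) 1).tail
      = update s 0 r := by
    funext m
    by_cases g2 : m = 1
    · subst g2; simp
    · simp [hs1, Function.update_apply, g2]
  rw [e] at this
  refine this.mono ?_
  rw [List.length_reverse, length_code]
  omega

/-- duplicate the loop moving back to two stacks -/
def dupLoop : Cmd :=
  wh 1 2 (ite 1 1 (seq (pop 1) (seq (push 0 1) (push 3 1)))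
    (seq (pop 1) (seq (push 0 0) (push 3 0))))

theorem dupLoop_spec (w : List ℕ) (hw : ∀ a ∈ w, a = 0 ∨ a = 1) :
    ∀ (s : Stk) (q : List ℕ), s 1 = w ++ 2 :: q →
      Run dupLoop s (1 + 7 * w.length)
        (update (update (update s 1 (2 :: q)) 0 (w.reverse ++ s 0)) 3 (w.reverse ++ s 3)) := by
  induction w with
  | nil =>
    intro s q hj
    have : update (update (update s 1 (2 :: q)) 0 (([] : List ℕ).reverse ++ s 0)) 3
        (([] : List ℕ).reverse ++ s 3) = s := by
      funext k
      by_cases g1 : k = 3
      · subst g1; simp
      · by_cases g2 : k = 0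
        · subst g2; simp
        · by_cases g3 : k = 1
          · subst g3; simp [hj]
          · simp [Function.update_apply, g1, g2, g3]
    rw [this]
    exact (Run.wh_done (by simp [hj])).mono (by simp)
  | cons a w ih =>
    intro s q hj
    have hw' : ∀ a ∈ w, a = 0 ∨ a = 1 := fun b hb => hw b (List.mem_cons_of_mem _ hb)
    have ha := hw a List.mem_cons_self
    set s1 : Stk := update (update (update s 1 (w ++ 2 :: q)) 0 (a :: s 0)) 3 (a :: s 3) with hs1
    have h1 : Run (ite 1 1 (seq (pop 1) (seq (push 0 1) (push 3 1)))
        (seq (pop 1) (seq (push 0 0) (push 3 0)))) s 6 s1 := by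
      rcases ha with rfl | rfl
      · have hh : (s 1).head? ≠ some 1 := by rw [hj]; simp
        have := Run.ite_neg (p := (seq (pop 1) (seq (push 0 1) (push 3 1)))) hh
          ((Run.pop 1 s).seq ((Run.push 0 0 _).seq (Run.push 3 0 _)))
        convert this using 1
        funext k
        by_cases g1 : k = 3
        · subst g1; simp [hs1]
        · by_cases g2 : k = 0
          · subst g2; simp [hs1]
          · by_cases g3 : k = 1
            · subst g3; simp [hs1, hj]
            · simp [hs1, Function.update_apply, g1, g2, g3]
      · have hh : (s 1).head? = some 1 := by rw [hj]; simp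
        have := Run.ite_pos (q := (seq (pop 1) (seq (push 0 0) (push 3 0)))) hh
          ((Run.pop 1 s).seq ((Run.push 0 1 _).seq (Run.push 3 1 _)))
        convert this using 1
        funext k
        by_cases g1 : k = 3
        · subst g1; simp [hs1]
        · by_cases g2 : k = 0
          · subst g2; simp [hs1]
          · by_cases g3 : k = 1
            · subst g3; simp [hs1, hj]
            · simp [hs1, Function.update_apply, g1, g2, g3]
    have hh : (s 1).head? ≠ some 2 := by
      rw [hj]
      rcases ha with rfl | rfl <;> simp
    have a1 : s1 1 = w ++ 2 :: q := by simp [hs1, Function.update_apply]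
    have key := ih hw' s1 q a1
    have := Run.wh_step hh h1 key
    have e : update (update (update s1 1 (2 :: q)) 0 (w.reverse ++ s1 0)) 3 (w.reverse ++ s1 3)
        = update (update (update s 1 (2 :: q)) 0 ((a :: w).reverse ++ s 0)) 3
          ((a :: w).reverse ++ s 3) := by
      funext k
      by_cases g1 : k = 3
      · subst g1; simp [hs1]
      · by_cases g2 : k = 0
        · subst g2; simp [hs1]
        · by_cases g3 : k = 1
          · subst g3; simp
          · simp [hs1, Function.update_apply, g1, g2, g3]
    rw [e] at this
    exact this.mono (by simp; omega)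

/-- duplicate the value on top of stack `0` -/
def dupC : Cmd := seq (mv 0 1 2) (seq dupLoop (seq (pop 1) (xfer 3 0 1 2)))

theorem dupC_spec (t : T) (s : Stk) (r : List ℕ) (hi : s 0 = code t ++ r) :
    Run dupC s (26 * size t + 28) (update s 0 (code t ++ (code t ++ r))) := by
  have h1 := mv_spec 0 1 2 (by simp) (by simp) (by simp) t s r hi
  set s1 : Stk := update (update s 0 r) 1 ((code t).reverse ++ 2 :: s 1) with hs1
  have h2 := dupLoop_spec (code t).reverse
    (fun a ha => code_mem t a (List.mem_reverse.1 ha)) s1 (s 1) (by simp [hs1])
  set s2 : Stk := update (update (update s1 1 (2 :: s 1)) 0 ((code t).reverse.reverse ++ s1 0)) 3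
    ((code t).reverse.reverse ++ s1 3) with hs2
  have h3 := Run.pop 1 s2
  set s3 : Stk := update s2 1 (s2 1).tail with hs3
  have h4 := xfer_spec 3 0 1 2 (by simp) (by simp) (by simp) (by simp) (by simp) t s3 (s 3)
    (by simp [hs1, hs2, hs3])
  have := h1.seq (h2.seq (h3.seq h4))
  have e : update (update s3 3 (s 3)) 0 (code t ++ s3 0)
      = update s 0 (code t ++ (code t ++ r)) := by
    funext k
    by_cases g2 : k = 0
    · subst g2; simp [hs1, hs2, hs3]
    · by_cases g1 : k = 3
      · subst g1; simp [hs1, hs2, hs3, Function.update_apply]
      · by_cases g3 : k = 1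
        · subst g3; simp [hs1, hs2, hs3]
        · simp [hs1, hs2, hs3, Function.update_apply, g1, g2, g3]
  rw [e] at this
  refine this.mono ?_
  rw [List.length_reverse, length_code]
  omega

/-- push a list of symbols -/
def pushL : List ℕ → Cmd
  | [] => seq (push 0 0) (pop 0)
  | a :: w => seq (pushL w) (push 0 a)

theorem pushL_spec (w : List ℕ) : ∀ (s : Stk),
    Run (pushL w) s (2 * w.length + 3) (update s 0 (w ++ s 0)) := by
  induction w with
  | nil =>
    intro s
    have h1 := (Run.push 0 0 s).seq (Run.pop 0 _)
    have e : update (update s 0 (0 :: s 0)) 0 ((update s 0 (0 :: s 0)) 0).tail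
        = update s 0 ([] ++ s 0) := by simp
    rw [e] at h1
    exact h1.mono (by simp)
  | cons a w ih =>
    intro s
    have h1 := (ih s).seq (Run.push 0 a _)
    have e : update (update s 0 (w ++ s 0)) 0 (a :: (update s 0 (w ++ s 0)) 0)
        = update s 0 (a :: w ++ s 0) := by simp
    rw [e] at h1
    exact h1.mono (by simp; omega)

end Pool.Agent.Helper96
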